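import Pool.Agent.R937.PZ.Geo2
import Pool.Agent.R299.ANA.Main

/-!
# Numerical equivalence and poles of L-functions for products of abelian varieties of dimension at most
three over finite fields
-/

set_option autoImplicit false
set_option linter.unusedSectionVars false
set_option linter.unusedVariables false

namespace Pool.Agent.R937.PC

open NumberField Pool.Agent.H204R3.CM Pool.Agent.W547.KB Pool.Agent.W547.LD Pool.Agent.W547.HR
open Pool.Agent.W495.TA Module Equiv Filter Topology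
open Pool.Agent.W547.DR Pool.Agent.TH117.F5 Pool.Agent.Y137.SF 
open Pool.Agent.R299.ANA
open Pool.Agent.R937.PG (IsGoodAVP)

noncomputable section

variable {p : ℕ} [Fact p.Prime] {ν : PadicAlgCl p ≃+* ℂ} {Ω : Type} [Field Ω] [CharZero Ω]
  {L : Type} [Field L] [NumberField L] {j : L →+* ℂ}

theorem full_of_systemP [IsAlgClosed Ω] {Y : RedAV p ν} (hY : IsGoodAVP Y) {s : ℕ} (hs : 0 < s)
    {S : Sys Ω Y} (hS : CycleSystemS s S) : IsFullSystem Ω Y s S :=
  ⟨hS.tate, fun n z hz => hS.algS n z (Pool.Agent.R937.PG.main hY s n hs z hz) hz, hS.rational⟩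

/-- The analytic form of the Tate conjecture. -/
theorem goodAnalyticP {Y : RedAV p ν} (hY : IsGoodAVP Y) (s : ℕ) (hs : 0 < s) :
    (∃ S : Sys ℂ Y, CycleSystemS s S) ∧
      ∀ S : Sys ℂ Y, CycleSystemS s S → ∀ n : ℕ, AnalyticFormula s S n := by
  obtain ⟨L, _, _, j, hj⟩ := exists_big Y
  refine ⟨exists_systemS j hj s, fun S hS n => ?_⟩
  have hF := full_of_systemP hY hs hS
  refine ⟨fun z hz hn => zero_of_trivial j hj hF hz hn, ?_⟩
  have h3 := phi_limit hj s hs n
  have h4 : Submodule.span ℂ (S n : Set (Coh ℂ Y n)) = Tate ℂ Y s n := by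
    ext z
    exact span_iff hF z
  have h6 := finrank_span j hj hF n
  have h5 : finrank ℂ (Submodule.span ℂ (S n : Set (Coh ℂ Y n))) = finrank ℂ (Tate ℂ Y s n) := by
    exact congrArg (fun T : Submodule ℂ ((TM ℂ Y) [⋀^Fin (2 * n)]→ₗ[ℂ] ℂ) => finrank ℂ T) h4
  have h7 : finrank ℚ (S n) = finrank ℂ (Tate ℂ Y s n) := h6.trans h5
  rw [h7]
  exact h3

end

end Pool.Agent.R937.PC
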