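import Pool.Agent.R937.TZ.IndB

/-!
# Relations between averages: hypotheses without exceptional relations
-/

set_option autoImplicit false
set_option linter.unusedSectionVars false
set_option linter.unusedVariables false

namespace Pool.Agent.R937.PZ

open Pool.Agent.W495.TA (IsSign)
open Pool.Agent.Y137.SF (rst mem_rst)
open Pool.Agent.R937.HZ
open Pool.Agent.R937.CS (av nD nD_pos av_left)
open Pool.Agent.R937.TZ

noncomputable section

variable {G M : Type} [Group G] [Fintype G] [AddCommGroup M] {c : G} {E : Subgroup G}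
  {D : (G → ℤ) → M}

/-- The hypotheses on the classes: relations with four terms only for stabilizers of index at most
four, and the relations of Weil. -/
structure Hyp1 (c : G) (E : Subgroup G) (D : (G → ℤ) → M) : Prop where
  neg : ∀ f, Sm c f → D (-f) = -D f
  ex : ∀ f : Fin 4 → G → ℤ, (∀ k, IsSign c (f k) ∧ (rst (f k)).index ≤ 4) →
    (∀ x, ∑ k, f k x = 0) → ∑ k, D (f k) = 0
  weil : ∀ (K : K2 c) (f : G → ℤ) (h : Fin 3 → G), Sm c f →
    (∀ x, ∑ k, f (x * h k) = chi K.1 x) → ∑ k, D (fun x => f (x * h k)) = D (chi K.1)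
  cg : ∀ f f', Sm c f → Sm c f' → (∀ x, av E f x = av E f' x) → D f = D f'
  zero : ∀ f, Sm c f → (∀ x, av E f x = 0) → D f = 0

theorem Sm.shift {f : G → ℤ} (hf : Sm c f) (h : G) : Sm c fun x => f (x * h) := by
  refine ⟨⟨fun x => hf.1.sign _, fun x => ?_⟩, ?_⟩
  · change f (c * x * h) = -f (x * h)
    rw [mul_assoc]
    exact hf.1.odd _
  · have h1 : (rst f).comap (MulAut.conj h⁻¹).toMonoidHom ≤ rst fun x => f (x * h) := by
      intro r hr
      rw [mem_rst]
      intro x
      have h2 : h⁻¹ * r * h ∈ rst f := by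
        have h3 := Subgroup.mem_comap.1 hr
        have h4 : (MulAut.conj h⁻¹).toMonoidHom r = h⁻¹ * r * h := by
          change h⁻¹ * r * h⁻¹⁻¹ = _
          rw [inv_inv]
        rwa [h4] at h3
      have h3 := h2 (x * h)
      have h4 : x * h * (h⁻¹ * r * h) = x * r * h := by group
      rw [h4] at h3
      exact h3
    have h2 : ((rst f).comap (MulAut.conj h⁻¹).toMonoidHom).index = (rst f).index :=
      Subgroup.index_comap_of_surjective _ (MulAut.conj h⁻¹).surjective
    exact (Nat.le_of_dvd (Nat.pos_of_ne_zero Subgroup.index_ne_zero_of_finite)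
      (Subgroup.index_dvd_of_le h1)).trans (h2.le.trans hf.2)

variable (hcomm : ∀ g, c * g = g * c) (hc2 : c * c = 1)

include hcomm hc2 in
/-- A function whose average is a third of a character. -/
theorem third1 (hH : Hyp1 c E D) (K : K2 c) (hK : E ≤ K.1) {u : G → ℤ} (hu : Sm c u)
    (hav : ∀ g, 3 * av E u g = nD E * chi K.1 g) : D (chi K.1) = (3 : ℤ) • D u := by
  classical
  have hpos := nD_pos E
  have h1 := hav 1
  rw [chi_of_mem K.1.one_mem, mul_one] at h1
  have h4 : ¬ (rst u).index ≤ 4 := by
    intro h4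
    rcases Pool.Agent.R937.CS.av_values E c hcomm hu.1 h4 1 with h2 | h2 | h2 <;> rw [h2] at h1 <;>
      omega
  have h6 : (rst u).index = 6 := by
    rcases index_cases c hcomm hc2 hu.1 hu.2 with h | h | h <;> omega
  have hV := index_VV c hcomm hc2 _ (c_notMem c hu.1)
  have hB0 : (VV c hcomm hc2 (rst u)).index = 3 := by omega
  set B0 : Subgroup G := VV c hcomm hc2 (rst u) with hB0def
  have hr3 : B0.relIndex E = 3 := by
    refine rel_three hB0 ?_
    obtain ⟨w, hw⟩ := dvd_av (E := E) hcomm hc2 hu.1 (Subgroup.normalCore_le B0) 1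
    have h5 : nD E = (Nat.card (B0.normalCore.subgroupOf E) : ℤ) *
        (B0.normalCore.relIndex E : ℤ) := by
      rw [nD_card]
      have h7 := Subgroup.index_mul_card (B0.normalCore.subgroupOf E)
      change B0.normalCore.relIndex E * _ = _ at h7
      rw [mul_comm]
      exact_mod_cast h7.symm
    have h7 : (Nat.card (B0.normalCore.subgroupOf E) : ℤ) ≠ 0 := by
      exact_mod_cast Nat.card_pos.ne'
    rw [hw, h5] at h1
    have h8 : (3 : ℤ) * w = (B0.normalCore.relIndex E : ℤ) := by
      refine mul_left_cancel₀ h7 ?_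
      linarith
    exact_mod_cast (Dvd.intro w h8 : (3 : ℤ) ∣ (B0.normalCore.relIndex E : ℤ))
  obtain ⟨e, he, hsum⟩ := exists_three K hK hB0 hr3
  obtain ⟨hs, -⟩ := index_sK hcomm hc2 K hB0
  have hK1 : ∀ x, chi K.1 x⁻¹ = chi K.1 x := by
    intro x
    by_cases h : x ∈ K.1
    · rw [chi_of_mem h, chi_of_mem (K.1.inv_mem h)]
    · rw [chi_of_notMem h, chi_of_notMem (fun h' => h ((K.1.inv_mem_iff).1 h'))]
  have hsw : ∀ i x, sK K.1 B0 (x * e i) = sK K.1 B0 ((e i)⁻¹ * x⁻¹) := by
    intro i x
    unfold sK
    rw [chi_mul K.2.1, chi_of_mem (hK (he i)), mul_one, chi_mul K.2.1,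
      chi_of_mem (K.1.inv_mem (hK (he i))), one_mul, hK1, ← mul_inv_rev]
    congr 1
    by_cases h : x * e i ∈ B0
    · rw [if_pos h, if_pos (B0.inv_mem h)]
    · rw [if_neg h, if_neg (fun h' => h ((B0.inv_mem_iff).1 h'))]
  have hse : ∀ i, Sm c fun x => sK K.1 B0 (x * e i) := fun i => Sm.shift hs (e i)
  have hDe : ∀ i, D (fun x => sK K.1 B0 (x * e i)) = D u := by
    intro i
    refine hH.cg _ _ (hse i) hu fun x => ?_
    rw [av_shift]
    have h9 := av_sK K hK hB0 hr3 (x * e i)
    rw [chi_mul K.2.1, chi_of_mem (hK (he i)), mul_one] at h9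
    have h10 := hav x
    linarith
  have h11 := hH.weil K (sK K.1 B0) e hs fun x => by
    rw [Finset.sum_congr rfl fun i _ => hsw i x, hsum, hK1]
  rw [Finset.sum_congr rfl fun i _ => hDe i, Finset.sum_const, Finset.card_univ,
    Fintype.card_fin] at h11
  rw [← h11]
  module

include hcomm hc2

/-- The classes of functions that belong to a character. -/
theorem clk_class1 (hH : Hyp1 c E D) (K : K2 c) (hK : E ≤ K.1) :
    ∃ (e : ℤ) (W : M), e ≠ 0 ∧ ∀ f, Sm c f → ∀ k, CLK E K k f → ∃ l : ℤ, k = e * l ∧ D f = l • W := by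
  classical
  have hneg : ∀ f, Sm c f → Sm c (-f) := fun f hf => hf.neg
  by_cases hu : ∃ u, Sm c u ∧ ∀ g, 3 * av E u g = nD E * chi K.1 g
  · obtain ⟨u, hu1, hu2⟩ := hu
    have three : ∀ f, Sm c f → (∀ g, av E f g = 3 * av E u g) → D f = (3 : ℤ) • D u := by
      intro f hf hfu
      have h1 : D f = D (chi K.1) := hH.cg _ _ hf (Sm.chi K) fun x => by
        rw [(av_chi K.2.1 x).1 hK, hfu]
        exact hu2 x
      rw [h1]
      exact third1 hcomm hc2 hH K hK hu1 hu2
    refine ⟨1, D u, one_ne_zero, fun f hf k hk => ⟨k, (one_mul k).symm, ?_⟩⟩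
    obtain ⟨-, hk1, hk2⟩ := hk
    rcases hk1 with rfl | rfl | rfl | rfl
    · rw [one_smul]
      exact hH.cg _ _ hf hu1 fun x => by have := hk2 x; have := hu2 x; linarith
    · rw [neg_one_smul, ← hH.neg _ hu1]
      exact hH.cg _ _ hf (hneg _ hu1) fun x => by
        rw [av_neg]
        have := hk2 x
        have := hu2 x
        linarith
    · exact three f hf fun g => by
        have := hk2 g
        have := hu2 g
        linarith
    · have h1 := three (-f) (hneg _ hf) fun g => by
        rw [av_neg]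
        have := hk2 g
        have := hu2 g
        linarith
      rw [hH.neg _ hf] at h1
      linear_combination (norm := module) -h1
  · have hno : ∀ f, Sm c f → ∀ k, CLK E K k f → k = 3 ∨ k = -3 := by
      rintro f hf k ⟨-, hk1, hk2⟩
      rcases hk1 with rfl | rfl | h | h
      · exact absurd ⟨f, hf, fun g => by rw [hk2, one_mul]⟩ hu
      · exact absurd ⟨-f, hneg _ hf, fun g => by
          rw [av_neg]
          have := hk2 g
          linarith⟩ hu
      · exact Or.inl h
      · exact Or.inr h
    refine ⟨3, D (chi K.1), by norm_num, fun f hf k hk => ?_⟩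
    rcases hno f hf k hk with rfl | rfl
    · refine ⟨1, by norm_num, ?_⟩
      rw [one_smul]
      exact hH.cg _ _ hf (Sm.chi K) fun x => by
        have h1 := hk.2.2 x
        rw [(av_chi K.2.1 x).1 hK]
        linarith
    · refine ⟨-1, by norm_num, ?_⟩
      rw [neg_one_smul, ← hH.neg _ (Sm.chi K)]
      exact hH.cg _ _ hf (hneg _ (Sm.chi K)) fun x => by
        have h1 := hk.2.2 x
        rw [av_neg, (av_chi K.2.1 x).1 hK]
        linarith

/-- The relations between functions that belong to characters. -/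
theorem rl_cl1 (hH : Hyp1 c E D) : RlA E D fun f => Sm c f ∧ (CL c E f ∨ ∀ g, av E f g = 0) := by
  classical
  have h0 : RlA E D fun f => Sm c f ∧ CL c E f := by
    intro ι _ m f hf hr
    choose K k hk using fun i => (hf i).2
    have hind : ∀ K0 : K2 c, ∑ i with K i = K0, m i * k i = 0 := by
      intro K0
      refine chi_indep (c := c) ℤ (by norm_num) (fun K0 => ∑ i with K i = K0, m i * k i)
        (fun g => ?_) K0
      have h1 : nD E * ∑ K0 : K2 c, (∑ i with K i = K0, m i * k i) * ((chi K0.1 g : ℤ) : ℤ) = 0 := by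
        have h2 : ∀ K0 : K2 c, (∑ i with K i = K0, m i * k i) * ((chi K0.1 g : ℤ) : ℤ) =
            ∑ i with K i = K0, m i * k i * chi (K i).1 g := by
          intro K0
          rw [Finset.sum_mul]
          refine Finset.sum_congr rfl fun i hi => ?_
          rw [(Finset.mem_filter.1 hi).2]
        rw [Finset.sum_congr rfl fun K0 _ => h2 K0,
          Finset.sum_fiberwise (Finset.univ : Finset ι) K fun i => m i * k i * chi (K i).1 g,
          Finset.mul_sum]
        have h3 : ∀ i, nD E * (m i * k i * chi (K i).1 g) = 3 * (m i * av E (f i) g) := by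
          intro i
          have := (hk i).2.2 g
          linear_combination (-(m i)) * this
        rw [Finset.sum_congr rfl fun i _ => h3 i, ← Finset.mul_sum, hr, mul_zero]
      exact (mul_eq_zero.1 h1).resolve_left (nD_pos E).ne'
    rw [← Finset.sum_fiberwise (Finset.univ : Finset ι) K fun i => m i • D (f i)]
    refine Finset.sum_eq_zero fun K0 _ => ?_
    by_cases hE : E ≤ K0.1
    · obtain ⟨e, W, he, hW⟩ := clk_class1 hcomm hc2 hH K0 hE
      have h1 : ∀ i, ∃ l : ℤ, K i = K0 → k i = e * l ∧ D (f i) = l • W := by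
        intro i
        by_cases h : K i = K0
        · obtain ⟨l, h2, h3⟩ := hW (f i) (hf i).1 (k i) (h ▸ hk i)
          exact ⟨l, fun _ => ⟨h2, h3⟩⟩
        · exact ⟨0, fun h' => absurd h' h⟩
      choose l hl using h1
      have h2 : ∑ i with K i = K0, m i * l i = 0 := by
        have h3 : e * ∑ i with K i = K0, m i * l i = 0 := by
          rw [← hind K0, Finset.mul_sum]
          refine Finset.sum_congr rfl fun i hi => ?_
          rw [(hl i (Finset.mem_filter.1 hi).2).1]
          ring
        exact (mul_eq_zero.1 h3).resolve_left he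
      rw [Finset.sum_congr rfl fun i hi => by
        rw [(hl i (Finset.mem_filter.1 hi).2).2, ← mul_smul], ← Finset.sum_smul, h2, zero_smul]
    · refine Finset.sum_eq_zero fun i hi => absurd ?_ hE
      rw [← (Finset.mem_filter.1 hi).2]
      exact (hk i).1
  intro ι _ m f hf hr
  have h1 := h0 {i // ¬ ∀ g, av E (f i) g = 0} (fun i => m i.1) (fun i => f i.1)
    (fun i => ⟨(hf _).1, (hf _).2.resolve_right i.2⟩) (fun g => by
      rw [← Finset.sum_subtype (Finset.univ.filter fun i => ¬ ∀ g, av E (f i) g = 0) (by simp)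
        fun i => m i * av E (f i) g, Finset.sum_filter]
      refine Eq.trans (Finset.sum_congr rfl fun i _ => ?_) (hr g)
      by_cases h : ∀ g, av E (f i) g = 0
      · rw [if_neg (not_not.2 h), h g, mul_zero]
      · rw [if_pos h])
  rw [← Finset.sum_subtype (Finset.univ.filter fun i => ¬ ∀ g, av E (f i) g = 0) (by simp)
    fun i => m i • D (f i), Finset.sum_filter] at h1
  rw [← h1]
  refine Finset.sum_congr rfl fun i _ => ?_
  by_cases h : ∀ g, av E (f i) g = 0
  · rw [if_neg (not_not.2 h), hH.zero _ (hf i).1 h, smul_zero]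
  · rw [if_pos h]

omit hcomm hc2 in
/-- Functions whose averages are equal up to the sign or orthogonal. -/
theorem rl_orth (hH : Hyp1 c E D) {P : (G → ℤ) → Prop} (hP : ∀ f, P f → Sm c f)
    (h : ∀ f f', P f → P f' → (∀ x, av E f' x = av E f x) ∨ (∀ x, av E f' x = -av E f x) ∨
      ∑ x, av E f x * av E f' x = 0) : RlA E D P := by
  classical
  refine RlA.split (fun f => ({av E f, -av E f} : Set (G → ℤ))) ?_ ?_
  · intro ι _ m f hf hr i0 v _ hv g
    set a := av E (f i0) with ha
    have h1 : ∀ i, ∃ s : ℤ, (({av E (f i), -av E (f i)} : Set (G → ℤ)) = v →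
        ∀ x, av E (f i) x = s * a x) ∧ ((({av E (f i), -av E (f i)} : Set (G → ℤ)) ≠ v →
          ∑ x, a x * av E (f i) x = 0)) := by
      intro i
      rcases h (f i0) (f i) (hf i0) (hf i) with h2 | h2 | h2
      · refine ⟨1, fun _ x => by rw [one_mul, h2], fun h3 => absurd ?_ h3⟩
        rw [← hv, show av E (f i) = av E (f i0) from funext h2]
      · refine ⟨-1, fun _ x => by rw [neg_one_mul, h2], fun h3 => absurd ?_ h3⟩
        rw [← hv, show av E (f i) = -av E (f i0) from funext h2, neg_neg, Set.pair_comm]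
      · by_cases h3 : ({av E (f i), -av E (f i)} : Set (G → ℤ)) = v
        · have h4 : av E (f i) ∈ ({av E (f i0), -av E (f i0)} : Set (G → ℤ)) := by
            rw [hv, ← h3]
            exact Set.mem_insert _ _
          rcases h4 with h4 | h4
          · exact ⟨1, fun _ x => by rw [one_mul, h4], fun h5 => absurd h3 h5⟩
          · refine ⟨-1, fun _ x => ?_, fun h5 => absurd h3 h5⟩
            rw [neg_one_mul, h4]
            rfl
        · exact ⟨0, fun h4 => absurd h4 h3, fun _ => h2⟩
    choose s hs using h1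
    have h2 : (∑ i with ({av E (f i), -av E (f i)} : Set (G → ℤ)) = v, m i * s i) *
        ∑ x, a x * a x = 0 := by
      have h3 : ∑ x, a x * ∑ i, m i * av E (f i) x = 0 :=
        Finset.sum_eq_zero fun x _ => by rw [hr, mul_zero]
      have h4 : ∑ x, a x * ∑ i, m i * av E (f i) x =
          ∑ i, m i * ∑ x, a x * av E (f i) x := by
        simp only [Finset.mul_sum]
        rw [Finset.sum_comm]
        exact Finset.sum_congr rfl fun i _ => Finset.sum_congr rfl fun x _ => by ring
      rw [h4, ← Finset.sum_filter_add_sum_filter_not _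
        (fun i => ({av E (f i), -av E (f i)} : Set (G → ℤ)) = v),
        Finset.sum_eq_zero (s := Finset.univ.filter fun i =>
          ¬ ({av E (f i), -av E (f i)} : Set (G → ℤ)) = v) fun i hi => by
            rw [(hs i).2 (Finset.mem_filter.1 hi).2, mul_zero], add_zero] at h3
      rw [← h3, Finset.sum_mul]
      refine Finset.sum_congr rfl fun i hi => ?_
      rw [mul_assoc, Finset.mul_sum]
      congr 1
      refine Finset.sum_congr rfl fun x _ => ?_
      rw [(hs i).1 (Finset.mem_filter.1 hi).2]
      ring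
    have h5 : ∑ i with ({av E (f i), -av E (f i)} : Set (G → ℤ)) = v, m i * av E (f i) g =
        (∑ i with ({av E (f i), -av E (f i)} : Set (G → ℤ)) = v, m i * s i) * a g := by
      rw [Finset.sum_mul]
      refine Finset.sum_congr rfl fun i hi => ?_
      rw [(hs i).1 (Finset.mem_filter.1 hi).2]
      ring
    rw [h5]
    rcases mul_eq_zero.1 h2 with h6 | h6
    · rw [h6, zero_mul]
    · have h7 := (Finset.sum_eq_zero_iff_of_nonneg fun x _ => mul_self_nonneg (a x)).1 h6 g
        (Finset.mem_univ _)
      rw [mul_self_eq_zero.1 h7, mul_zero]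
  · intro f0 hf0 ι _ m f hf hr
    have h1 : ∀ i, ∃ s : ℤ, (s = 1 ∨ s = -1) ∧ ∀ x, av E (f i) x = s * av E f0 x := by
      intro i
      have h4 : av E (f i) ∈ ({av E f0, -av E f0} : Set (G → ℤ)) := by
        rw [← (hf i).2]
        exact Set.mem_insert _ _
      rcases h4 with h4 | h4
      · exact ⟨1, Or.inl rfl, fun x => by rw [one_mul, h4]⟩
      · exact ⟨-1, Or.inr rfl, fun x => by
          rw [neg_one_mul, h4]
          rfl⟩
    choose s hs1 hs2 using h1
    have hD : ∀ i, D (f i) = s i • D f0 := by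
      intro i
      rcases hs1 i with h2 | h2
      · rw [h2, one_smul]
        exact hH.cg _ _ (hP _ (hf i).1) (hP _ hf0) fun x => by rw [hs2, h2, one_mul]
      · rw [h2, neg_one_smul, ← hH.neg _ (hP _ hf0)]
        exact hH.cg _ _ (hP _ (hf i).1) (hP _ hf0).neg fun x => by
          rw [hs2, h2, av_neg, neg_one_mul]
    rw [Finset.sum_congr rfl fun i _ => by rw [hD i, ← mul_smul], ← Finset.sum_smul]
    by_cases h0 : ∀ x, av E f0 x = 0
    · rw [hH.zero _ (hP _ hf0) h0, smul_zero]
    · push Not at h0
      obtain ⟨x, hx⟩ := h0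
      have h2 : (∑ i, m i * s i) * av E f0 x = 0 := by
        rw [← hr x, Finset.sum_mul]
        exact Finset.sum_congr rfl fun i _ => by rw [hs2 i x]; ring
      rw [(mul_eq_zero.1 h2).resolve_right hx, zero_smul]

end

end Pool.Agent.R937.PZ
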