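import Pool.Agent.Y137.GN.Defs

/-!
# Abelian varieties over finite fields with factors of dimension at most three
-/

set_option autoImplicit false

namespace Pool.Agent.R937.PG

open NumberField Pool.Agent.H204R3.CM Pool.Agent.W547.KB Pool.Agent.W495.TA Module
open Pool.Agent.W495.FM (Homology Cycles Motivic IsMotivic IsAbelian)

noncomputable section

variable {p : ℕ} [Fact p.Prime] {ν : PadicAlgCl p ≃+* ℂ}

/-- The factor `i` of `Y` is supersingular: a power of the Frobenius endomorphism is a power of `p`. -/
def IsSupersingular (Y : RedAV p ν) (i : Y.X.I) : Prop :=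
  ∃ s : ℕ, 0 < s ∧ (Y.π i) ^ (2 * s) = ((p : (Y.X.factor i).E) ^ Y.a) ^ s

/-- The two factors are (over an algebraic closure) powers of isogenous abelian varieties: an
isomorphism of the CM fields takes a power of the Frobenius endomorphism of the one to the same power
of the other. -/
def IsIsogenous (Y : RedAV p ν) (i k : Y.X.I) : Prop :=
  ∃ (e : (Y.X.factor i).E ≃+* (Y.X.factor k).E) (s : ℕ), 0 < s ∧ e ((Y.π i) ^ s) = (Y.π k) ^ s

/-- The abelian variety `Y` is (over an algebraic closure) isogenous to a product of a supersingular
abelian variety and of powers of the factors of `Z`: each factor of `Y` is supersingular or (an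
embedding of the CM fields takes a power of the Frobenius endomorphism of a factor of `Z` to a power of
its Frobenius endomorphism) isogenous to a power of a factor of `Z`. -/
def IsPowersTimesSupersingular (Z Y : RedAV p ν) : Prop :=
  ∀ i : Y.X.I, IsSupersingular Y i ∨
    ∃ (k : Z.X.I) (ι : (Z.X.factor k).E →+* (Y.X.factor i).E) (s t : ℕ), 0 < s ∧ 0 < t ∧
      Y.a * s = Z.a * t ∧ (Y.π i) ^ s = ι ((Z.π k) ^ t)

/-- The factor `i` of the abelian variety `Y` over the field with `q = p ^ a` elements is ordinary: each
conjugate of its Frobenius endomorphism is a unit, or has the absolute value of `q`, for the `p`-adic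
absolute value. -/
def IsOrdinary (Y : RedAV p ν) (i : Y.X.I) : Prop :=
  ∀ ψ : (Y.X.factor i).E →+* ℂ, ‖ν.symm (ψ (Y.π i))‖ = 1 ∨
    ‖ν.symm (ψ (Y.π i))‖ = ‖(p : PadicAlgCl p) ^ Y.a‖

/-- The `p`-rank of the factor `i` of `Y`: the number of the conjugates of its Frobenius endomorphism
which are `p`-adic units. -/
def pRank (Y : RedAV p ν) (i : Y.X.I) : ℕ :=
  Nat.card {ψ : (Y.X.factor i).E →+* ℂ // ‖ν.symm (ψ (Y.π i))‖ = 1}

/-- The factors of `Z` have dimension at most three, and any two factors of dimension three whose CM
fields have the same Galois closure over `ℚ` (in the field of complex numbers) satisfy one of the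
following conditions: these CM fields are Galois over `ℚ`; one of the two factors is supersingular; they
are isogenous; **neither of them is ordinary, and their `p`-ranks are not one and two** (if one of them
has `p`-rank one then the other has `p`-rank at most one). -/
structure SmallFactorsP (Z : RedAV p ν) : Prop where
  degree : ∀ i, finrank ℚ (Z.X.factor i).E ≤ 6
  closure : ∀ i k, finrank ℚ (Z.X.factor i).E = 6 → finrank ℚ (Z.X.factor k).E = 6 →
    IntermediateField.normalClosure ℚ (Z.X.factor i).E ℂ =
      IntermediateField.normalClosure ℚ (Z.X.factor k).E ℂ →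
    IsGalois ℚ (Z.X.factor i).E ∨ IsSupersingular Z i ∨ IsSupersingular Z k ∨
      IsIsogenous Z i k ∨
      (¬ IsOrdinary Z i ∧ ¬ IsOrdinary Z k ∧ (pRank Z i = 1 → pRank Z k ≤ 1))

/-- The abelian variety `Y` over a finite field is of one of the following kinds: its dimension is at
most five; or it is isogenous, over an algebraic closure, to a product of a supersingular abelian
variety and of powers of the factors of an abelian variety with `SmallFactorsP`. -/
def IsGoodAVP (Y : RedAV p ν) : Prop :=
  finrank ℚ Y.X.H1 ≤ 10 ∨ ∃ Z : RedAV p ν, SmallFactorsP Z ∧ IsPowersTimesSupersingular Z Y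

/-- The groups of motivic and of `ℓ`-adic homology of `X` are those of an abelian variety `Y` of
dimension at most five, or with small factors (`IsGoodAVP`). -/
def IsGoodAbelianP {Ω V : Type} [Field Ω] [CharZero Ω] (p : ℕ) [Fact p.Prime]
    (ν : PadicAlgCl p ≃+* ℂ) (T : Homology Ω V) (X : V) : Prop :=
  ∃ (Y : RedAV p ν) (C : Cycles Ω Y) (M : Motivic C) (g : ℕ), IsGoodAVP Y ∧
    Pool.Agent.Y137.GN.IsChowS C ∧ IsMotivic M ∧ IsAbelian T X M g

end

end Pool.Agent.R937.PG
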