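import Pool.Agent.R937.PZ.S3P

/-!
# Averages of good functions in the presence of an ordinary function
-/

set_option autoImplicit false
set_option linter.unusedSectionVars false
set_option linter.unusedVariables false

namespace Pool.Agent.R937.PZ

open Pool.Agent.R937.HZ Pool.Agent.R937.TZ

variable {M : Type} [AddCommGroup M]

theorem TT_shift (b : Bool) (p i : Fin 3) (σ τ : P3) :
    TT b p i (σ * τ) = UU b τ * TT b (τ p) i σ := by
  revert b p i σ τ
  decide

theorem TT_UU (b : Bool) (p i : Fin 3) (σ : P3) :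
    TT b p i σ = UU b σ * (if σ p = i then -1 else 1) := by
  revert b p i σ
  decide

theorem UU_hom (b : Bool) (σ τ : P3) : UU b (σ * τ) = UU b σ * UU b τ := by
  revert b σ τ
  decide

theorem UU_sq (b : Bool) (σ : P3) : UU b σ * UU b σ = 1 := by
  revert b σ
  decide

theorem TT_sq (b : Bool) (p i : Fin 3) (σ : P3) : TT b p i σ * TT b p i σ = 1 := by
  revert b p i σ
  decide

theorem TT_vals (b : Bool) (p i : Fin 3) : (∃ σ, TT b p i σ = UU b σ) ∧
    ∃ σ, TT b p i σ = -UU b σ := by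
  revert b p i
  decide

theorem exists_even (p i : Fin 3) : ∃ σ : P3, σ p = i ∧ UU false σ = 1 ∧ UU true σ = 1 := by
  revert p i
  decide

theorem exists_odd (p i : Fin 3) : ∃ σ : P3, σ p = i ∧ UU false σ = 1 ∧ UU true σ = -1 := by
  revert p i
  decide

theorem Ap_vals (q : Fin 3) (b b' : Bool) (p i : Fin 3) :
    (∃ σ, Ap q (ee b) (TT b' p i) σ = 0) ∨
      ∀ σ, Ap q (ee b) (TT b' p i) σ = 2 ∨ Ap q (ee b) (TT b' p i) σ = -2 := by
  revert q b b' p i
  decide

theorem aw_shift (w F : P3 → ℤ) (τ σ : P3) : aw w (fun ρ => F (ρ * τ)) σ = aw w F (σ * τ) := by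
  unfold aw
  exact Finset.sum_congr rfl fun δ _ => by beta_reduce; rw [mul_assoc]

theorem aw_mul (w F : P3 → ℤ) (n : ℤ) (σ : P3) : aw w (fun ρ => n * F ρ) σ = n * aw w F σ := by
  unfold aw
  rw [Finset.mul_sum]
  exact Finset.sum_congr rfl fun δ _ => by ring

theorem aw_UU (w : P3 → ℤ) (b : Bool) : ∃ n : ℤ, ∀ σ, aw w (UU b) σ = n * UU b σ := by
  refine ⟨∑ δ, w δ * UU b δ, fun σ => ?_⟩
  unfold aw
  rw [Finset.sum_mul]
  exact Finset.sum_congr rfl fun δ _ => by rw [UU_hom]; ring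

theorem aw_neg (w F : P3 → ℤ) (σ : P3) : aw w (-F) σ = -aw w F σ := by
  have h := aw_mul w F (-1) σ
  have h1 : (fun ρ => -1 * F ρ) = -F := by
    funext ρ
    rw [Pi.neg_apply, neg_one_mul]
  rw [h1] at h
  rw [h, neg_one_mul]

section

variable {w : P3 → ℤ} {b0 : Bool} {p0 i0 : Fin 3} {n0 : ℤ}

/-- All translates of an ordinary function are ordinary. -/
theorem ord_all (hord : ∀ σ, aw w (TT b0 p0 i0) σ = n0 * TT b0 p0 i0 σ) (p : Fin 3) (σ : P3) :
    aw w (TT b0 p i0) σ = n0 * TT b0 p i0 σ := by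
  have h1 : TT b0 p i0 = fun ρ => UU b0 (Equiv.swap p0 p) *
      TT b0 p0 i0 (ρ * Equiv.swap p0 p) := by
    funext ρ
    rw [TT_shift, Equiv.swap_apply_left, ← mul_assoc, UU_sq, one_mul]
  have h2 : aw w (TT b0 p i0) σ = UU b0 (Equiv.swap p0 p) *
      aw w (TT b0 p0 i0) (σ * Equiv.swap p0 p) := by
    conv_lhs => rw [h1]
    rw [aw_mul w (fun ρ => TT b0 p0 i0 (ρ * Equiv.swap p0 p)), aw_shift]
  rw [h2, hord, TT_shift, Equiv.swap_apply_left]
  linear_combination (n0 * TT b0 p i0 σ) * UU_sq b0 (Equiv.swap p0 p)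

theorem ord_UU (hord : ∀ σ, aw w (TT b0 p0 i0) σ = n0 * TT b0 p0 i0 σ) (σ : P3) :
    aw w (UU b0) σ = n0 * UU b0 σ := by
  have h1 : aw w (UU b0) σ = aw w (TT b0 0 i0) σ + aw w (TT b0 1 i0) σ + aw w (TT b0 2 i0) σ := by
    unfold aw
    rw [← Finset.sum_add_distrib, ← Finset.sum_add_distrib]
    refine Finset.sum_congr rfl fun δ _ => ?_
    rw [← rel_col b0 i0 (δ * σ)]
    ring
  rw [h1, ord_all hord, ord_all hord, ord_all hord, ← rel_col b0 i0 σ]
  ring

/-- The possible absolute values. -/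
theorem ord_abs (hw : Wgt w) (hn0 : n0 ≠ 0)
    (hord : ∀ σ, aw w (TT b0 p0 i0) σ = n0 * TT b0 p0 i0 σ) {b : Bool} {p i : Fin 3}
    (h : ∀ σ, aw w (TT b p i) σ ≠ 0) (σ : P3) :
    aw w (TT b p i) σ = n0 ∨ aw w (TT b p i) σ = -n0 := by
  have hee : ∀ e : ℤ, (e = 1 ∨ e = -1) → ∃ b, e = ee b := by
    rintro e (rfl | rfl)
    · exact ⟨false, rfl⟩
    · exact ⟨true, rfl⟩
  rcases wgt_cases hw with h1 | ⟨q, e, he, h1⟩ | h1 | ⟨e, he, h1⟩
  · have h2 := hord 1
    rw [h1] at h2
    have h3 := TT_sq b0 p0 i0 1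
    have h4 : n0 = 1 := by
      rcases TT_sign b0 p0 i0 1 with h5 | h5 <;> rw [h5] at h2 <;> omega
    rw [h1, h4]
    exact TT_sign b p i σ
  · obtain ⟨b1, rfl⟩ := hee e he
    have h2 : n0 = 2 ∨ n0 = -2 := by
      rcases Ap_vals q b1 b0 p0 i0 with ⟨σ', h3⟩ | h3
      · exfalso
        have h4 := hord σ'
        rw [h1, h3] at h4
        rcases mul_eq_zero.1 h4.symm with h5 | h5
        · exact hn0 h5
        · rcases TT_sign b0 p0 i0 σ' with h6 | h6 <;> rw [h6] at h5 <;> norm_num at h5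
      · have h4 := hord 1
        rw [h1] at h4
        rcases h3 1 with h5 | h5 <;> rcases TT_sign b0 p0 i0 1 with h6 | h6 <;>
          rw [h5, h6] at h4 <;> omega
    rcases Ap_vals q b1 b p i with ⟨σ', h3⟩ | h3
    · exact absurd (by rw [h1, h3]) (h σ')
    · rw [h1]
      rcases h3 σ with h4 | h4 <;> rcases h2 with h5 | h5 <;> rw [h4, h5] <;> norm_num
  · exfalso
    obtain ⟨⟨σ1, h2⟩, ⟨σ2, h3⟩⟩ := TT_vals b0 p0 i0
    have h4 := hord σ1
    have h5 := hord σ2
    rw [h1, AA_TT, h2] at h4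
    rw [h1, AA_TT, h3] at h5
    rcases UU_sign b0 σ1 with h6 | h6 <;> rcases UU_sign b0 σ2 with h7 | h7 <;>
      rw [h6] at h4 <;> rw [h7] at h5 <;> omega
  · exfalso
    obtain ⟨b1, rfl⟩ := hee e he
    obtain ⟨⟨σ1, h2⟩, ⟨σ2, h3⟩⟩ := TT_vals b0 p0 i0
    have h4 := hord σ1
    have h5 := hord σ2
    rw [h1, AS_TT, h2] at h4
    rw [h1, AS_TT, h3] at h5
    by_cases hb : b0 = b1
    · subst hb
      rw [if_pos rfl] at h4 h5
      rcases UU_sign b0 σ1 with h6 | h6 <;> rcases UU_sign b0 σ2 with h7 | h7 <;>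
        rw [h6] at h4 <;> rw [h7] at h5 <;> omega
    · rw [if_neg hb] at h4
      rcases UU_sign b0 σ1 with h6 | h6 <;> rw [h6] at h4 <;> omega

end

/-- **Relations in the presence of an ordinary function.** -/
theorem rl_goodO {w : P3 → ℤ} (D : (P3 → ℤ) → M)
    (hneg : ∀ F, Good F → D (-F) = -D F)
    (hcol : ∀ b i, D (TT b 0 i) + D (TT b 1 i) + D (TT b 2 i) = D (UU b))
    (hz : ∀ F, Good F → (∀ σ, aw w F σ = 0) → D F = 0)
    {ι : Type} [Fintype ι] (m : ι → ℤ) (F : ι → P3 → ℤ) (hF : ∀ i, Good (F i))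
    {b0 : Bool} {p0 i0 : Fin 3} {n0 : ℤ} (hn0 : n0 ≠ 0)
    (hord : ∀ σ, aw w (TT b0 p0 i0) σ = n0 * TT b0 p0 i0 σ)
    (hP : ∀ i, (∃ b, F i = UU b ∨ F i = -UU b) ∨ (∀ σ, aw w (F i) σ = 0) ∨
      ∃ p, F i = TT b0 p i0 ∨ F i = -TT b0 p i0)
    (hr : ∀ σ, ∑ i, m i * aw w (F i) σ = 0) : ∑ i, m i • D (F i) = 0 := by
  classical
  obtain ⟨c', hc'⟩ := aw_UU w (!b0)
  have hdec : ∀ i, ∃ (s : Fin 3 → ℤ) (t u : ℤ),
      D (F i) = ∑ p, s p • D (TT b0 p i0) + t • D (UU b0) + u • D (UU (!b0)) ∧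
      ∀ σ, aw w (F i) σ = n0 * (∑ p, s p * TT b0 p i0 σ + t * UU b0 σ) +
        u * (c' * UU (!b0) σ) := by
    intro i
    rcases hP i with ⟨b, h⟩ | h | ⟨p, h⟩
    · obtain ⟨e, he, hF'⟩ : ∃ e : ℤ, D (F i) = e • D (UU b) ∧
          ∀ σ, aw w (F i) σ = e * aw w (UU b) σ := by
        rcases h with h | h
        · exact ⟨1, by rw [h, one_smul], fun σ => by rw [h, one_mul]⟩
        · exact ⟨-1, by rw [h, hneg _ (good_UU _), neg_one_smul], fun σ => by
            rw [h, aw_neg, neg_one_mul]⟩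
      by_cases hb : b = b0
      · subst hb
        refine ⟨0, e, 0, ?_, fun σ => ?_⟩
        · rw [he]
          simp
        · rw [hF', ord_UU hord]
          simp
          ring
      · have hb' : b = !b0 := by
          cases b <;> cases b0 <;> simp_all
        refine ⟨0, 0, e, ?_, fun σ => ?_⟩
        · rw [he, hb']
          simp
        · rw [hF', hb', hc']
          simp
    · refine ⟨0, 0, 0, ?_, fun σ => ?_⟩
      · rw [hz _ (hF i) h]
        simp
      · rw [h σ]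
        simp
    · obtain ⟨e, he, hF'⟩ : ∃ e : ℤ, D (F i) = e • D (TT b0 p i0) ∧
          ∀ σ, aw w (F i) σ = e * aw w (TT b0 p i0) σ := by
        rcases h with h | h
        · exact ⟨1, by rw [h, one_smul], fun σ => by rw [h, one_mul]⟩
        · exact ⟨-1, by rw [h, hneg _ (good_TT _ _ _), neg_one_smul], fun σ => by
            rw [h, aw_neg, neg_one_mul]⟩
      refine ⟨fun k => e * (Pi.single p 1 : Fin 3 → ℤ) k, 0, 0, ?_, fun σ => ?_⟩
      · rw [he, zero_smul, zero_smul, add_zero, add_zero]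
        have h1 := sum_single_smul p fun p => D (TT b0 p i0)
        rw [← h1, Finset.smul_sum]
        exact Finset.sum_congr rfl fun k _ => by rw [mul_smul]
      · rw [hF', ord_all hord, zero_mul, zero_mul, add_zero, add_zero]
        have h1 := sum_single_mul p fun p => TT b0 p i0 σ
        have h2 : ∑ k, e * (Pi.single p 1 : Fin 3 → ℤ) k * TT b0 k i0 σ = e * TT b0 p i0 σ := by
          rw [← h1, Finset.mul_sum]
          exact Finset.sum_congr rfl fun k _ => by rw [mul_assoc]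
        rw [h2]
        ring
  choose s t u h using hdec
  set S : Fin 3 → ℤ := fun p => ∑ i, m i * s i p with hS
  set T : ℤ := ∑ i, m i * t i with hT
  set U : ℤ := ∑ i, m i * u i with hU
  have hD : ∑ i, m i • D (F i) = ∑ p, S p • D (TT b0 p i0) + T • D (UU b0) +
      U • D (UU (!b0)) := by
    have h1 : ∀ i, m i • D (F i) = ∑ p, (m i * s i p) • D (TT b0 p i0) +
        (m i * t i) • D (UU b0) + (m i * u i) • D (UU (!b0)) := by
      intro i
      rw [(h i).1, smul_add, smul_add, Finset.smul_sum]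
      simp only [mul_smul]
    rw [Finset.sum_congr rfl fun i _ => h1 i, Finset.sum_add_distrib, Finset.sum_add_distrib,
      Finset.sum_comm, ← Finset.sum_smul, ← Finset.sum_smul]
    congr 2
    exact Finset.sum_congr rfl fun p _ => by rw [← Finset.sum_smul]
  have hrel : ∀ σ, n0 * (∑ p, S p * TT b0 p i0 σ + T * UU b0 σ) + U * (c' * UU (!b0) σ) = 0 := by
    intro σ
    refine Eq.trans ?_ (hr σ)
    have h1 : ∀ i, m i * aw w (F i) σ = n0 * (∑ p, (m i * s i p) * TT b0 p i0 σ +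
        (m i * t i) * UU b0 σ) + (m i * u i) * (c' * UU (!b0) σ) := by
      intro i
      rw [(h i).2 σ]
      have h2 : ∑ p, (m i * s i p) * TT b0 p i0 σ = m i * ∑ p, s i p * TT b0 p i0 σ := by
        rw [Finset.mul_sum]
        exact Finset.sum_congr rfl fun p _ => mul_assoc _ _ _
      rw [h2]
      ring
    rw [Finset.sum_congr rfl fun i _ => h1 i, Finset.sum_add_distrib, ← Finset.mul_sum,
      Finset.sum_add_distrib, Finset.sum_comm, ← Finset.sum_mul, ← Finset.sum_mul]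
    congr 3
    exact Finset.sum_congr rfl fun p _ => Finset.sum_mul _ _ _
  have hkey : ∀ (σ : P3) (p : Fin 3), σ p = i0 → ∑ k, S k * TT b0 k i0 σ =
      UU b0 σ * (∑ k, S k - 2 * S p) := by
    intro σ p hp
    have h1 : ∀ k, S k * TT b0 k i0 σ = UU b0 σ * (S k - 2 * (if k = p then S k else 0)) := by
      intro k
      rw [TT_UU]
      by_cases hk : k = p
      · subst hk
        rw [if_pos hp, if_pos rfl]
        ring
      · rw [if_neg hk, if_neg fun h' => hk (σ.injective (h'.trans hp.symm))]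
        ring
    rw [Finset.sum_congr rfl fun k _ => h1 k, ← Finset.mul_sum, Finset.sum_sub_distrib,
      ← Finset.mul_sum, Finset.sum_ite_eq' Finset.univ, if_pos (Finset.mem_univ _)]
  have hall : ∀ p, ∑ k, S k - 2 * S p + T = 0 ∧ U * c' = 0 := by
    intro p
    obtain ⟨σ, h1, h2, h3⟩ := exists_even p i0
    obtain ⟨τ, h4, h5, h6⟩ := exists_odd p i0
    have r1 := hrel σ
    have r2 := hrel τ
    rw [hkey σ p h1] at r1
    rw [hkey τ p h4] at r2
    have h7 : n0 * (∑ k, S k - 2 * S p + T) = 0 ∧ U * c' = 0 := by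
      cases b0
      · rw [Bool.not_false] at r1 r2
        rw [h2, h3] at r1
        rw [h5, h6] at r2
        constructor <;> linarith
      · rw [Bool.not_true] at r1 r2
        rw [h2, h3] at r1
        rw [h5, h6] at r2
        constructor <;> linarith
    exact ⟨(mul_eq_zero.1 h7.1).resolve_left hn0, h7.2⟩
  have hsum : ∑ k, S k = S 0 + S 1 + S 2 := Fin.sum_univ_three _
  have k0 := (hall 0).1
  have k1 := (hall 1).1
  have k2 := (hall 2).1
  rw [hsum] at k0 k1 k2
  have e1 : S 1 = S 0 := by omega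
  have e2 : S 2 = S 0 := by omega
  have e3 : T = -S 0 := by omega
  rw [hD, Fin.sum_univ_three, e1, e2, e3, ← smul_add, ← smul_add, hcol, neg_smul, add_neg_cancel,
    zero_add]
  rcases mul_eq_zero.1 (hall 0).2 with h1 | h1
  · rw [h1, zero_smul]
  · rw [hz _ (good_UU _) fun σ => by rw [hc', h1, zero_mul], smul_zero]

end Pool.Agent.R937.PZ
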