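import Pool.Agent.R937.PZ.Orb
import Pool.Agent.R937.PZ.S3O

/-!
# Relations between averages of admissible functions with stabilizers of index six
-/

set_option autoImplicit false
set_option linter.unusedSectionVars false
set_option linter.unusedVariables false

namespace Pool.Agent.R937.PZ

open Pool.Agent.W495.TA (IsSign)
open Pool.Agent.Y137.SF (rst mem_rst)
open Pool.Agent.R937.HZ
open Pool.Agent.R937.CS (av nD nD_pos av_left av_c)
open Pool.Agent.R937.TZ

noncomputable section

variable {G M : Type} [Group G] [Fintype G] [AddCommGroup M] {c : G} {E : Subgroup G}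
  {D : (G → ℤ) → M}

/-- At most one coset belongs to the slope zero. -/
def U1 (E : Subgroup G) (f : G → ℤ) : Prop :=
  ∀ x y, av E f x = nD E → av E f y = nD E → x⁻¹ * y ∈ rst f

/-- The conditions on the functions. -/
structure Adm (c : G) (E : Subgroup G) (T : (G → ℤ) → Prop) : Prop where
  sm : ∀ f, T f → Sm c f
  pair : ∀ f f', T f → T f' → (rst f).index = 6 → (rst f').index = 6 →
    (rst f).normalCore = (rst f').normalCore → ¬ (rst f).Normal →
    (∀ x, av E f x = 0) ∨ (∀ x, av E f' x = 0) ∨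
      (∃ (e : ℤ) (τ : G), (e = 1 ∨ e = -1) ∧ ∀ x, av E f' x = e * av E f (x * τ)) ∨
      (NO E f ∧ NO E f' ∧ ((∃ x, av E f x = nD E) → U1 E f → U1 E f'))

/-- Quadratic characters. -/
theorem char_chi (hcomm : ∀ g, c * g = g * c) (hc2 : c * c = 1) {φ : G → ℤ}
    (h1 : ∀ g, φ g = 1 ∨ φ g = -1) (hm : ∀ g g', φ (g * g') = φ g * φ g') (hφc : φ c = -1) :
    ∃ K : K2 c, φ = chi K.1 := by
  have hφ1 : φ 1 = 1 := by
    have h2 := hm 1 1
    rw [one_mul] at h2
    rcases h1 1 with h | h
    · exact h
    · rw [h] at h2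
      norm_num at h2
  have hs : IsSign c φ := ⟨h1, fun g => by
    change φ (c * g) = -φ g
    rw [hm, hφc, neg_one_mul]⟩
  have hV : VV c hcomm hc2 (rst φ) = ⊤ := by
    rw [eq_top_iff]
    rintro x -
    rcases h1 x with h | h
    · left
      intro g
      rw [hm, h, mul_one]
    · right
      intro g
      rw [hm, hm c x, h, hφc]
      ring
  have h2 := index_VV c hcomm hc2 _ (c_notMem c hs)
  rw [hV, Subgroup.index_top] at h2
  refine ⟨⟨rst φ, h2, c_notMem c hs⟩, ?_⟩
  rcases eq_chi h2 hs with h | h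
  · exact h
  · exfalso
    have h3 := congrFun h 1
    rw [Pi.neg_apply, chi_of_mem (Subgroup.one_mem _), hφ1] at h3
    norm_num at h3

theorem no_of_cl {f : G → ℤ} (hf : IsSign c f) (hi : (rst f).index = 6) (h : CL c E f) :
    NO E f := by
  obtain ⟨K, k, hE, hk, h⟩ := h
  have hpos := nD_pos E
  have key : ∀ e : ℤ, (e = 1 ∨ e = -1) → k ≠ 3 * e := by
    rintro e he rfl
    have h4 : ∀ g, f g = e * chi K.1 g := by
      intro g
      refine eq_of_av (E := E) hf g ?_ ?_
      · rcases he with rfl | rfl <;> rcases chi_sign K.1 g with h5 | h5 <;> rw [h5] <;> norm_num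
      · have := h g
        linarith
    have h5 : K.1 ≤ rst f := fun r hr x => by rw [h4, h4, chi_mul K.2.1, chi_of_mem hr, mul_one]
    have h6 := Subgroup.index_dvd_of_le h5
    rw [hi, K.2.1] at h6
    norm_num at h6
  have h1 := h 1
  rw [chi_of_mem K.1.one_mem] at h1
  have k1 := key 1 (Or.inl rfl)
  have k2 := key (-1) (Or.inr rfl)
  refine ⟨1, ?_, ?_⟩
  · intro h2
    rw [h2] at h1
    rcases hk with h3 | h3 | h3 | h3 <;> rw [h3] at h1 k1 k2 <;> first | omega | exact k1 rfl
  · intro h2
    rw [h2] at h1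
    rcases hk with h3 | h3 | h3 | h3 <;> rw [h3] at h1 k1 k2 <;> first | omega | exact k2 rfl

theorem NO.not_const {f : G → ℤ} (h : NO E f)
    (h' : ∀ x, av E f x = nD E ∨ av E f x = -nD E) : False := by
  obtain ⟨x, h1, h2⟩ := h
  rcases h' x with h3 | h3
  · exact h1 h3
  · exact h2 h3

section decide

theorem TT_mul (b : Bool) (p i : Fin 3) : ∃ σ τ : P3,
    TT b p i (σ * τ) * TT b p i 1 ≠ TT b p i σ * TT b p i τ := by
  revert b p i
  decide

theorem TT_fix (b : Bool) (p k : Fin 3) (σ τ : P3) (h : τ p = p) :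
    TT b p k (σ * τ) = UU b τ * TT b p k σ := by
  revert b p k σ τ
  decide

theorem TT_move (b : Bool) (p k : Fin 3) (τ : P3) (h : τ p ≠ p) :
    (∃ σ, TT b p k (σ * τ) ≠ TT b p k σ) ∧ ∃ σ, TT b p k (σ * τ) ≠ -TT b p k σ := by
  revert b p k τ
  decide

theorem TT_rot (b : Bool) (k i : Fin 3) (σ : P3) : TT b 0 i (σ * rot k) = TT b k i σ := by
  revert b k i σ
  decide

theorem UU_mul (b : Bool) (σ τ : P3) : UU b (σ * τ) = UU b σ * UU b τ := by
  revert b σ τ
  decide

theorem fix_all (τ : P3) (h : ∀ p, τ p = p) : τ = 1 := Equiv.ext h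

theorem UU_ee (b : Bool) : UU b 1 = 1 := by
  revert b
  decide

theorem supp_ne (p' p'' q : Fin 3) : ¬ ∀ σ : P3, (σ p' ≠ q ↔ σ p'' = q) := by
  revert p' p'' q
  decide

end decide

theorem ord_abs' {v e a : ℤ} (n0 : ℤ) (hv : v = 1 ∨ v = -1) (he : e = 1 ∨ e = -1)
    (h : a = n0 ∨ a = -n0) : v * (e * a) = n0 ∨ v * (e * a) = -n0 := by
  rcases hv with rfl | rfl <;> rcases he with rfl | rfl <;> rcases h with rfl | rfl <;> simp

variable (hcomm : ∀ g, c * g = g * c) (hc2 : c * c = 1)

include hcomm hc2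

/-- The case of the symmetric group. -/
theorem rl_s3P {T : (G → ℤ) → Prop} (hT : Adm c E T) {B0 : Subgroup G} (hB0 : B0.index = 3)
    (hne : ¬ B0 ≤ B0.normalCore)
    (hH : Hyp1 c E D) {f1 : G → ℤ} (hf1 : Mem hcomm hc2 B0.normalCore f1)
    (hinv : ∀ b, b ∈ StL B0.normalCore (lab B0.normalCore f1)) :
    RlA E D fun f => (Mem hcomm hc2 B0.normalCore f ∧ (CL c E f ∨ T f)) ∧
      lab B0.normalCore f = lab B0.normalCore f1 := by
  classical
  obtain ⟨θ, hθ, hker, hidx⟩ := exists_theta B0 hB0 hne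
  obtain ⟨V, hV1, hVm, hVc, hVA⟩ := exists_char hcomm hc2 hf1.1 hf1.2.1 hinv (by
    rcases hf1.2.2 with h | h <;> rw [h]
    · exact odd_one
    · exact ⟨1, rfl⟩)
  have hVsq : ∀ g, V g * V g = 1 := fun g => by
    rcases hV1 g with h | h <;> rw [h] <;> norm_num
  have hcB : c ∈ B0.normalCore := by
    intro b
    rw [← hcomm, mul_inv_cancel_right]
    exact c_mem_of_index_three c hcomm hc2 B0 hB0
  have hθc : θ c = 1 := (hker c).2 hcB
  have hV1' : V 1 = 1 := by
    have h1 := hVm 1 1
    rw [one_mul] at h1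
    rcases hV1 1 with h | h
    · exact h
    · rw [h] at h1
      norm_num at h1
  have hsm : ∀ F, Good F → Sm c fun g => V g * F (θ g) := by
    rintro F ⟨hF1, b, p, hF2⟩
    have hs : IsSign c fun g => V g * F (θ g) := by
      refine ⟨fun g => ?_, fun g => ?_⟩
      · rcases hV1 g with h | h <;> rcases hF1 (θ g) with h' | h' <;> rw [h, h'] <;> norm_num
      · change V (c * g) * F (θ (c * g)) = -(V g * F (θ g))
        rw [hVm, hVc, map_mul, hθc, one_mul]
        ring
    refine ⟨hs, ?_⟩
    have h1 : ∀ x : G, (∃ e : ℤ, (e = 1 ∨ e = -1) ∧ ∀ g, V (g * x) * F (θ (g * x)) =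
        e * (V g * F (θ g))) → x ∈ VV c hcomm hc2 (rst fun g => V g * F (θ g)) := by
      rintro x ⟨e, rfl | rfl, he⟩
      · left
        intro g
        change V (g * x) * F (θ (g * x)) = V g * F (θ g)
        rw [he, one_mul]
      · right
        intro g
        change V (g * (c * x)) * F (θ (g * (c * x))) = V g * F (θ g)
        have e1 : g * (c * x) = c * (g * x) := by rw [← mul_assoc, ← hcomm, mul_assoc]
        rw [e1, hVm, hVc, map_mul θ c, hθc, one_mul, neg_one_mul, neg_mul, he]
        ring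
    have h2 : (Subgroup.zpowers (sw p)).comap θ ≤ VV c hcomm hc2 (rst fun g => V g * F (θ g)) := by
      intro x hx
      have h3 : θ x = 1 ∨ θ x = sw p := by
        obtain ⟨k, hk⟩ := Subgroup.mem_zpowers_iff.1 (Subgroup.mem_comap.1 hx)
        rcases Int.even_or_odd k with hk' | hk'
        · left
          obtain ⟨l, rfl⟩ := hk'
          rw [← hk, ← two_mul, zpow_mul, zpow_two, sw_sq, one_zpow]
        · right
          obtain ⟨l, rfl⟩ := hk'
          rw [← hk, zpow_add_one, zpow_mul, zpow_two, sw_sq, one_zpow, one_mul]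
      rcases h3 with h3 | h3
      · exact h1 x ⟨V x, hV1 x, fun g => by
          rw [hVm, map_mul, h3, mul_one]
          ring⟩
      · refine h1 x ⟨V x * (if b then -1 else 1), ?_, fun g => ?_⟩
        · rcases hV1 x with h | h <;> rw [h] <;> cases b <;> simp
        · rw [hVm, map_mul, h3, hF2]
          ring
    have h3 : ((Subgroup.zpowers (sw p)).comap θ).index = 3 := by
      rw [Subgroup.index_comap_of_surjective _ hθ]
      have h4 := Subgroup.index_mul_card (Subgroup.zpowers (sw p))
      have h5 : Nat.card (Subgroup.zpowers (sw p)) = 2 := by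
        rw [Nat.card_zpowers]
        exact orderOf_eq_prime (by rw [pow_two, sw_sq]) (sw_ne p)
      have h6 : Nat.card P3 = 6 := by
        rw [Nat.card_eq_fintype_card]
        rfl
      rw [h5, h6] at h4
      omega
    have h5 := Subgroup.index_dvd_of_le h2
    rw [h3] at h5
    have h6 := Nat.le_of_dvd (by norm_num) h5
    rw [index_VV c hcomm hc2 _ (c_notMem c hs)]
    omega
  let s : P3 → G := Function.surjInv hθ
  have hs : ∀ σ, θ (s σ) = σ := fun σ => Function.surjInv_eq hθ σ
  let T' : (G → ℤ) → P3 → ℤ := fun f σ => V (s σ) * f (s σ)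
  have hT' : ∀ f, (Mem hcomm hc2 B0.normalCore f ∧ lab B0.normalCore f = lab B0.normalCore f1) →
      ∀ g, T' f (θ g) = V g * f g := by
    rintro f ⟨hf, hl⟩ g
    have h1 : g⁻¹ * s (θ g) ∈ B0.normalCore := by
      rw [← hker, map_mul, hs, map_inv, inv_mul_cancel]
    have h2 : s (θ g) = g * (g⁻¹ * s (θ g)) := by group
    change V (s (θ g)) * f (s (θ g)) = _
    rw [h2, hVm, semi hcomm hc2 hf.1 (hf.2.1 h1)]
    have h3 := hVA ⟨_, h1⟩
    rw [← hl] at h3
    change V (g⁻¹ * s (θ g)) = f 1 * f (g⁻¹ * s (θ g)) at h3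
    rw [← h3]
    linear_combination (V g * f g) * hVsq (g⁻¹ * s (θ g))
  have hg : ∀ f, (Mem hcomm hc2 B0.normalCore f ∧ lab B0.normalCore f = lab B0.normalCore f1) →
      Good (T' f) := by
    rintro f hf
    refine ⟨fun σ => ?_, ?_⟩
    · obtain ⟨g, rfl⟩ := hθ σ
      rw [hT' f hf]
      rcases hV1 g with h | h <;> rcases hf.1.1.sign g with h' | h' <;> rw [h, h'] <;> norm_num
    · obtain ⟨t, htB, htA, htt⟩ := exists_t hidx hf.1.2.2 hf.1.2.1
      obtain ⟨p, hp⟩ := inv_three (θ t) (by rw [← map_mul]; exact (hker _).2 htt)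
        (fun h => htA ((hker t).1 h))
      have h1 : ∀ σ, T' f (σ * sw p) = (V t * (f 1 * f t)) * T' f σ := by
        intro σ
        obtain ⟨g, rfl⟩ := hθ σ
        rw [← hp, ← map_mul, hT' f hf, hT' f hf, hVm, semi hcomm hc2 hf.1.1 htB]
        ring
      have h2 : V t * (f 1 * f t) = 1 ∨ V t * (f 1 * f t) = -1 := by
        rcases hV1 t with h | h <;> rcases hf.1.1.sign 1 with h' | h' <;>
          rcases hf.1.1.sign t with h'' | h'' <;> rw [h, h', h''] <;> norm_num
      rcases h2 with h2 | h2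
      · exact ⟨false, p, fun σ => by rw [h1, h2]; simp⟩
      · exact ⟨true, p, fun σ => by rw [h1, h2]; simp⟩
  have hback : ∀ f, (Mem hcomm hc2 B0.normalCore f ∧ lab B0.normalCore f = lab B0.normalCore f1) →
      (fun g => V g * T' f (θ g)) = f := by
    intro f hf
    funext g
    rw [hT' f hf]
    linear_combination (f g) * hVsq g
  -- the characters
  have hφ : ∀ b, ∃ K : K2 c, (fun g => V g * UU b (θ g)) = chi K.1 := by
    intro b
    refine char_chi hcomm hc2 (fun g => ?_) (fun g g' => ?_) ?_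
    · rcases hV1 g with h | h <;> rcases UU_sign b (θ g) with h' | h' <;> rw [h, h'] <;> norm_num
    · rw [hVm, map_mul, UU_mul]
      ring
    · rw [hVc, hθc, UU_ee]
      ring
  have hpos := nD_pos E
  -- functions that do not belong to characters
  have hidx6 : ∀ f, (Mem hcomm hc2 B0.normalCore f ∧ lab B0.normalCore f = lab B0.normalCore f1) →
      ∀ b p i, (T' f = TT b p i ∨ T' f = -TT b p i) → (rst f).index = 6 := by
    intro f hf b p i h
    have h1 := index_VV c hcomm hc2 _ (c_notMem c hf.1.1)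
    rcases hf.1.2.2 with h2 | h2
    · exfalso
      rw [Subgroup.index_eq_one] at h2
      have h3 : ∀ g g', f (g * g') * f 1 = f g * f g' := by
        intro g g'
        have h4 : g' ∈ VV c hcomm hc2 (rst f) := by rw [h2]; exact Subgroup.mem_top _
        rw [semi hcomm hc2 hf.1.1 h4 g]
        linear_combination (f g * f g') * one_sq hf.1.1 1
      have h4 : ∀ σ τ, T' f (σ * τ) * T' f 1 = T' f σ * T' f τ := by
        intro σ τ
        obtain ⟨g, rfl⟩ := hθ σ
        obtain ⟨g', rfl⟩ := hθ τ
        have h5 : T' f 1 = V 1 * f 1 := by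
          rw [← map_one θ]
          exact hT' f hf 1
        rw [← map_mul, hT' f hf, hT' f hf, hT' f hf, h5, hVm, hV1']
        linear_combination (V g * V g') * h3 g g'
      obtain ⟨σ, τ, h5⟩ := TT_mul b p i
      apply h5
      have h6 := h4 σ τ
      rcases h with h | h
      · rwa [h] at h6
      · rw [h] at h6
        simp only [Pi.neg_apply, neg_mul_neg] at h6
        exact h6
    · omega
  -- the normal cores
  have hcore : ∀ (f' : G → ℤ) (b : Bool) (p k : Fin 3) (e : ℤ), (e = 1 ∨ e = -1) →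
      (∀ g, f' g = V g * (e * TT b p k (θ g))) → ∀ x, x ∈ (rst f').normalCore ↔
        θ x = 1 ∧ V x = 1 := by
    intro f' b p k e he hf' x
    have h7 : e * e = 1 := by rcases he with h | h <;> rw [h] <;> norm_num
    have hfix : ∀ y ∈ rst f', θ y p = p := by
      intro y hy
      by_contra h2
      obtain ⟨⟨σ, h3⟩, ⟨σ', h4⟩⟩ := TT_move b p k _ h2
      have h5 : ∀ σ, V y * TT b p k (σ * θ y) = TT b p k σ := by
        intro σ
        obtain ⟨g, rfl⟩ := hθ σ
        have h6 := hy g
        rw [hf', hf', map_mul, hVm] at h6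
        have h8 := hVsq g
        linear_combination (V g * e) * h6 -
          (V y * TT b p k (θ g * θ y) - TT b p k (θ g)) * (h8 * e * e + h7)
      rcases hV1 y with h6 | h6
      · exact h3 (by have := h5 σ; rw [h6, one_mul] at this; exact this)
      · exact h4 (by have := h5 σ'; rw [h6] at this; linarith)
    constructor
    · intro hx
      have h1 : θ x = 1 := by
        refine fix_all _ fun r => ?_
        obtain ⟨g, hg'⟩ := hθ (Equiv.swap r p)
        have h2 := hfix _ (hx g)
        rw [map_mul, map_mul, map_inv, hg', Equiv.Perm.mul_apply, Equiv.Perm.mul_apply,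
          Equiv.swap_inv, Equiv.swap_apply_right] at h2
        have h3 := congrArg (Equiv.swap r p) h2
        rw [Equiv.swap_apply_self, Equiv.swap_apply_right] at h3
        exact h3
      refine ⟨h1, ?_⟩
      have h2 := hx 1
      rw [one_mul, inv_one, mul_one] at h2
      have h3 := h2 1
      rw [one_mul, hf', hf', h1, map_one, hV1'] at h3
      rcases TT_sign b p k 1 with h4 | h4 <;> rcases he with h5 | h5 <;> rw [h4, h5] at h3 <;>
        linarith
    · rintro ⟨h1, h2⟩ g y
      have h3 : θ (g * x * g⁻¹) = 1 := by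
        rw [map_mul, map_mul, h1, mul_one, ← map_mul, mul_inv_cancel, map_one]
      have h4 : V (g * x * g⁻¹) = 1 := by
        rw [hVm, hVm, h2, mul_one, ← hVm, mul_inv_cancel, hV1']
      rw [hf', hf', hVm, map_mul, h3, h4, mul_one, mul_one]
  -- the members of index six
  have h6T : ∀ f, (Mem hcomm hc2 B0.normalCore f ∧ lab B0.normalCore f = lab B0.normalCore f1) →
      (rst f).index = 6 → ∃ (b : Bool) (p k : Fin 3) (e : ℤ), (e = 1 ∨ e = -1) ∧
        (∀ σ, T' f σ = e * TT b p k σ) ∧ ∀ g, f g = V g * (e * TT b p k (θ g)) := by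
    intro f hf h6
    have hfT : ∀ (b : Bool) (p k : Fin 3) (e : ℤ), (∀ σ, T' f σ = e * TT b p k σ) →
        ∀ g, f g = V g * (e * TT b p k (θ g)) := by
      intro b p k e h g
      rw [← h, hT' _ hf]
      linear_combination (-(f g)) * hVsq g
    have hno : ∀ (b : Bool) (e : ℤ), (∀ σ, T' f σ = e * UU b σ) → False := by
      intro b e h
      obtain ⟨K, hK⟩ := hφ b
      have h1 : ∀ g, f g = e * chi K.1 g := by
        intro g
        rw [← hK]
        have h2 := hT' _ hf g
        rw [h] at h2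
        beta_reduce
        linear_combination (-(f g)) * hVsq g - V g * h2
      have h5 : K.1 ≤ rst f := fun r hr x => by rw [h1, h1, chi_mul K.2.1, chi_of_mem hr, mul_one]
      have h7 := Subgroup.index_dvd_of_le h5
      rw [h6, K.2.1] at h7
      norm_num at h7
    rcases good_cases (hg f hf) with ⟨b, h | h⟩ | ⟨b, p, k, h | h⟩
    · exact absurd (fun σ => by rw [h, one_mul]) (hno b 1)
    · exact absurd (fun σ => by rw [h, Pi.neg_apply, neg_one_mul]) (hno b (-1))
    · have h1 : ∀ σ, T' f σ = 1 * TT b p k σ := fun σ => by rw [h, one_mul]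
      exact ⟨b, p, k, 1, Or.inl rfl, h1, hfT b p k 1 h1⟩
    · have h1 : ∀ σ, T' f σ = -1 * TT b p k σ := fun σ => by
        rw [h, Pi.neg_apply, neg_one_mul]
      exact ⟨b, p, k, -1, Or.inr rfl, h1, hfT b p k (-1) h1⟩
  have hnn : ∀ f, (Mem hcomm hc2 B0.normalCore f ∧ lab B0.normalCore f = lab B0.normalCore f1) →
      (rst f).index = 6 → ¬ (rst f).Normal := by
    intro f hf h6 hN
    obtain ⟨b, p, k, e, he, -, h1⟩ := h6T f hf h6
    have h2 : (rst f).normalCore = rst f := Subgroup.normalCore_eq_self _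
    have h3 : rst f ≤ B0.normalCore := by
      intro x hx
      rw [← h2, hcore f b p k e he h1] at hx
      exact (hker x).1 hx.1
    have h4 := Subgroup.relIndex_mul_index h3
    rw [hidx, h6] at h4
    have h5 : (rst f).relIndex B0.normalCore = 1 := by omega
    exact c_notMem c hf.1.1 (Subgroup.relIndex_eq_one.1 h5 hcB)
  have hpair : ∀ f f', (Mem hcomm hc2 B0.normalCore f ∧ lab B0.normalCore f = lab B0.normalCore f1) →
      (Mem hcomm hc2 B0.normalCore f' ∧ lab B0.normalCore f' = lab B0.normalCore f1) →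
      T f → T f' → (rst f).index = 6 → (rst f').index = 6 →
      (∀ x, av E f x = 0) ∨ (∀ x, av E f' x = 0) ∨
      (∃ (e : ℤ) (τ : G), (e = 1 ∨ e = -1) ∧ ∀ x, av E f' x = e * av E f (x * τ)) ∨
      (NO E f ∧ NO E f' ∧ ((∃ x, av E f x = nD E) → U1 E f → U1 E f')) := by
    intro f f' hf hf' hTf hTf' h6 h6'
    refine hT.pair f f' hTf hTf' h6 h6' ?_ (hnn f hf h6)
    obtain ⟨b, p, k, e, he, -, h1⟩ := h6T f hf h6
    obtain ⟨b', p', k', e', he', -, h1'⟩ := h6T f' hf' h6'
    ext x
    rw [hcore _ _ _ _ e he h1, hcore _ _ _ _ e' he' h1']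
  intro ι _ m f hf hr
  have hfm : ∀ i, Mem hcomm hc2 B0.normalCore (f i) ∧
      lab B0.normalCore (f i) = lab B0.normalCore f1 := fun i => ⟨(hf i).1.1, (hf i).2⟩
  have hD : ∑ i, m i • D (f i) = ∑ i, m i • D fun g => V g * T' (f i) (θ g) :=
    Finset.sum_congr rfl fun i _ => by rw [hback _ (hfm i)]
  rw [hD]
  rcases exists_wgt (E := E) θ V hV1 hVm with h0 | ⟨w, n, hwn, hn, hav⟩
  · refine Finset.sum_eq_zero fun i _ => ?_
    rw [hH.zero _ (hsm _ (hg _ (hfm i))) (h0 _), smul_zero]
  have havT' : ∀ f, (Mem hcomm hc2 B0.normalCore f ∧ lab B0.normalCore f = lab B0.normalCore f1) →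
      ∀ g, av E f g = n * (V g * aw w (T' f) (θ g)) := by
    intro f hf g
    conv_lhs => rw [← hback _ hf]
    exact hav _ g
  have havT : ∀ i g, av E (f i) g = n * (V g * aw w (T' (f i)) (θ g)) := fun i g =>
    havT' _ (hfm i) g
  have hrw : ∀ σ, ∑ i, m i * aw w (T' (f i)) σ = 0 := by
    intro σ
    obtain ⟨g, rfl⟩ := hθ σ
    have h2 := hr g
    have h4 : n * V g * ∑ i, m i * aw w (T' (f i)) (θ g) = 0 := by
      rw [← h2, Finset.mul_sum]
      refine Finset.sum_congr rfl fun i _ => ?_
      rw [havT]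
      ring
    refine (mul_eq_zero.1 h4).resolve_left (mul_ne_zero hn ?_)
    rcases hV1 g with h | h <;> rw [h] <;> norm_num
  have hnegD : ∀ F, Good F → (fun F : P3 → ℤ => D fun g => V g * F (θ g)) (-F) =
      -(fun F : P3 → ℤ => D fun g => V g * F (θ g)) F := by
    intro F hF
    have h2 := hH.neg _ (hsm F hF)
    beta_reduce
    rw [← h2]
    congr 1
    funext g
    rw [Pi.neg_apply, Pi.neg_apply, mul_neg]
  have hweilD : ∀ (b : Bool) (i : Fin 3), (fun F : P3 → ℤ => D fun g => V g * F (θ g)) (TT b 0 i) +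
      (fun F : P3 → ℤ => D fun g => V g * F (θ g)) (TT b 1 i) +
      (fun F : P3 → ℤ => D fun g => V g * F (θ g)) (TT b 2 i) =
        (fun F : P3 → ℤ => D fun g => V g * F (θ g)) (UU b) := by
    intro b i
    obtain ⟨K, hK⟩ := hφ b
    have h1 : ∀ k : Fin 3, ∃ h : G, θ h = rot k ∧ V h = 1 := by
      intro k
      obtain ⟨h, hh⟩ := hθ (rot k)
      rcases hV1 h with h2 | h2
      · exact ⟨h, hh, h2⟩
      · exact ⟨c * h, by rw [map_mul, hθc, one_mul, hh], by rw [hVm, hVc, h2]; norm_num⟩
    choose h hh hVh using h1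
    have h2 : ∀ k, (fun x => V (x * h k) * TT b 0 i (θ (x * h k))) =
        fun x => V x * TT b k i (θ x) := by
      intro k
      funext x
      rw [hVm, hVh, mul_one, map_mul, hh, TT_rot]
    have h3 := hH.weil K (fun x => V x * TT b 0 i (θ x)) h (hsm _ (good_TT _ _ _)) fun x => by
      have h4 : ∀ k, V (x * h k) * TT b 0 i (θ (x * h k)) = V x * TT b k i (θ x) :=
        fun k => congrFun (h2 k) x
      beta_reduce
      rw [Finset.sum_congr rfl fun k _ => h4 k, ← Finset.mul_sum, Fin.sum_univ_three,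
        rel_col, ← hK]
    beta_reduce at h3
    rw [Fin.sum_univ_three, h2 0, h2 1, h2 2, ← hK] at h3
    exact h3
  have hzeroD : ∀ F, Good F → (∀ σ, aw w F σ = 0) →
      (fun F : P3 → ℤ => D fun g => V g * F (θ g)) F = 0 := fun F hF hF0 =>
    hH.zero _ (hsm F hF) fun g => by
      rw [hav, hF0, mul_zero, mul_zero]
  by_cases hO : ∃ f0, (Mem hcomm hc2 B0.normalCore f0 ∧
      lab B0.normalCore f0 = lab B0.normalCore f1) ∧ T f0 ∧ (rst f0).index = 6 ∧ ¬ NO E f0
  · -- there is an ordinary function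
    obtain ⟨f0, hf0, hTf0, h60, hno0⟩ := hO
    obtain ⟨b0, p0, i0, e0, he0, hT0, -⟩ := h6T f0 hf0 h60
    have hord0 : ∀ x, av E f0 x = nD E * f0 x := by
      intro x
      have h1 : av E f0 x = nD E ∨ av E f0 x = -nD E := by
        by_contra hcon
        push Not at hcon
        exact hno0 ⟨x, hcon.1, hcon.2⟩
      rcases h1 with h1 | h1
      · rw [eq_of_av (E := E) hf0.1.1 x (e := 1) (Or.inl rfl) (by rw [h1]; ring)]
        rw [h1, mul_one]
      · rw [eq_of_av (E := E) hf0.1.1 x (e := -1) (Or.inr rfl) (by rw [h1]; ring)]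
        rw [h1]
        ring
    have hne0 : ∀ x, av E f0 x ≠ 0 := by
      intro x h
      rw [hord0] at h
      rcases mul_eq_zero.1 h with h1 | h1
      · exact hpos.ne' h1
      · rcases hf0.1.1.sign x with h2 | h2 <;> rw [h2] at h1 <;> norm_num at h1
    have hawT : ∀ σ, n * aw w (TT b0 p0 i0) σ = nD E * TT b0 p0 i0 σ := by
      intro σ
      obtain ⟨g, rfl⟩ := hθ σ
      have h1 := havT' f0 hf0 g
      rw [hord0] at h1
      have h2 : T' f0 = fun ρ => e0 * TT b0 p0 i0 ρ := funext hT0
      have h3 := hT' f0 hf0 g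
      rw [hT0] at h3
      rw [h2, aw_mul w (TT b0 p0 i0)] at h1
      have h4 : e0 * e0 = 1 := by rcases he0 with h | h <;> rw [h] <;> norm_num
      linear_combination (-(V g * e0)) * h1 - nD E * e0 * h3 -
        (n * aw w (TT b0 p0 i0) (θ g)) * (h4 + e0 * e0 * (hVsq g)) +
        (nD E * TT b0 p0 i0 (θ g)) * h4
    set n0 : ℤ := aw w (TT b0 p0 i0) 1 * TT b0 p0 i0 1 with hn0def
    have hnn0 : n * n0 = nD E := by
      rw [hn0def]
      linear_combination (TT b0 p0 i0 1) * hawT 1 + nD E * TT_sq b0 p0 i0 1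
    have hn0 : n0 ≠ 0 := by
      intro h
      rw [h, mul_zero] at hnn0
      exact hpos.ne hnn0
    have hordw : ∀ σ, aw w (TT b0 p0 i0) σ = n0 * TT b0 p0 i0 σ := by
      intro σ
      refine mul_left_cancel₀ hn ?_
      rw [hawT, ← mul_assoc, hnn0]
    refine rl_goodO (w := w) (fun F => D fun g => V g * F (θ g)) hnegD hweilD hzeroD m
      (fun i => T' (f i)) (fun i => hg _ (hfm i)) hn0 hordw (fun i => ?_) hrw
    rcases good_cases (hg _ (hfm i)) with ⟨b, h1⟩ | ⟨b, p, k, h1⟩
    · exact Or.inl ⟨b, h1⟩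
    right
    have hi6 := hidx6 _ (hfm i) b p k h1
    obtain ⟨e, he, hie⟩ : ∃ e : ℤ, (e = 1 ∨ e = -1) ∧ ∀ σ, T' (f i) σ = e * TT b p k σ := by
      rcases h1 with h | h
      · exact ⟨1, Or.inl rfl, fun σ => by rw [h, one_mul]⟩
      · exact ⟨-1, Or.inr rfl, fun σ => by rw [h, Pi.neg_apply, neg_one_mul]⟩
    have hie' : T' (f i) = fun ρ => e * TT b p k ρ := funext hie
    rcases (hf i).1.2 with hcl | hTf
    · -- a function that belongs to a character
      exfalso
      have hnz : ∀ g, av E (f i) g ≠ 0 := by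
        obtain ⟨K', k0, -, hk0, h⟩ := hcl
        intro g h0
        have h2 := h g
        rw [h0] at h2
        rcases hk0 with rfl | rfl | rfl | rfl <;> rcases chi_sign K'.1 g with h3 | h3 <;>
          rw [h3] at h2 <;> omega
      have hwz : ∀ σ, aw w (TT b p k) σ ≠ 0 := by
        intro σ h0
        obtain ⟨g, rfl⟩ := hθ σ
        apply hnz g
        rw [havT, hie', aw_mul w (TT b p k), h0]
        ring
      refine (no_of_cl (hfm i).1.1 hi6 hcl).not_const fun x => ?_
      rw [havT, hie', aw_mul w (TT b p k)]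
      rcases ord_abs' n0 (hV1 x) he (ord_abs hwn hn0 hordw hwz (θ x)) with h2 | h2
      · left
        rw [h2, hnn0]
      · right
        rw [h2, mul_neg, hnn0]
    · rcases hpair f0 (f i) hf0 (hfm i) hTf0 hTf h60 hi6 with h2 | h2 | ⟨e1, τ, he1, h2⟩ | h2
      · exact absurd (h2 1) (hne0 1)
      · left
        intro σ
        obtain ⟨g, rfl⟩ := hθ σ
        have h3 := h2 g
        rw [havT] at h3
        refine ((mul_eq_zero.1 ((mul_eq_zero.1 h3).resolve_left hn))).resolve_left ?_
        rcases hV1 g with h | h <;> rw [h] <;> norm_num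
      · right
        have h3 : ∀ x, f i x = e1 * f0 (x * τ) := by
          intro x
          have h4 := h2 x
          rw [hord0] at h4
          refine eq_of_av (E := E) (hfm i).1.1 x ?_ ?_
          · rcases he1 with h | h <;> rcases hf0.1.1.sign (x * τ) with h' | h' <;>
              rw [h, h'] <;> norm_num
          · rw [h4]
            ring
        have h4 : ∀ σ, T' (f i) σ = (e1 * V τ * e0 * UU b0 (θ τ)) * TT b0 (θ τ p0) i0 σ := by
          intro σ
          obtain ⟨g, rfl⟩ := hθ σ
          have h5 := hT' f0 hf0 (g * τ)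
          rw [hT0, map_mul, TT_shift, hVm] at h5
          rw [hT' _ (hfm i), h3]
          linear_combination (-(e1 * V τ)) * h5 - (e1 * f0 (g * τ) * V g) * hVsq τ
        have h5 : e1 * V τ * e0 * UU b0 (θ τ) = 1 ∨ e1 * V τ * e0 * UU b0 (θ τ) = -1 := by
          rcases he1 with h | h <;> rcases hV1 τ with h' | h' <;> rcases he0 with h'' | h'' <;>
            rcases UU_sign b0 (θ τ) with hu | hu <;> rw [h, h', h'', hu] <;> norm_num
        refine ⟨θ τ p0, ?_⟩
        rcases h5 with h5 | h5
        · exact Or.inl (funext fun σ => by rw [h4, h5, one_mul])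
        · exact Or.inr (funext fun σ => by rw [h4, h5, Pi.neg_apply, neg_one_mul])
      · exact absurd h2.1 hno0
  push Not at hO
  have hno : ∀ i, (rst (f i)).index = 6 → NO E (f i) := by
    intro i hi
    rcases (hf i).1.2 with h | h
    · exact no_of_cl (hfm i).1.1 hi h
    · exact hO _ (hfm i) h hi
  refine rl_goodP hwn (fun F => D fun g => V g * F (θ g)) (fun F hF => ?_) (fun b i => ?_)
    (fun F F' hF hF' hFF => hH.cg _ _ (hsm F hF) (hsm F' hF') fun g => by
      rw [hav, hav, hFF])
    (fun F hF hF0 => hH.zero _ (hsm F hF) fun g => by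
      rw [hav, hF0, mul_zero, mul_zero]) m (fun i => T' (f i)) (fun i => hg _ (hfm i))
    (fun i => ?_) (fun b q hwq => ?_) (fun σ => ?_)
  · exact hnegD F hF
  · exact hweilD b i
  · -- the functions are not ordinary
    rcases good_cases (hg _ (hfm i)) with ⟨b, h1⟩ | ⟨b, p, k, h1⟩
    · exact Or.inl ⟨b, h1⟩
    · right
      rintro b' ⟨σ0, hσ0⟩
      by_contra hcon
      push Not at hcon
      have hi6 := hidx6 _ (hfm i) b p k h1
      refine (hno i hi6).not_const fun x => ?_
      obtain ⟨K, hK⟩ := hφ b'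
      have hE : E ≤ K.1 := by
        by_contra hE
        obtain ⟨g0, rfl⟩ := hθ σ0
        have h2 := (av_chi K.2.1 g0).2 hE
        rw [← hK, hav] at h2
        rcases mul_eq_zero.1 h2 with h3 | h3
        · exact hn h3
        · rcases mul_eq_zero.1 h3 with h4 | h4
          · rcases hV1 g0 with h5 | h5 <;> rw [h5] at h4 <;> norm_num at h4
          · exact hσ0 h4
      have h2 : n * (V x * aw w (UU b') (θ x)) = nD E * chi K.1 x := by
        rw [← hav, hK]
        exact (av_chi K.2.1 x).1 hE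
      have h3 : aw w (T' (f i)) (θ x) = aw w (UU b') (θ x) ∨
          aw w (T' (f i)) (θ x) = -aw w (UU b') (θ x) := by
        by_cases h : aw w (T' (f i)) (θ x) = aw w (UU b') (θ x)
        · exact Or.inl h
        · exact Or.inr (hcon (θ x) h)
      rw [havT]
      have h6 : n * (V x * -aw w (UU b') (θ x)) = -(n * (V x * aw w (UU b') (θ x))) := by ring
      rcases h3 with h3 | h3 <;> rcases chi_sign K.1 x with h4 | h4 <;>
        rw [h4] at h2 <;> rw [h3]
      · left; linarith
      · right; linarith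
      · right; rw [h6]; linarith
      · left; rw [h6]; linarith
  · -- the two kinds of functions
    by_contra hcon
    push Not at hcon
    obtain ⟨⟨i, p, k, hk, hi⟩, ⟨j, p', k', hk', hj⟩⟩ := hcon
    obtain ⟨K, hK⟩ := hφ b
    -- the number of elements
    have hE : E ≤ K.1 := by
      by_contra hE
      have h2 := (av_chi K.2.1 1).2 hE
      rw [← hK, hav, hwq, ApU, map_one, hV1', UU_ee] at h2
      omega
    have hn2 : nD E = 2 * n := by
      have h2 := (av_chi K.2.1 1).1 hE
      rw [chi_of_mem K.1.one_mem, ← hK, hav, hwq, ApU, map_one, hV1', UU_ee] at h2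
      linarith
    have hKg : ∀ g, V g * UU b (θ g) = chi K.1 g := fun g => congrFun hK g
    have hchc : ∀ g, chi K.1 (c * g) = -chi K.1 g := fun g => by
      rw [chi_mul K.2.1, chi_of_notMem K.2.2, neg_one_mul]
    -- the first function
    have hi6 := hidx6 _ (hfm i) b p k hi
    have hj6 := hidx6 _ (hfm j) (!b) p' k' hj
    obtain ⟨e, he, hie⟩ : ∃ e : ℤ, (e = 1 ∨ e = -1) ∧ ∀ σ, T' (f i) σ = e * TT b p k σ := by
      rcases hi with h | h
      · exact ⟨1, Or.inl rfl, fun σ => by rw [h, one_mul]⟩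
      · exact ⟨-1, Or.inr rfl, fun σ => by rw [h, Pi.neg_apply, neg_one_mul]⟩
    obtain ⟨e', he', hje⟩ : ∃ e : ℤ, (e = 1 ∨ e = -1) ∧
        ∀ σ, T' (f j) σ = e * TT (!b) p' k' σ := by
      rcases hj with h | h
      · exact ⟨1, Or.inl rfl, fun σ => by rw [h, one_mul]⟩
      · exact ⟨-1, Or.inr rfl, fun σ => by rw [h, Pi.neg_apply, neg_one_mul]⟩
    have hApe : ∀ (a : ℤ) (F F' : P3 → ℤ), (∀ σ, F σ = a * F' σ) → ∀ σ,
        Ap q (ee b) F σ = a * Ap q (ee b) F' σ := by
      intro a F F' h σ
      unfold Ap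
      rw [h, h]
      ring
    have hia : ∀ g, av E (f i) g = nD E * (e * chi K.1 g * if θ g p = q then 1 else 0) := by
      intro g
      rw [havT, hwq, hApe e _ _ hie, ApS b q p k _ hk, hn2, ← hKg]
      ring
    have hex : ∃ x, av E (f i) x = nD E := by
      obtain ⟨g, hg'⟩ := hθ (Equiv.swap p q)
      have h1 : θ g p = q := by rw [hg', Equiv.swap_apply_left]
      have h2 : θ (c * g) p = q := by rw [map_mul, hθc, one_mul, h1]
      rcases he with rfl | rfl <;> rcases chi_sign K.1 g with h3 | h3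
      · exact ⟨g, by rw [hia, h3, if_pos h1]; ring⟩
      · exact ⟨c * g, by rw [hia, hchc, h3, if_pos h2]; ring⟩
      · exact ⟨c * g, by rw [hia, hchc, h3, if_pos h2]; ring⟩
      · exact ⟨g, by rw [hia, h3, if_pos h1]; ring⟩
    have hfi : ∀ g, f i g = V g * (e * TT b p k (θ g)) := by
      intro g
      rw [← hie, hT' _ (hfm i)]
      linear_combination (-(f i g)) * hVsq g
    have hfj : ∀ g, f j g = V g * (e' * TT (!b) p' k' (θ g)) := by
      intro g
      rw [← hje, hT' _ (hfm j)]
      linear_combination (-(f j g)) * hVsq g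
    have hU1 : U1 E (f i) := by
      intro x y hx hy
      have key : ∀ g, av E (f i) g = nD E → θ g p = q ∧ e * chi K.1 g = 1 := by
        intro g h
        rw [hia] at h
        by_cases h1 : θ g p = q
        · rw [if_pos h1, mul_one] at h
          refine ⟨h1, ?_⟩
          have h2 : nD E * (e * chi K.1 g) = nD E * 1 := by rw [h, mul_one]
          exact mul_left_cancel₀ hpos.ne' h2
        · rw [if_neg h1] at h
          exfalso
          rw [mul_zero, mul_zero] at h
          exact hpos.ne h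
      obtain ⟨x1, x2⟩ := key x hx
      obtain ⟨y1, y2⟩ := key y hy
      have h1 : θ (x⁻¹ * y) p = p := by
        rw [map_mul, map_inv, Equiv.Perm.mul_apply, y1, Equiv.Perm.inv_eq_iff_eq, x1]
      have h2 : chi K.1 (x⁻¹ * y) = 1 := by
        have h3 : chi K.1 (x * (x⁻¹ * y)) = chi K.1 x * chi K.1 (x⁻¹ * y) := chi_mul K.2.1 _ _
        rw [mul_inv_cancel_left] at h3
        have h4 : chi K.1 x = chi K.1 y := by
          rcases he with rfl | rfl <;> linarith
        rw [h4] at h3
        rcases chi_sign K.1 y with h5 | h5 <;> rw [h5] at h3 <;> linarith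
      intro g
      rw [hfi, hfi, map_mul, TT_fix b p k _ _ h1, hVm]
      have h3 := hKg (x⁻¹ * y)
      rw [h2] at h3
      linear_combination (V g * e * TT b p k (θ g)) * h3
    -- the second function
    have hθswap : ∀ r : Fin 3, ∀ u : ℤ, (u = 1 ∨ u = -1) → ∃ g, θ g p' = r ∧
        V g * UU (!b) (θ g) = u := by
      intro r u hu
      obtain ⟨g, hg'⟩ := hθ (Equiv.swap p' r)
      have h1 : θ g p' = r := by rw [hg', Equiv.swap_apply_left]
      have h2 : θ (c * g) = θ g := by rw [map_mul, hθc, one_mul]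
      have h3 : V g * UU (!b) (θ g) = 1 ∨ V g * UU (!b) (θ g) = -1 := by
        rcases hV1 g with h | h <;> rcases UU_sign (!b) (θ g) with h' | h' <;> rw [h, h'] <;>
          norm_num
      by_cases h4 : V g * UU (!b) (θ g) = u
      · exact ⟨g, h1, h4⟩
      · refine ⟨c * g, by rw [h2, h1], ?_⟩
        rw [h2, hVm, hVc, neg_one_mul, neg_mul]
        rcases h3 with h3 | h3 <;> rcases hu with rfl | rfl <;> rw [h3] at h4 ⊢ <;>
          first | exact absurd rfl h4 | norm_num
    obtain ⟨e2, he2, hja⟩ : ∃ e2 : ℤ, (e2 = 1 ∨ e2 = -1) ∧ ∀ g, av E (f j) g =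
        nD E * (e2 * (V g * UU (!b) (θ g)) *
          ((if θ g p' = q + 2 then 1 else 0) - (if θ g p' = q + 1 then 1 else 0))) := by
      rcases cases3 q k' with h | h | h
      · exact absurd h hk'
      · refine ⟨e', he', fun g => ?_⟩
        rw [havT, hwq, hApe e' _ _ hje, h, ApW, hn2]
        ring
      · refine ⟨-e', by rcases he' with h | h <;> rw [h] <;> norm_num, fun g => ?_⟩
        rw [havT, hwq, hApe e' _ _ hje, h, ApW2, hn2]
        ring
    have hq12 : ∀ q : Fin 3, q + 1 ≠ q + 2 := by decide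
    have hnU1 : ¬ U1 E (f j) := by
      intro hU
      obtain ⟨x, hx1, hx2⟩ := hθswap (q + 2) e2 he2
      obtain ⟨y, hy1, hy2⟩ := hθswap (q + 1) (-e2) (by
        rcases he2 with h | h <;> rw [h] <;> norm_num)
      have h1 := hU x y (by
        rw [hja, hx2, if_pos hx1, if_neg (fun h => hq12 q (by rw [← h, hx1]))]
        rcases he2 with h | h <;> rw [h] <;> ring) (by
        rw [hja, hy2, if_pos hy1, if_neg (fun h => hq12 q (by rw [← h, hy1]))]
        rcases he2 with h | h <;> rw [h] <;> ring)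
      have h2 : θ (x⁻¹ * y) p' ≠ p' := by
        intro h
        rw [map_mul, map_inv, Equiv.Perm.mul_apply, hy1, Equiv.Perm.inv_eq_iff_eq, hx1] at h
        exact hq12 q h
      obtain ⟨⟨σ, h3⟩, ⟨σ', h4⟩⟩ := TT_move (!b) p' k' _ h2
      have h5 : ∀ σ, V (x⁻¹ * y) * TT (!b) p' k' (σ * θ (x⁻¹ * y)) = TT (!b) p' k' σ := by
        intro σ
        obtain ⟨g, rfl⟩ := hθ σ
        have h6 := h1 g
        rw [hfj, hfj, map_mul, hVm] at h6
        have h7 : e' * e' = 1 := by rcases he' with h | h <;> rw [h] <;> norm_num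
        have h8 := hVsq g
        linear_combination (V g * e') * h6 -
          (V (x⁻¹ * y) * TT (!b) p' k' (θ g * θ (x⁻¹ * y)) - TT (!b) p' k' (θ g)) * (h8 * e' * e' + h7)
      rcases hV1 (x⁻¹ * y) with h6 | h6
      · exact h3 (by have := h5 σ; rw [h6, one_mul] at this; exact this)
      · exact h4 (by have := h5 σ'; rw [h6] at this; linarith)
    -- neither function belongs to a character
    have hnz : ∀ g, θ g p ≠ q → av E (f i) g = 0 := by
      intro g h
      rw [hia, if_neg h]
      ring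
    have hnzj : ∀ g, θ g p' = q → av E (f j) g = 0 := by
      intro g h
      have e1 : ∀ q : Fin 3, ¬ q = q + 2 ∧ ¬ q = q + 1 := by decide
      rw [hja, if_neg (by rw [h]; exact (e1 q).1), if_neg (by rw [h]; exact (e1 q).2)]
      ring
    have hcl : ∀ f' : G → ℤ, (∃ g, av E f' g = 0) → ¬ CL c E f' := by
      rintro f' ⟨g, hg0⟩ ⟨K', k0, -, hk0, h⟩
      have h1 := h g
      rw [hg0] at h1
      rcases hk0 with rfl | rfl | rfl | rfl <;> rcases chi_sign K'.1 g with h2 | h2 <;>
        rw [h2] at h1 <;> omega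
    have hTi : T (f i) := by
      refine (hf i).1.2.resolve_left (hcl _ ?_)
      obtain ⟨g, hg'⟩ := hθ (Equiv.swap p (q + 1))
      exact ⟨g, hnz g (by rw [hg', Equiv.swap_apply_left]; exact ne1 q)⟩
    have hTj : T (f j) := by
      refine (hf j).1.2.resolve_left (hcl _ ?_)
      obtain ⟨g, hg'⟩ := hθ (Equiv.swap p' q)
      exact ⟨g, hnzj g (by rw [hg', Equiv.swap_apply_left])⟩
    rcases hpair _ _ (hfm i) (hfm j) hTi hTj hi6 hj6 with h2 | h2 | ⟨e1, τ, he1, h2⟩ | h2
    · obtain ⟨x, hx⟩ := hex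
      rw [h2 x] at hx
      exact hpos.ne hx
    · refine hnU1 fun x y hx hy => ?_
      rw [h2 x] at hx
      exact absurd hx hpos.ne
    · refine supp_ne p' (θ τ p) q fun σ => ?_
      obtain ⟨g, rfl⟩ := hθ σ
      have h3 := h2 g
      have h4 : av E (f j) g = 0 ↔ θ g p' = q := by
        constructor
        · intro h4
          by_contra h5
          rw [hja] at h4
          have h6 : e2 * (V g * UU (!b) (θ g)) = 1 ∨ e2 * (V g * UU (!b) (θ g)) = -1 := by
            rcases he2 with h | h <;> rcases hV1 g with h' | h' <;>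
              rcases UU_sign (!b) (θ g) with h'' | h'' <;> rw [h, h', h''] <;> norm_num
          rcases cases3 q (θ g p') with h7 | h7 | h7
          · exact h5 h7
          · rw [h7, if_neg (hq12 q), if_pos rfl] at h4
            rcases h6 with h8 | h8 <;> rw [h8] at h4 <;> omega
          · rw [h7, if_pos rfl, if_neg (fun h => hq12 q h.symm)] at h4
            rcases h6 with h8 | h8 <;> rw [h8] at h4 <;> omega
        · exact hnzj g
      have h5 : av E (f i) (g * τ) = 0 ↔ θ (g * τ) p ≠ q := by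
        constructor
        · intro h5 h6
          rw [hia, if_pos h6, mul_one] at h5
          rcases he with h | h <;> rcases chi_sign K.1 (g * τ) with h' | h' <;>
            rw [h, h'] at h5 <;> omega
        · exact hnz _
      have h6 : av E (f j) g = 0 ↔ av E (f i) (g * τ) = 0 := by
        rw [h3]
        rcases he1 with h | h <;> rw [h] <;> constructor <;> intro h7 <;> omega
      have h7 : θ (g * τ) p = θ g (θ τ p) := by rw [map_mul, Equiv.Perm.mul_apply]
      rw [← h7]
      rw [h4, h5] at h6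
      exact (not_congr h6).trans not_not
    · exact hnU1 (h2.2.2 hex hU1)
  · exact hrw σ

end

end Pool.Agent.R937.PZ
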