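import Pool.Agent.R937.PZ.Gam

/-!
# Relations between averages of non-ordinary functions: the remaining cases
-/

set_option autoImplicit false
set_option linter.unusedSectionVars false
set_option linter.unusedVariables false

namespace Pool.Agent.R937.PZ

open Pool.Agent.W495.TA (IsSign)
open Pool.Agent.Y137.SF (rst mem_rst)
open Pool.Agent.R937.HZ
open Pool.Agent.R937.CS (av nD nD_pos av_left av_c)
open Pool.Agent.R937.TZ

noncomputable section

variable {G M : Type} [Group G] [Fintype G] [AddCommGroup M] {c : G} {E : Subgroup G}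
  {D : (G → ℤ) → M}

/-- The symmetric group has no normal subgroup of index three. -/
theorem no_normal_three (N : Subgroup P3) (hN : N.Normal) (h : N.index = 3) : False := by
  classical
  have h1 := Subgroup.index_mul_card N
  have h6 : Nat.card P3 = 6 := by
    rw [Nat.card_eq_fintype_card]
    rfl
  rw [h, h6] at h1
  have h2 : Nat.card N = 2 := by omega
  have : Fact (Nat.Prime 2) := ⟨Nat.prime_two⟩
  obtain ⟨t, ht⟩ := exists_prime_orderOf_dvd_card' (G := N) 2 (by rw [h2])
  have h3 : (t : P3) * t = 1 := by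
    have h4 : t ^ 2 = 1 := by rw [← ht]; exact pow_orderOf_eq_one t
    have h5 : ((t ^ 2 : N) : P3) = 1 := by rw [h4]; rfl
    rw [pow_two] at h5
    exact h5
  have h4 : (t : P3) ≠ 1 := by
    intro h5
    have h7 : t = 1 := Subtype.ext h5
    rw [h7, orderOf_one] at ht
    norm_num at ht
  obtain ⟨p, hp⟩ := inv_three (t : P3) h3 h4
  have h5 : sw (p + 1) ∈ N := by
    have h7 := hN.conj_mem (t : P3) t.2 (sw (p + 2))
    rw [hp] at h7
    have h8 : ∀ p : Fin 3, sw (p + 2) * sw p * (sw (p + 2))⁻¹ = sw (p + 1) := by decide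
    rwa [h8] at h7
  have h7 : sw p ≠ sw (p + 1) := (by decide : ∀ p : Fin 3, sw p ≠ sw (p + 1)) p
  have h8 : Subsingleton {x : N // x ≠ 1} := by
    have h9 : Nat.card {x : N // x ≠ 1} = 1 := by
      rw [Nat.card_eq_fintype_card, Fintype.card_subtype_compl, ← Nat.card_eq_fintype_card, h2]
      simp
    exact (Nat.card_eq_one_iff_unique.1 h9).1
  have h9 : (⟨t, fun h => h4 (by rw [h]; rfl)⟩ : {x : N // x ≠ 1}) =
      ⟨⟨sw (p + 1), h5⟩, fun h => sw_ne (p + 1) (congrArg Subtype.val h)⟩ := Subsingleton.elim _ _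
  have h10 : (t : P3) = sw (p + 1) := congrArg (fun x : {x : N // x ≠ 1} => ((x : N) : P3)) h9
  exact h7 (by rw [← hp, h10])

/-- Signs on three points. -/
theorem sgn_cases (β : Fin 3 → Bool) : ∃ e : Bool, (∀ k, β k = e) ∨
    ∃ k0, ∀ k, β k = if k0 = k then !e else e := by
  revert β
  decide

variable (hcomm : ∀ g, c * g = g * c) (hc2 : c * c = 1)

include hcomm hc2

/-- The exact relations for a normal subgroup of index three. -/
theorem rl_normE {A : Subgroup G} [hAn : A.Normal] (hA3 : A.index = 3) (hH : Hyp1 c E D)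
    (K : K2 c) (hEA : E ≤ A) (hE1 : E ≤ K.1) :
    RlA E D fun f => IsSign c f ∧ A ≤ VV c hcomm hc2 (rst f) ∧ ∀ a ∈ A, f 1 * f a = chi K.1 a := by
  classical
  obtain ⟨v, hv⟩ := exists_reps hA3
  have hcA : c ∈ A := c_mem_of_index_three c hcomm hc2 A hA3
  have hu : ∀ k, ∃ u, chi K.1 u = 1 ∧ ∀ x, u⁻¹ * x ∈ A ↔ (v k)⁻¹ * x ∈ A := by
    intro k
    rcases chi_sign K.1 (v k) with h | h
    · exact ⟨v k, h, fun x => Iff.rfl⟩
    · refine ⟨c * v k, by rw [chi_mul K.2.1, h, chi_of_notMem K.2.2]; norm_num, fun x => ?_⟩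
      have h1 : (c * v k)⁻¹ * x = c⁻¹ * ((v k)⁻¹ * x) := by
        rw [hcomm]
        group
      rw [h1]
      exact A.mul_mem_cancel_left (A.inv_mem hcA)
  choose u hu1 hu2 using hu
  have hcov : ∀ x, ∃ k, (u k)⁻¹ * x ∈ A := by
    intro x
    obtain ⟨k, hk⟩ := three_cosets hA3 v hv x
    exact ⟨k, (hu2 k x).2 hk⟩
  have huniq : ∀ x k l, (u k)⁻¹ * x ∈ A → (u l)⁻¹ * x ∈ A → k = l := by
    intro x k l hk hl
    by_contra h
    apply hv k l h
    rw [hu2] at hk hl
    have h1 : (v k)⁻¹ * v l = (v k)⁻¹ * x * ((v l)⁻¹ * x)⁻¹ := by group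
    rw [h1]
    exact A.mul_mem hk (A.inv_mem hl)
  have hchi1 : chi K.1 1 = 1 := chi_of_mem K.1.one_mem
  have hinv : ∀ x, chi K.1 x⁻¹ = chi K.1 x := by
    intro x
    have h1 := chi_mul K.2.1 x⁻¹ x
    rw [inv_mul_cancel, hchi1] at h1
    rcases chi_sign K.1 x with h | h <;> rw [h] at h1 ⊢ <;> linarith
  have hg : ∀ k x, sK K.1 A (x * (u k)⁻¹) = chi K.1 x * (if (u k)⁻¹ * x ∈ A then -1 else 1) := by
    intro k x
    unfold sK
    rw [chi_mul K.2.1, hinv, hu1, mul_one]
    congr 1
    have h1 : x * (u k)⁻¹ ∈ A ↔ (u k)⁻¹ * x ∈ A := hAn.mem_comm_iff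
    by_cases h : (u k)⁻¹ * x ∈ A
    · rw [if_pos (h1.2 h), if_pos h]
    · rw [if_neg (fun h' => h (h1.1 h')), if_neg h]
  have hsK := (index_sK hcomm hc2 K hA3).1
  have hone : ∀ (S : Fin 3 → ℤ) (x : G) (k : Fin 3), (u k)⁻¹ * x ∈ A →
      ∑ l, S l * (if (u l)⁻¹ * x ∈ A then (-1 : ℤ) else 1) = ∑ l, S l - 2 * S k := by
    intro S x k hk
    have h1 : ∀ l, S l * (if (u l)⁻¹ * x ∈ A then (-1 : ℤ) else 1) =
        S l - 2 * (if l = k then S l else 0) := by
      intro l
      by_cases hl : l = k
      · rw [hl, if_pos hk, if_pos rfl]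
        ring
      · rw [if_neg hl, if_neg fun h => hl (huniq x l k h hk)]
        ring
    rw [Finset.sum_congr rfl fun l _ => h1 l, Finset.sum_sub_distrib, ← Finset.mul_sum,
      Finset.sum_ite_eq' Finset.univ, if_pos (Finset.mem_univ _)]
  have hw := hH.weil K (sK K.1 A) (fun k => (u k)⁻¹) hsK fun x => by
    obtain ⟨k, hk⟩ := hcov x
    rw [Finset.sum_congr rfl fun l _ => hg l x, ← Finset.mul_sum]
    have h1 := hone (fun _ => 1) x k hk
    simp only [one_mul] at h1
    rw [h1]
    simp
  set W : Fin 3 → M := fun k => D (fun x => sK K.1 A (x * (u k)⁻¹)) with hW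
  intro ι _ m f hf hr
  have hdec : ∀ i, ∃ (s : Fin 3 → ℤ) (t : ℤ), D (f i) = ∑ k, s k • W k + t • D (chi K.1) ∧
      ∀ x, f i x = chi K.1 x * (∑ l, s l * (if (u l)⁻¹ * x ∈ A then (-1 : ℤ) else 1) + t) := by
    intro i
    obtain ⟨hfi, hVi, hli⟩ := hf i
    have hval : ∀ x k, (u k)⁻¹ * x ∈ A → f i x = chi K.1 x * f i (u k) := by
      intro x k hk
      have h1 := semi hcomm hc2 hfi (hVi hk) (u k)
      rw [mul_inv_cancel_left, hli _ hk, chi_mul K.2.1, hinv, hu1, one_mul] at h1
      exact h1
    obtain ⟨e, he⟩ := sgn_cases fun k => decide (f i (u k) = -1)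
    set e' : ℤ := if e then -1 else 1 with he'
    have hee : e' = 1 ∨ e' = -1 := by
      rw [he']
      split_ifs <;> norm_num
    have hsg : ∀ k, f i (u k) = if decide (f i (u k) = -1) then -1 else 1 := by
      intro k
      rcases hfi.sign (u k) with h | h <;> rw [h] <;> simp
    rcases he with he | ⟨k0, he⟩
    · have h1 : f i = fun x => e' * chi K.1 x := by
        funext x
        obtain ⟨k, hk⟩ := hcov x
        rw [hval x k hk, hsg k, he k, ← he', mul_comm]
      refine ⟨0, e', ?_, fun x => ?_⟩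
      · have h2 : D (f i) = e' • D (chi K.1) := by
          rcases hee with h | h
          · rw [h1, h, one_smul]
            congr 1
            funext x
            rw [one_mul]
          · rw [h1, h, neg_one_smul, ← hH.neg _ (Sm.chi K)]
            congr 1
            funext x
            rw [neg_one_mul]
            rfl
        rw [h2]
        simp
      · rw [congrFun h1 x]
        simp
        ring
    · have h1 : f i = fun x => e' * sK K.1 A (x * (u k0)⁻¹) := by
        funext x
        obtain ⟨k, hk⟩ := hcov x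
        rw [hval x k hk, hsg k, he k, hg]
        by_cases hkk : k0 = k
        · rw [if_pos hkk, hkk, if_pos hk, he']
          cases e <;> simp
        · rw [if_neg hkk, if_neg fun h => hkk (huniq x k0 k h hk), ← he']
          ring
      refine ⟨fun l => e' * (Pi.single k0 1 : Fin 3 → ℤ) l, 0, ?_, fun x => ?_⟩
      · have h2 : D (f i) = e' • W k0 := by
          rcases hee with h | h
          · rw [h1, h, one_smul, hW]
            congr 1
            funext x
            rw [one_mul]
          · rw [h1, h, neg_one_smul, hW, ← hH.neg _ (Sm.shift hsK _)]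
            congr 1
            funext x
            rw [neg_one_mul]
            rfl
        rw [h2, zero_smul, add_zero]
        have h3 := sum_single_smul k0 W
        rw [← h3, Finset.smul_sum]
        exact Finset.sum_congr rfl fun k _ => by rw [mul_smul]
      · rw [congrFun h1 x, hg, add_zero]
        have h3 := sum_single_mul k0 fun l => if (u l)⁻¹ * x ∈ A then (-1 : ℤ) else 1
        have h4 : ∑ l, e' * (Pi.single k0 1 : Fin 3 → ℤ) l *
            (if (u l)⁻¹ * x ∈ A then (-1 : ℤ) else 1) =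
              e' * (if (u k0)⁻¹ * x ∈ A then (-1 : ℤ) else 1) := by
          rw [← h3, Finset.mul_sum]
          exact Finset.sum_congr rfl fun k _ => by rw [mul_assoc]
        rw [h4]
        ring
  choose s t h using hdec
  set S : Fin 3 → ℤ := fun p => ∑ i, m i * s i p with hS
  set T : ℤ := ∑ i, m i * t i with hT
  have hD : ∑ i, m i • D (f i) = ∑ p, S p • W p + T • D (chi K.1) := by
    have h1 : ∀ i, m i • D (f i) = ∑ p, (m i * s i p) • W p + (m i * t i) • D (chi K.1) := by
      intro i
      rw [(h i).1, smul_add, Finset.smul_sum]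
      simp only [mul_smul]
    rw [Finset.sum_congr rfl fun i _ => h1 i, Finset.sum_add_distrib,
      Finset.sum_comm, ← Finset.sum_smul]
    congr 1
    exact Finset.sum_congr rfl fun p _ => by rw [← Finset.sum_smul]
  have hall : ∀ k, ∑ l, S l - 2 * S k + T = 0 := by
    intro k
    have hk : (u k)⁻¹ * u k ∈ A := by rw [inv_mul_cancel]; exact A.one_mem
    have h1 := hr (u k)
    have h2 : ∀ i, av E (f i) (u k) = nD E * (∑ l, s i l * (if (u l)⁻¹ * u k ∈ A then (-1 : ℤ)
        else 1) + t i) := by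
      intro i
      obtain ⟨hfi, hVi, hli⟩ := hf i
      rw [val_one hcomm hc2 hfi (fun d hd => ?_) hVi (fun d hd hda => ?_), (h i).2, hu1, one_mul]
      · have h4 := hAn.conj_mem d (hEA hd) (u k)⁻¹
        rwa [inv_inv] at h4
      · rw [hli _ hda, chi_mul K.2.1, chi_mul K.2.1, hinv, hu1, one_mul, mul_one]
        exact chi_of_mem (hE1 hd)
    have h3 : nD E * (∑ l, S l - 2 * S k + T) = 0 := by
      rw [← h1, ← hone S (u k) k hk]
      have h4 : ∀ i, m i * av E (f i) (u k) = nD E * (∑ l, (m i * s i l) *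
          (if (u l)⁻¹ * u k ∈ A then (-1 : ℤ) else 1) + m i * t i) := by
        intro i
        rw [h2]
        have h5 : ∑ l, (m i * s i l) * (if (u l)⁻¹ * u k ∈ A then (-1 : ℤ) else 1) =
            m i * ∑ l, s i l * (if (u l)⁻¹ * u k ∈ A then (-1 : ℤ) else 1) := by
          rw [Finset.mul_sum]
          exact Finset.sum_congr rfl fun p _ => mul_assoc _ _ _
        rw [h5]
        ring
      rw [Finset.sum_congr rfl fun i _ => h4 i, ← Finset.mul_sum, Finset.sum_add_distrib,
        Finset.sum_comm]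
      congr 2
      exact Finset.sum_congr rfl fun p _ => Finset.sum_mul _ _ _
    exact (mul_eq_zero.1 h3).resolve_left (nD_pos E).ne'
  have hsum : ∑ k, S k = S 0 + S 1 + S 2 := Fin.sum_univ_three _
  have k0 := hall 0
  have k1 := hall 1
  have k2 := hall 2
  rw [hsum] at k0 k1 k2
  have e1 : S 1 = S 0 := by omega
  have e2 : S 2 = S 0 := by omega
  have e3 : T = -S 0 := by omega
  have hw' : W 0 + W 1 + W 2 = D (chi K.1) := by
    rw [← hw, Fin.sum_univ_three]
  rw [hD, Fin.sum_univ_three, e1, e2, e3, ← smul_add, ← smul_add, hw', neg_smul, add_neg_cancel]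

/-- The case of a normal subgroup of index three. -/
theorem rl_normP {T : (G → ℤ) → Prop} (hT : Adm c E T) {A : Subgroup G} [hAn : A.Normal]
    (hA3 : A.index = 3) (hH : Hyp1 c E D) {f1 : G → ℤ} (hf1 : Mem hcomm hc2 A f1)
    (hinv : ∀ b, b ∈ StL A (lab A f1)) :
    RlA E D fun f => (Mem hcomm hc2 A f ∧ (CL c E f ∨ T f)) ∧ lab A f = lab A f1 := by
  classical
  obtain ⟨V, hV1, hVm, hVc, hVA⟩ := exists_char hcomm hc2 hf1.1 hf1.2.1 hinv (by
    rcases hf1.2.2 with h | h <;> rw [h]
    · exact odd_one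
    · exact ⟨1, rfl⟩)
  obtain ⟨K, hK⟩ := char_chi hcomm hc2 hV1 hVm hVc
  have hVsq : ∀ g, V g * V g = 1 := fun g => by
    rcases hV1 g with h | h <;> rw [h] <;> norm_num
  have hV1' : V 1 = 1 := by
    have h1 := hVm 1 1
    rw [one_mul] at h1
    rcases hV1 1 with h | h
    · exact h
    · rw [h] at h1
      norm_num at h1
  have hVinv : ∀ x, V x⁻¹ * V x = 1 := fun x => by rw [← hVm, inv_mul_cancel, hV1']
  have hVconj : ∀ x d, V (x⁻¹ * d * x) = V d := fun x d => by
    rw [hVm, hVm]
    linear_combination (V d) * hVinv x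
  have hfa' : ∀ f, lab A f = lab A f1 → ∀ a ∈ A, f 1 * f a = V a := by
    intro f hl a ha
    rw [hVA ⟨a, ha⟩, ← hl]
    rfl
  by_cases hex : E ≤ A ∧ E ≤ K.1
  · refine (rl_normE hcomm hc2 hA3 hH K hex.1 hex.2).mono ?_
    rintro f ⟨⟨hf, hfT⟩, hl⟩
    exact ⟨hf.1, hf.2.1, fun a ha => by rw [hfa' f hl a ha, hK]⟩
  refine (rl_cl1 hcomm hc2 hH).mono ?_
  rintro f ⟨⟨hf, hfT⟩, hl⟩
  have hfa := hfa' f hl
  have hidx := index_VV c hcomm hc2 _ (c_notMem c hf.1)
  have hsm : Sm c f := ⟨hf.1, by rcases hf.2.2 with h | h <;> omega⟩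
  refine ⟨hsm, ?_⟩
  rcases hf.2.2 with h1 | h3
  · by_cases hz : ∀ g, av E f g = 0
    · exact Or.inr hz
    · exact Or.inl (cl_two hf.1 (by omega) hz)
  have hconj : ∀ x d, d ∈ A → x⁻¹ * d * x ∈ A := by
    intro x d hd
    have h4 := hAn.conj_mem d hd x⁻¹
    rwa [inv_inv] at h4
  have hconj' : ∀ x d, x⁻¹ * d * x ∈ A → d ∈ A := by
    intro x d hd
    have h4 := hAn.conj_mem _ hd x
    have h5 : x * (x⁻¹ * d * x) * x⁻¹ = d := by group
    rwa [h5] at h4
  by_cases htw : ∃ d ∈ E, d ∈ A ∧ V d = -1
  · right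
    obtain ⟨d, hd, hdA, hVd⟩ := htw
    intro x
    refine av_twist hcomm hc2 hd (hconj x d hdA) hf.1 hf.2.1 ?_
    rw [hfa _ (hconj x d hdA), hVconj, hVd]
  have htw' : ∀ d ∈ E, d ∈ A → V d = 1 := by
    intro d hd hdA
    rcases hV1 d with h | h
    · exact h
    · exact absurd ⟨d, hd, hdA, h⟩ htw
  have hun : ∀ x, ∀ d ∈ E, x⁻¹ * d * x ∈ A → f 1 * f (x⁻¹ * d * x) = 1 := by
    intro x d hd h
    rw [hfa _ h, hVconj]
    exact htw' d hd (hconj' x d h)
  by_cases hEA : E ≤ A
  · exfalso
    refine hex ⟨hEA, fun d hd => ?_⟩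
    rw [← chi_eq_one, ← hK]
    exact htw' d hd (hEA hd)
  · left
    obtain ⟨e0, he0, hne⟩ : ∃ e ∈ E, e ∉ A := by
      by_contra hcon
      push Not at hcon
      exact hEA hcon
    have hcube : ∀ e, e * e * e ∈ A := by
      intro e
      have h4 := Subgroup.pow_index_mem (H := A) (g := e)
      rw [hA3] at h4
      have h5 : e * e * e = e ^ 3 := by rw [pow_succ, pow_two]
      rw [h5]
      exact h4
    have hEK : E ≤ K.1 := by
      intro e he
      have h4 := htw' _ (E.mul_mem (E.mul_mem he he) he) (hcube e)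
      rw [hVm, hVm, hVsq, one_mul] at h4
      rw [← chi_eq_one, ← hK]
      exact h4
    have hne2 : e0 * e0 ∉ A := by
      intro h
      apply hne
      have h4 := A.mul_mem (A.inv_mem h) (hcube e0)
      rwa [inv_mul_cancel_left] at h4
    have h4 := val_three hcomm hc2 hf.1 (x := 1) hA3 he0 (E.mul_mem he0 he0)
      (by rwa [inv_one, one_mul, mul_one]) (by rwa [inv_one, one_mul, mul_one])
      (by
        have h5 : (e0 * 1)⁻¹ * (e0 * e0 * 1) = e0 := by group
        rwa [h5]) hf.2.1 (hun 1)
    have hcov := three_cosets hA3 ![1, e0, e0 * e0] (by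
      intro i k hik
      fin_cases i <;> fin_cases k <;> first | exact absurd rfl hik | skip
      · change 1⁻¹ * e0 ∉ A
        rwa [inv_one, one_mul]
      · change 1⁻¹ * (e0 * e0) ∉ A
        rwa [inv_one, one_mul]
      · change e0⁻¹ * 1 ∉ A
        rw [mul_one, A.inv_mem_iff]
        exact hne
      · change e0⁻¹ * (e0 * e0) ∉ A
        rwa [inv_mul_cancel_left]
      · change (e0 * e0)⁻¹ * 1 ∉ A
        rw [mul_one, A.inv_mem_iff]
        exact hne2
      · change (e0 * e0)⁻¹ * e0 ∉ A
        have h5 : (e0 * e0)⁻¹ * e0 = e0⁻¹ := by group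
        rw [h5, A.inv_mem_iff]
        exact hne)
    have hav : ∀ g, av E f g = chi K.1 g * av E f 1 := by
      intro g
      obtain ⟨i, hi⟩ := hcov g
      have hvi : ![1, e0, e0 * e0] i ∈ E := by
        fin_cases i
        · exact E.one_mem
        · exact he0
        · exact E.mul_mem he0 he0
      set v := ![1, e0, e0 * e0] i with hv
      have h5 := av_semi (E := E) hcomm hc2 hf.1 (hf.2.1 hi) 1
      rw [one_mul, hfa _ hi] at h5
      have h6 := av_left E f hvi (g := v⁻¹ * g)
      rw [mul_inv_cancel_left] at h6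
      rw [h6, h5]
      have h7 : V v = 1 := by
        rw [hK, chi_eq_one]
        exact hEK hvi
      have h8 := hVm v (v⁻¹ * g)
      rw [mul_inv_cancel_left, h7, one_mul] at h8
      rw [← h8, hK]
    refine ⟨K, f 1 + f e0 + f (e0 * e0), hEK, ?_, fun g => ?_⟩
    · rcases hf.1.sign 1 with h5 | h5 <;> rcases hf.1.sign e0 with h6 | h6 <;>
        rcases hf.1.sign (e0 * e0) with h7 | h7 <;> rw [h5, h6, h7] <;> norm_num
    · rw [mul_one, mul_one] at h4
      rw [hav]
      linear_combination (chi K.1 g) * h4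

/-- The relations between the members. -/
theorem rl_memP {T : (G → ℤ) → Prop} (hT : Adm c E T) {B0 : Subgroup G} (hB0 : B0.index = 3)
    (hH : Hyp1 c E D) :
    RlA E D fun f => Mem hcomm hc2 B0.normalCore f ∧ (CL c E f ∨ T f) := by
  refine lab_splitA hcomm hc2 (A := B0.normalCore) _ (fun f hf => ⟨hf.1.1, hf.1.2.1⟩)
    fun f1 hf1 => ?_
  by_cases hinv : ∀ b, b ∈ StL B0.normalCore (lab B0.normalCore f1)
  · by_cases hne : B0 ≤ B0.normalCore
    · have h1 : B0.normalCore = B0 := le_antisymm (Subgroup.normalCore_le _) hne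
      exact rl_normP hcomm hc2 hT (A := B0.normalCore) (by rw [h1]; exact hB0) hH hf1.1 hinv
    · exact rl_s3P hcomm hc2 hT hB0 hne hH hf1.1 hinv
  · -- the label is not invariant
    have key : ∀ f, Mem hcomm hc2 B0.normalCore f ∧
        lab B0.normalCore f = lab B0.normalCore f1 →
        VV c hcomm hc2 (rst f) = StL B0.normalCore (lab B0.normalCore f1) ∧
          (StL B0.normalCore (lab B0.normalCore f1)).index = 3 := by
      rintro f ⟨hf, hl⟩
      have h1 := VV_le_StL hcomm hc2 hf.1 hf.2.1
      rw [hl] at h1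
      have h2 : (StL B0.normalCore (lab B0.normalCore f1)).index ≠ 1 := by
        rw [ne_eq, Subgroup.index_eq_one]
        intro h
        exact hinv fun b => by rw [h]; exact Subgroup.mem_top b
      have h3 := Subgroup.relIndex_mul_index h1
      rcases hf.2.2 with h | h
      · rw [h] at h3
        exact absurd (Nat.eq_one_of_mul_eq_one_left h3) h2
      · rw [h] at h3
        have h5 : (StL B0.normalCore (lab B0.normalCore f1)).index = 3 :=
          ((Nat.dvd_prime Nat.prime_three).1 (Dvd.intro_left _ h3)).resolve_left h2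
        refine ⟨le_antisymm h1 ?_, h5⟩
        rw [← Subgroup.relIndex_eq_one]
        rw [h5] at h3
        omega
    have h3 : (StL B0.normalCore (lab B0.normalCore f1)).index = 3 := (key f1 ⟨hf1.1, rfl⟩).2
    have hsix : ∀ f, Mem hcomm hc2 B0.normalCore f ∧
        lab B0.normalCore f = lab B0.normalCore f1 → (rst f).index = 6 := by
      intro f hf
      have h4 := index_VV c hcomm hc2 _ (c_notMem c hf.1.1)
      rw [(key f hf).1, h3] at h4
      omega
    set A : Subgroup G := B0.normalCore with hAdef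
    -- the core of the stabilizers
    have hlabA : ∀ f, (Mem hcomm hc2 A f ∧ lab A f = lab A f1) → ∀ a ∈ A,
        (a ∈ rst f ↔ ∀ h : a ∈ A, lab A f1 ⟨a, h⟩ = 1) := by
      rintro f ⟨hf, hl⟩ a ha
      have h4 := congrFun hl ⟨a, ha⟩
      constructor
      · intro h5 _
        rw [← h4]
        change f 1 * f a = 1
        have h6 := h5 1
        rw [one_mul] at h6
        rw [h6, one_sq hf.1]
      · intro h5 x
        rw [semi hcomm hc2 hf.1 (hf.2.1 ha)]
        have h6 := h5 ha
        rw [← h4] at h6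
        change f 1 * f a = 1 at h6
        rw [h6, one_mul]
    have hcoreA : ∀ f, (Mem hcomm hc2 A f ∧ lab A f = lab A f1) → (rst f).normalCore ≤ A := by
      intro f hf
      have h4 : (rst f).normalCore ≤ (VV c hcomm hc2 (rst f)).normalCore :=
        Subgroup.normal_le_normalCore.2 ((Subgroup.normalCore_le _).trans (le_VV c hcomm hc2 _))
      refine h4.trans ?_
      have h5 : (VV c hcomm hc2 (rst f)).index = 3 := by rw [(key f hf).1, h3]
      have h6 : A ≤ (VV c hcomm hc2 (rst f)).normalCore :=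
        Subgroup.normal_le_normalCore.2 hf.1.2.1
      by_cases hne : B0 ≤ A
      · have h7 : A = B0 := le_antisymm (Subgroup.normalCore_le _) hne
        have h8 := Subgroup.relIndex_mul_index (h6.trans (Subgroup.normalCore_le _))
        have h9 : A.index = 3 := by rw [h7, hB0]
        rw [h5, h9] at h8
        have h10 : A.relIndex (VV c hcomm hc2 (rst f)) = 1 := by omega
        exact (Subgroup.normalCore_le _).trans (Subgroup.relIndex_eq_one.1 h10)
      · obtain ⟨θ, hθ, hker, hidx⟩ := exists_theta B0 hB0 hne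
        have hidx' : A.index = 6 := hidx
        by_contra hcon
        -- the core of the subgroup is larger than A
        have h8 := Subgroup.relIndex_mul_index h6
        have h9 := Subgroup.relIndex_mul_index (Subgroup.normalCore_le (VV c hcomm hc2 (rst f)))
        rw [hidx'] at h8
        rw [h5] at h9
        have h10 : A.relIndex (VV c hcomm hc2 (rst f)).normalCore ≠ 1 := fun h =>
          hcon (Subgroup.relIndex_eq_one.1 h)
        have h11 : (VV c hcomm hc2 (rst f)).normalCore.index = 3 := by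
          have h12 : (VV c hcomm hc2 (rst f)).normalCore.index ∣ 6 := Dvd.intro_left _ h8
          have h13 : 3 ∣ (VV c hcomm hc2 (rst f)).normalCore.index := Dvd.intro_left _ h9
          have h14 := Nat.le_of_dvd (by norm_num) h12
          obtain ⟨w, hw⟩ := h13
          have h15 : w ≠ 0 := by
            rintro rfl
            rw [hw] at h8
            omega
          have h16 : w ≠ 2 := by
            rintro rfl
            rw [hw] at h8
            exact h10 (by omega)
          omega
        set N : Subgroup G := (VV c hcomm hc2 (rst f)).normalCore with hN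
        have h12 : ∀ x y : G, θ x * θ y * (θ x)⁻¹ ∈ N.map θ ↔ θ y ∈ N.map θ := by
          intro x y
          constructor
          · intro h
            have h13 : (N.map θ).Normal := Subgroup.Normal.map inferInstance θ hθ
            have h14 := h13.conj_mem _ h (θ x)⁻¹
            have h15 : (θ x)⁻¹ * (θ x * θ y * (θ x)⁻¹) * (θ x)⁻¹⁻¹ = θ y := by group
            rwa [h15] at h14
          · intro h
            have h13 : (N.map θ).Normal := Subgroup.Normal.map inferInstance θ hθ
            exact h13.conj_mem _ h _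
        have h13 : (N.map θ).index = 3 := by
          have h14 : N ⊔ θ.ker = N := sup_eq_left.2 fun x hx => h6 ((hker x).1 hx)
          rw [Subgroup.index_map, h14, h11, MonoidHom.range_eq_top.2 hθ, Subgroup.index_top]
        have h14 : (N.map θ).Normal := Subgroup.Normal.map inferInstance θ hθ
        exact no_normal_three (N.map θ) h14 h13
    have hNc : ∀ f, (Mem hcomm hc2 A f ∧ lab A f = lab A f1) → ∀ x, x ∈ (rst f).normalCore ↔
        ∀ g, ∃ h : g * x * g⁻¹ ∈ A, lab A f1 ⟨g * x * g⁻¹, h⟩ = 1 := by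
      intro f hf x
      have hAn : A.Normal := inferInstance
      constructor
      · intro hx g
        have h4 : g * x * g⁻¹ ∈ A := hAn.conj_mem _ (hcoreA f hf hx) g
        exact ⟨h4, (hlabA f hf _ h4).1 (hx g) h4⟩
      · intro hx g
        obtain ⟨h4, h5⟩ := hx g
        exact (hlabA f hf _ h4).2 fun _ => h5
    have hceq : ∀ f f', (Mem hcomm hc2 A f ∧ lab A f = lab A f1) →
        (Mem hcomm hc2 A f' ∧ lab A f' = lab A f1) →
        (rst f).normalCore = (rst f').normalCore := by
      intro f f' hf hf'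
      ext x
      rw [hNc f hf, hNc f' hf']
    have hnn : ∀ f, (Mem hcomm hc2 A f ∧ lab A f = lab A f1) → ¬ (rst f).Normal := by
      intro f hf hN
      refine hinv fun b a => ?_
      have hAn : A.Normal := inferInstance
      have h4 : b * (a : G) * b⁻¹ ∈ A := hAn.conj_mem _ a.2 b
      have h5 : (b * (a : G) * b⁻¹ ∈ rst f) ↔ ((a : G) ∈ rst f) := by
        constructor
        · intro h
          have h6 := hN.conj_mem _ h b⁻¹
          have h7 : b⁻¹ * (b * (a : G) * b⁻¹) * b⁻¹⁻¹ = a := by group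
          rwa [h7] at h6
        · exact fun h => hN.conj_mem _ h b
      rw [hlabA f hf _ h4, hlabA f hf _ a.2] at h5
      have hs : ∀ a : A, lab A f1 a = 1 ∨ lab A f1 a = -1 := lab_sign hf1.1.1
      rcases hs ⟨_, h4⟩ with h6 | h6 <;> rcases hs a with h7 | h7
      · rw [h6, h7]
      · have h8 := h5.1 (fun _ => h6) a.2
        rw [h7] at h8
        norm_num at h8
      · have h8 := h5.2 (fun _ => h7) h4
        rw [h6] at h8
        norm_num at h8
      · rw [h6, h7]
    refine lab_splitA hcomm hc2 (A := StL A (lab A f1)) _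
      (fun f hf => ⟨hf.1.1.1, (key f ⟨hf.1.1, hf.2⟩).1.ge⟩) fun f2 hf2 => ?_
    refine rl_orth hH (fun f hf => ⟨hf.1.1.1.1, (hsix f ⟨hf.1.1.1, hf.1.2⟩).le⟩)
      fun f f' hf hf' => ?_
    have hff : ∀ f, (Mem hcomm hc2 A f ∧ lab A f = lab A f1) → CL c E f → False := by
      intro f hf hcl
      have hz := hcl
      obtain ⟨K, k0, -, hk0, h⟩ := hcl
      refine hinv fun b a => ?_
      have hAn : A.Normal := inferInstance
      -- the label is the restriction of the character
      have h4 : ∀ a : A, lab A f1 a = chi K.1 a := by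
        intro a
        have h5 := av_semi (E := E) hcomm hc2 hf.1.1 (hf.1.2.1 a.2) 1
        have h6 := h 1
        have h7 := h (1 * a)
        rw [h5, chi_mul K.2.1, chi_of_mem K.1.one_mem, one_mul] at h7
        rw [chi_of_mem K.1.one_mem, mul_one] at h6
        have h8 : f 1 * f a = lab A f1 a := congrFun hf.2 a
        have hpos := nD_pos E
        rw [h8] at h7
        rcases (lab_sign hf1.1.1 : ∀ a : A, _) a with h9 | h9 <;>
          rcases chi_sign K.1 (a : G) with h10 | h10 <;> rw [h9, h10] at h7 ⊢ <;>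
          rcases hk0 with rfl | rfl | rfl | rfl <;> omega
      rw [h4, h4]
      change chi K.1 (b * a * b⁻¹) = _
      rw [chi_mul K.2.1, chi_mul K.2.1]
      have h5 := chi_mul K.2.1 b b⁻¹
      rw [mul_inv_cancel, chi_of_mem K.1.one_mem] at h5
      linear_combination (-(chi K.1 (a : G))) * h5
    have hm : Mem hcomm hc2 A f ∧ lab A f = lab A f1 := ⟨hf.1.1.1, hf.1.2⟩
    have hm' : Mem hcomm hc2 A f' ∧ lab A f' = lab A f1 := ⟨hf'.1.1.1, hf'.1.2⟩
    have hTf : T f := hf.1.1.2.resolve_left (hff f hm)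
    have hTf' : T f' := hf'.1.1.2.resolve_left (hff f' hm')
    rcases hT.pair f f' hTf hTf' (hsix f hm) (hsix f' hm') (hceq f f' hm hm') (hnn f hm) with
      h4 | h4 | ⟨e, τ, he, h4⟩ | h4
    · right; right
      exact Finset.sum_eq_zero fun x _ => by rw [h4, zero_mul]
    · right; right
      exact Finset.sum_eq_zero fun x _ => by rw [h4, mul_zero]
    · by_cases hz : ∀ x, av E f' x = 0
      · right; right
        exact Finset.sum_eq_zero fun x _ => by rw [hz, mul_zero]
      push Not at hz
      obtain ⟨x0, hx0⟩ := hz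
      have hAn : A.Normal := inferInstance
      have h5 : τ⁻¹ ∈ StL A (lab A f1) := by
        intro a
        have h6 : τ⁻¹ * (a : G) * τ⁻¹⁻¹ ∈ A := hAn.conj_mem _ a.2 _
        have h7 := av_semi (E := E) hcomm hc2 hm'.1.1 (hm'.1.2.1 a.2) x0
        have h8 := h4 (x0 * a)
        have h9 : x0 * (a : G) * τ = x0 * τ * (τ⁻¹ * (a : G) * τ⁻¹⁻¹) := by group
        rw [h9, av_semi (E := E) hcomm hc2 hm.1.1 (hm.1.2.1 h6), h7] at h8
        have h10 : f' 1 * f' a = lab A f1 a := congrFun hm'.2 a
        have h11 : f 1 * f (τ⁻¹ * (a : G) * τ⁻¹⁻¹) = lab A f1 ⟨_, h6⟩ := congrFun hm.2 ⟨_, h6⟩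
        rw [h10, h11, mul_left_comm, ← h4] at h8
        exact (mul_right_cancel₀ hx0 h8).symm
      have h6 : τ ∈ VV c hcomm hc2 (rst f) := by
        rw [(key f hm).1]
        have h7 := (StL A (lab A f1)).inv_mem h5
        rwa [inv_inv] at h7
      have h7 : ∀ x, av E f' x = e * (f 1 * f τ) * av E f x := fun x => by
        rw [h4, av_semi (E := E) hcomm hc2 hm.1.1 h6]
        ring
      have h8 : e * (f 1 * f τ) = 1 ∨ e * (f 1 * f τ) = -1 := by
        rcases he with h | h <;> rcases hm.1.1.sign 1 with h' | h' <;>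
          rcases hm.1.1.sign τ with h'' | h'' <;> rw [h, h', h''] <;> norm_num
      rcases h8 with h8 | h8
      · exact Or.inl fun x => by rw [h7, h8, one_mul]
      · exact Or.inr (Or.inl fun x => by rw [h7, h8, neg_one_mul])
    · exact orth_of_label hcomm hc2 h3 hm.1.1 hm'.1.1 (key f hm).1.ge (key f' hm').1.ge
        (hf'.2.trans hf.2.symm) h4.1 h4.2.1

/-- The relations between averages of functions that are invariant under the normal core of a
stabilizer of index six. -/
theorem gam_sixP {T : (G → ℤ) → Prop} (hT : Adm c E T) (hH : Hyp1 c E D) {f0 : G → ℤ}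
    (hf0 : IsSign c f0) (hi : (rst f0).index = 6) :
    RlA E D fun f => (IsSign c f ∧ (rst f0).normalCore ≤ rst f ∧
      ((rst f).index = 2 ∨ (rst f).index = 6)) ∧ (CL c E f ∨ T f) := by
  have h1 := index_VV c hcomm hc2 _ (c_notMem c hf0)
  have hB0 : (VV c hcomm hc2 (rst f0)).index = 3 := by omega
  refine (rl_memP hcomm hc2 hT hB0 hH).mono ?_
  rintro f ⟨⟨hf, hN, hfi⟩, hf'⟩
  exact ⟨mem_of_core hcomm hc2 hB0 hf hN hfi, hf'⟩

/-- The relations between averages of sign functions that are invariant under the normal core of a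
stabilizer of index at most four. -/
theorem gam_fourP (hH : Hyp1 c E D) {f0 : G → ℤ} (hf0 : IsSign c f0)
    (hi : (rst f0).index ≤ 4) :
    RlA E D fun f => IsSign c f ∧ (rst f0).normalCore ≤ rst f := by
  have h4 : ∀ f, (IsSign c f ∧ (rst f0).normalCore ≤ rst f) → (rst f).index ≤ 4 := fun f h =>
    index_le_four hcomm hc2 hf0 hi h.1 h.2
  have hs : ∀ f, (IsSign c f ∧ (rst f0).normalCore ≤ rst f) → Sm c f := fun f h =>
    ⟨h.1, (h4 f h).trans (by norm_num)⟩
  exact rlA_inv hcomm hc2 _ (fun h => c_notMem c hf0 (Subgroup.normalCore_le _ h))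
    ⟨fun f h => hH.neg f (hs f h), fun f h h' => hH.ex f (fun k => ⟨(h k).1, h4 _ (h k)⟩) h',
      fun f f' h h' => hH.cg f f' (hs f h) (hs f' h'), fun f h => hH.zero f (hs f h)⟩

end

end Pool.Agent.R937.PZ
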