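import Pool.Agent.R937.PZ.Ind
import Pool.Agent.R937.TZ.Geo
import Pool.Agent.R937.CS.Gal
import Pool.Agent.Y137.GN.Main

/-!
# The system generated by divisors, split Weil classes and classes on products of surfaces
-/

set_option autoImplicit false
set_option linter.unusedSectionVars false
set_option linter.unusedVariables false

namespace Pool.Agent.R937.PG

open NumberField Pool.Agent.H204R3.CM Pool.Agent.W547.KB Pool.Agent.W547.LD Pool.Agent.W495.TA Module
  Pool.Agent.W495.TB Pool.Agent.W495.TC Pool.Agent.TH117.F5 Pool.Agent.TH117.BL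
  Pool.Agent.W976.TA Pool.Agent.W417.TA Pool.Agent.R937.BR
open Pool.Agent.R937.CS (av nD nD_pos tf_eq_av)
open Pool.Agent.R937.HZ (Sm isHalf_of_sign chi isSign_chi)
open Pool.Agent.Y137.SF (AlgS AlgMS dl dl_neg dl_zero dcnt_eq_sum sg isSign_sg rst rst_sg mem_rst
  index_hs_le finrank_pairOf geo)
open Pool.Agent.Y137.TV (lam lam_ne_zero)
open Pool.Agent.W333.TA (monoO_F_pow)
open Pool.Agent.R937.TZ
open Pool.Agent.R937.PZ (Hyp1 Adm NO U1 rl_avgP)
open scoped TensorProduct

noncomputable section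

variable {p : ℕ} [Fact p.Prime] {ν : PadicAlgCl p ≃+* ℂ} {Ω : Type} [Field Ω] [CharZero Ω]
  {L : Type} [Field L] [NumberField L] [IsCMField L] [IsGalois ℚ L] (j : L →+* ℂ) (jO : L →+* Ω)

/-- The system generated by Tate classes of degree two, split Weil classes, and classes on products of
elliptic curves and abelian surfaces. -/
def A0 (p : ℕ) [Fact p.Prime] (ν : PadicAlgCl p ≃+* ℂ) (Ω : Type) [Field Ω] [CharZero Ω] :
    TSys p ν Ω where
  A Y κ f := AlgS Ω {4, 6} Y κ f
  unit f := AlgS.unit f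
  divisor hκ f s hs hf := AlgS.divisor hκ f s hs hf
  zero Y κ := AlgS.zero Y κ
  add f g hf hg := AlgS.add f g hf hg
  smul c f hf := AlgS.smul c f hf
  reindex e f hf := AlgS.reindex e f hf
  cup f g hf hg h hh := AlgS.cup f g hf hg h hh
  pull h hh f hf := AlgS.pull h hh f hf
  push Y' f g h hf := by
    obtain ⟨h, h', b, hh, hh', hb, hg⟩ := h
    exact AlgS.push h h' hh hh' hb b f hf g hg

theorem sum_three {M : Type} [AddCommMonoid M] (F : Fin 3 → M) {k l m : Fin 3} (hkl : k ≠ l)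
    (h1 : m ≠ k) (h2 : m ≠ l) : ∑ i, F i = F k + F l + F m := by
  have h3 : (Finset.univ : Finset (Fin 3)) = {k, l, m} := by
    revert k l m
    decide
  rw [h3, Finset.sum_insert (by simp [hkl, h1.symm]), Finset.sum_insert (by simp [h2.symm]),
    Finset.sum_singleton, add_assoc]

/-- The four functions of a relation of Weil. -/
def qf {G : Type} [Group G] (f g : G → ℤ) (h : Fin 3 → G) : Fin 4 → G → ℤ :=
  ![fun x => f (x * h 0), fun x => f (x * h 1), fun x => f (x * h 2), -g]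

theorem tf_tr {f : (L ≃ₐ[ℚ] L) → ℤ} (hf : IsSign (cc L) f) (τ : L ≃ₐ[ℚ] L) :
    tf p ν j (tr τ {σ | f σ = 1}) = av (Dec p ν j) fun x => f (x * τ) := by
  have h1 : IsSign (cc L) fun x => f (x * τ) := ⟨fun x => hf.sign _, fun x => by
    change f (cc L * x * τ) = -f (x * τ)
    rw [mul_assoc]
    exact hf.odd _⟩
  rw [← tf_sign j h1]
  rfl

theorem tf_tr_cc {f : (L ≃ₐ[ℚ] L) → ℤ} (hf : IsSign (cc L) f) :
    tf p ν j (tr (cc L) {σ | f σ = 1}) = av (Dec p ν j) (-f) := by
  rw [tf_tr j hf]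
  congr 1
  funext x
  rw [Pi.neg_apply, ← cc_comm j x]
  exact hf.odd x

/-- **The relations of Weil.** -/
theorem geo_weil [IsAlgClosed Ω] {f g : (L ≃ₐ[ℚ] L) → ℤ} (hf : Sm (cc L) f)
    (hg : IsSign (cc L) g) (hg4 : (rst g).index ≤ 4) (h : Fin 3 → (L ≃ₐ[ℚ] L))
    (hs : ∀ x, ∑ k, f (x * h k) = g x)
    (hinj : ∀ k l, (∀ x, f (x * h k) = f (x * h l)) → k = l) :
    QT (A0 p ν Ω) j jO (Fin 4) fun k => av (Dec p ν j) (qf f g h k) := by
  classical
  let y : Fin 2 → Set (L ≃ₐ[ℚ] L) := ![{σ | f σ = 1}, {σ | g σ = 1}]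
  have hy : ∀ q, IsHalf (y q) := by
    intro q
    fin_cases q
    · exact isHalf_of_sign hf.1
    · exact isHalf_of_sign hg
  obtain ⟨Z, hZ⟩ := Pool.Agent.R937.VS.exists_av (p := p) (ν := ν) j y hy
  obtain ⟨X, a, pos, π, frob⟩ := Z
  have hZ' : X = prodOf j y hy := hZ
  subst hZ'
  let Z : RedAV p ν := ⟨prodOf j y hy, a, pos, π, frob⟩
  let J : Fin 4 → Wt Z.X L :=
    ![wt j y hy 0 (h 0), wt j y hy 0 (h 1), wt j y hy 0 (h 2), wt j y hy 1 (cc L)]
  have hbig : Big Z.X j := Pool.Agent.W417.TA.big_prodOf j y hy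
  have htf : ∀ k, tf p ν j (St j (J k)) = av (Dec p ν j) (qf f g h k) := by
    intro k
    fin_cases k
    · change tf p ν j (St j (wt j y hy 0 (h 0))) = _
      rw [St_wt]
      exact tf_tr j hf.1 (h 0)
    · change tf p ν j (St j (wt j y hy 0 (h 1))) = _
      rw [St_wt]
      exact tf_tr j hf.1 (h 1)
    · change tf p ν j (St j (wt j y hy 0 (h 2))) = _
      rw [St_wt]
      exact tf_tr j hf.1 (h 2)
    · change tf p ν j (St j (wt j y hy 1 (cc L))) = _
      rw [St_wt]
      exact tf_tr_cc j hg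
  have hJinj : Function.Injective J := by
    have key : ∀ k l : Fin 3, wt j y hy 0 (h k) = wt j y hy 0 (h l) → k = l := by
      intro k l hkl
      refine hinj k l fun x => ?_
      rw [wt_eq_iff] at hkl
      have h1 : x ∈ tr (h k) (y 0) ↔ x ∈ tr (h l) (y 0) := by rw [hkl]
      change f (x * h k) = 1 ↔ f (x * h l) = 1 at h1
      rcases hf.1.sign (x * h k) with h2 | h2 <;> rcases hf.1.sign (x * h l) with h3 | h3 <;>
        rw [h2, h3] at h1 ⊢ <;> norm_num at h1
    intro k l hkl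
    fin_cases k <;> fin_cases l <;> first
      | rfl
      | (exact absurd (key _ _ hkl) (by decide))
      | (exact absurd (wt_fst_eq j y hy hkl) (by decide))
  have hsum : ∀ σ, ∑ k, tf p ν j (St j (J k)) σ = 0 := by
    intro σ
    rw [Finset.sum_congr rfl fun k _ => by rw [htf k]]
    have h1 := av_sum (Dec p ν j) (Finset.univ : Finset (Fin 4)) (fun _ => 1) (qf f g h) σ
    have h2 : (fun x => ∑ k : Fin 4, (1 : ℤ) * qf f g h k x) = 0 := by
      funext x
      have h3 := hs x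
      rw [Fin.sum_univ_three] at h3
      rw [Fin.sum_univ_four]
      change 1 * f (x * h 0) + 1 * f (x * h 1) + 1 * f (x * h 2) + 1 * -g x = 0
      linarith
    rw [h2, av_zero] at h1
    rw [h1]
    exact Finset.sum_congr rfl fun k _ => (one_mul _).symm
  obtain ⟨s, hs0, hs1⟩ := eig_of_rel j hbig J 2 (by norm_num) (by simp) hsum
  have ht : IsTateClass Ω Z s 2 (monoO jO J) := by
    intro v
    rw [monoO_F_pow, ← map_pow, hs1, map_pow, map_natCast, ← pow_mul]
    congr 2
    ring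
  have hdim : finrank ℚ Z.X.H1 ≤ 10 := by
    have h1 : finrank ℚ Z.X.H1 = ∑ i, finrank ℚ (Z.X.factor i).E := Module.finrank_pi_fintype ℚ
    rw [h1]
    change ∑ i : Fin 2, finrank ℚ (pairOf j (y i) (hy i)).E ≤ 10
    rw [Fin.sum_univ_two, finrank_pairOf, finrank_pairOf, ← rst_sg, ← rst_sg]
    have e1 : sg (y 0) = f := Pool.Agent.R937.HZ.sg_of_sign hf.1
    have e2 : sg (y 1) = g := Pool.Agent.R937.HZ.sg_of_sign hg
    rw [e1, e2]
    have := hf.2
    omega
  have hA : AlgS Ω {4, 6} Z (Fin 4) (monoO jO J) :=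
    Pool.Agent.Y137.GN.algS_goodS (Or.inl hdim) s 2 hs0 (monoO jO J) ht
  have h3 := @pullS p _ ν Ω _ _ L _ _ _ _ (A0 p ν Ω) j jO Z hbig _ _ _ J hJinj hA
  have h5 : (fun k => tf p ν j (St j (J k))) = fun k => av (Dec p ν j) (qf f g h k) := funext htf
  rw [h5] at h3
  exact @h3

theorem dl_av_neg (f : (L ≃ₐ[ℚ] L) → ℤ) :
    dl (av (Dec p ν j) (-f)) = -dl (av (Dec p ν j) f) := by
  rw [av_neg', dl_neg]

/-- The class of a function. -/
abbrev DD (p : ℕ) [Fact p.Prime] (ν : PadicAlgCl p ≃+* ℂ) (f : (L ≃ₐ[ℚ] L) → ℤ) :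
    ((((L ≃ₐ[ℚ] L) → ℤ) → ℤ) ⧸ NT j jO (A0 p ν Ω)) :=
  QuotientAddGroup.mk' (NT j jO (A0 p ν Ω)) (dl (av (Dec p ν j) f))

theorem DD_neg (f : (L ≃ₐ[ℚ] L) → ℤ) : DD j jO p ν (-f) = -DD j jO p ν f := by
  unfold DD
  rw [dl_av_neg, map_neg]

/-- The hypotheses on the classes. -/
theorem hyp1T [IsAlgClosed Ω] : Hyp1 (cc L) (Dec p ν j) (DD j jO p ν (Ω := Ω)) := by
  classical
  have key : ∀ q : Fin 4 → (L ≃ₐ[ℚ] L) → ℤ, (∀ k, Sm (cc L) (q k)) →
      QT (A0 p ν Ω) j jO (Fin 4) (fun k => av (Dec p ν j) (q k)) →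
      QT (A0 p ν Ω) j jO (Fin 4) (fun k => av (Dec p ν j) (-q k)) →
      ∑ k, DD j jO p ν (Ω := Ω) (q k) = 0 := by
    intro q hq h1 h2
    unfold DD
    rw [← map_sum, ← dcnt_eq_sum]
    refine (QuotientAddGroup.eq_zero_iff _).2 ?_
    refine GenD.of_good ⟨inferInstance, by simp [Nat.even_iff], fun k => ⟨q k, hq k, rfl⟩, ?_, ?_⟩
    · exact @h1
    · have h3 : (fun k => av (Dec p ν j) (-q k)) = fun k => -av (Dec p ν j) (q k) :=
        funext fun k => av_neg' j (q k)
      rw [h3] at h2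
      exact @h2
  have hneg : ∀ f : (L ≃ₐ[ℚ] L) → ℤ, DD j jO p ν (Ω := Ω) (-f) = -DD j jO p ν (Ω := Ω) f :=
    fun f => DD_neg j jO f
  refine ⟨fun f _ => hneg f, fun f hf hs => ?_, fun K f h hf hs => ?_, fun f f' _ _ hff => ?_,
    fun f hf h0 => ?_⟩
  · have hgeo : ∀ f : Fin 4 → (L ≃ₐ[ℚ] L) → ℤ, (∀ k, IsSign (cc L) (f k) ∧ (rst (f k)).index ≤ 4) →
        (∀ x, ∑ k, f k x = 0) → QT (A0 p ν Ω) j jO (Fin 4) (fun k => av (Dec p ν j) (f k)) := by
      intro f hf hs
      have h1 := @geo p _ ν Ω _ _ L _ _ _ _ {4, 6} j jO (fun k => {σ | f k σ = 1})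
        (fun k => isHalf_of_sign (hf k).1) (fun k => by
          rw [← rst_sg, Pool.Agent.R937.HZ.sg_of_sign (hf k).1]
          exact (hf k).2) (fun σ => by
          change ∑ k, sg {σ | f k σ = 1} σ = 0
          rw [Finset.sum_congr rfl fun k _ => by rw [Pool.Agent.R937.HZ.sg_of_sign (hf k).1]]
          exact hs σ)
      have h2 : (fun k => tf p ν j {σ | f k σ = 1}) = fun k => av (Dec p ν j) (f k) :=
        funext fun k => tf_sign j (hf k).1
      rw [h2] at h1
      exact @h1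
    refine key f (fun k => ⟨(hf k).1, (hf k).2.trans (by norm_num)⟩) (hgeo f hf hs)
      (hgeo (fun k => -f k) (fun k => ⟨Pool.Agent.R937.HZ.IsSign.neg' (hf k).1, by
        rw [Pool.Agent.R937.HZ.rst_neg]
        exact (hf k).2⟩) fun x => by
        rw [Finset.sum_congr rfl fun k _ => Pi.neg_apply (f k) x, Finset.sum_neg_distrib, hs,
          neg_zero])
  · -- the relations of Weil
    have hKs := isSign_chi K
    have hK4 : (rst (chi K.1)).index ≤ 4 := by
      rw [Pool.Agent.R937.HZ.rst_chi K.2.1, K.2.1]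
      norm_num
    by_cases hinj : ∀ k l, (∀ x, f (x * h k) = f (x * h l)) → k = l
    · have h1 := key (qf f (chi K.1) h) (by
        intro k
        fin_cases k
        · exact Pool.Agent.R937.PZ.Sm.shift hf (h 0)
        · exact Pool.Agent.R937.PZ.Sm.shift hf (h 1)
        · exact Pool.Agent.R937.PZ.Sm.shift hf (h 2)
        · exact (Sm.chi K).neg) (geo_weil j jO hf hKs hK4 h hs hinj) (by
        have h2 := @geo_weil p _ ν Ω _ _ L _ _ _ _ j jO _ (-f) (-chi K.1) hf.neg
          (Sm.chi K).neg.1 (by rw [Pool.Agent.R937.HZ.rst_neg]; exact hK4) h (fun x => by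
            rw [Finset.sum_congr rfl fun k _ => Pi.neg_apply f _, Finset.sum_neg_distrib, hs,
              Pi.neg_apply]) (fun k l hkl => hinj k l fun x => neg_injective (hkl x))
        have h3 : (fun k => av (Dec p ν j) (qf (-f) (-chi K.1) h k)) =
            fun k => av (Dec p ν j) (-qf f (chi K.1) h k) := by
          funext k
          congr 1
          fin_cases k <;> rfl
        rw [h3] at h2
        exact @h2)
      rw [Fin.sum_univ_four] at h1
      change DD j jO p ν (Ω := Ω) (fun x => f (x * h 0)) + DD j jO p ν (Ω := Ω) (fun x => f (x * h 1))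
        + DD j jO p ν (Ω := Ω) (fun x => f (x * h 2)) + DD j jO p ν (Ω := Ω) (-chi K.1) = 0 at h1
      rw [hneg, add_neg_eq_zero] at h1
      rw [Fin.sum_univ_three]
      exact h1
    · -- two of the functions are equal
      push Not at hinj
      obtain ⟨k, l, hkl, hne⟩ := hinj
      obtain ⟨m, hm1, hm2⟩ : ∃ m : Fin 3, m ≠ k ∧ m ≠ l :=
        (by decide : ∀ k l : Fin 3, ∃ m : Fin 3, m ≠ k ∧ m ≠ l) k l
      have h1 : ∀ x, f (x * h k) = chi K.1 x ∧ f (x * h m) = -chi K.1 x := by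
        intro x
        have h2 := hs x
        rw [sum_three (fun k => f (x * h k)) hne hm1 hm2] at h2
        have h3 := hkl x
        rcases hf.1.sign (x * h k) with h4 | h4 <;> rcases hf.1.sign (x * h m) with h5 | h5 <;>
          rcases hKs.sign x with h6 | h6 <;> rw [h6] at h2 ⊢ <;> rw [h4] at h3 ⊢ <;>
          rw [h5] at h2 ⊢ <;> rw [h4, ← h3] at h2 <;>
          first | (norm_num; done) | (exfalso; norm_num at h2; done)
      rw [sum_three (fun k => DD j jO p ν (Ω := Ω) fun x => f (x * h k)) hne hm1 hm2]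
      have e1 : (fun x => f (x * h k)) = chi K.1 := funext fun x => (h1 x).1
      have e2 : (fun x => f (x * h l)) = chi K.1 := funext fun x => by rw [← hkl, (h1 x).1]
      have e3 : (fun x => f (x * h m)) = -chi K.1 := funext fun x => (h1 x).2
      rw [e1, e2, e3, hneg, add_neg_cancel_right]
  · unfold DD
    have h1 : av (Dec p ν j) f = av (Dec p ν j) f' := funext hff
    rw [h1]
  · unfold DD
    have h1 : av (Dec p ν j) f = 0 := funext h0
    rw [h1, dl_zero, map_zero]

end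

end Pool.Agent.R937.PG
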