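import Pool.Agent.R937.PZ.Geo1
import Pool.Agent.R937.PZ.Defs

/-!
# Tate classes on abelian varieties with simple factors of dimension at most three
-/

set_option autoImplicit false
set_option linter.unusedSectionVars false
set_option linter.unusedVariables false

namespace Pool.Agent.R937.PG

open NumberField Pool.Agent.H204R3.CM Pool.Agent.W547.KB Pool.Agent.W547.LD Pool.Agent.W495.TA Module
  Pool.Agent.W495.TB Pool.Agent.W495.TC Pool.Agent.TH117.F5 Pool.Agent.TH117.BL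
  Pool.Agent.W976.TA Pool.Agent.W417.TA Pool.Agent.R937.BR
open Pool.Agent.R937.CS (av nD nD_pos nD_eq av_c tf_eq_av stabilizer_le index_stabilizer_le
  mem_core_iff)
open Pool.Agent.R937.HZ (Sm isHalf_of_sign chi isSign_chi)
open Pool.Agent.Y137.SF (AlgS AlgMS dl dl_neg dl_zero dcnt_eq_sum sg isSign_sg rst rst_sg mem_rst
  index_hs_le finrank_pairOf geo hsO isHalf_hsO tf_hsO index_hsO_le alg_of_fam isPowers_self)
open Pool.Agent.Y137.TV (lam lam_ne_zero)
open Pool.Agent.W333.TA (monoO_F_pow)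
open Pool.Agent.R937.TZ
open Pool.Agent.R937.PZ (Hyp1 Adm NO U1 rl_avgP)
open scoped TensorProduct

noncomputable section

variable {p : ℕ} [Fact p.Prime] {ν : PadicAlgCl p ≃+* ℂ} {Ω : Type} [Field Ω] [CharZero Ω]
  {L : Type} [Field L] [NumberField L] [IsCMField L] [IsGalois ℚ L] (j : L →+* ℂ) (jO : L →+* Ω)

/-- Inclusions between normal closures. -/
theorem closure_of_fix (A B : CMPair) (hA : BigA A j) (hB : BigA B j)
    (h : ∀ σ : L ≃ₐ[ℚ] L, (∀ φ' : A.E →+* L, σ • φ' = φ') → ∀ ψ : B.E →+* L, σ • ψ = ψ) :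
    IntermediateField.normalClosure ℚ B.E ℂ ≤ IntermediateField.normalClosure ℚ A.E ℂ := by
  let j' : L →ₐ[ℚ] ℂ := RingHom.equivRatAlgHom L ℂ j
  let U : IntermediateField ℚ L := (IntermediateField.normalClosure ℚ A.E ℂ).comap j'
  unfold IntermediateField.normalClosure
  refine iSup_le fun ψ' => ?_
  rintro _ ⟨x, rfl⟩
  obtain ⟨ψ, hψ⟩ := hB (ψ' : B.E →+* ℂ)
  have h1 : ψ x ∈ U := by
    rw [← IsGalois.fixedField_fixingSubgroup U, IntermediateField.mem_fixedField_iff]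
    intro σ hσ
    have h2 := h σ (fun φ' => by
      ext z
      refine (IntermediateField.mem_fixingSubgroup_iff _ σ).1 hσ _ ?_
      change j (φ' z) ∈ IntermediateField.normalClosure ℚ A.E ℂ
      let φ'' : A.E →ₐ[ℚ] ℂ := RingHom.equivRatAlgHom A.E ℂ (j.comp φ')
      have h3 : φ''.fieldRange ≤ IntermediateField.normalClosure ℚ A.E ℂ :=
        AlgHom.fieldRange_le_normalClosure φ''
      exact h3 ⟨z, rfl⟩) ψ
    exact RingHom.congr_fun h2 x
  have h4 : j (ψ x) = ψ' x := RingHom.congr_fun hψ x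
  change ψ' x ∈ IntermediateField.normalClosure ℚ A.E ℂ
  rw [← h4]
  exact h1

theorem closure_eq_of_core (A B : CMPair) (hA : BigA A j) (hB : BigA B j) (φ : A.E →+* L)
    (ψ : B.E →+* L)
    (h : (MulAction.stabilizer (L ≃ₐ[ℚ] L) φ).normalCore =
      (MulAction.stabilizer (L ≃ₐ[ℚ] L) ψ).normalCore) :
    IntermediateField.normalClosure ℚ A.E ℂ = IntermediateField.normalClosure ℚ B.E ℂ := by
  refine le_antisymm (closure_of_fix j B A hB hA fun σ hσ => ?_)
    (closure_of_fix j A B hA hB fun σ hσ => ?_)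
  · exact (mem_core_iff j A φ σ).1 (by rw [h]; exact (mem_core_iff j B ψ σ).2 hσ)
  · exact (mem_core_iff j B ψ σ).1 (by rw [← h]; exact (mem_core_iff j A φ σ).2 hσ)

/-- The stabilizer of a half system of index six. -/
theorem stab_eq_of_six (A : CMPair) (hA : BigA A j) (hdeg : finrank ℚ A.E ≤ 6) (φ : A.E →+* L)
    (h6 : (stab (hs A j φ)).index = 6) :
    stab (hs A j φ) = MulAction.stabilizer (L ≃ₐ[ℚ] L) φ := by
  have h7 := Subgroup.relIndex_mul_index (stabilizer_le j A φ)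
  have h8 := (index_stabilizer_le j A hA φ).trans hdeg
  have h9 : (MulAction.stabilizer (L ≃ₐ[ℚ] L) φ).relIndex (stab (hs A j φ)) ≠ 0 := fun h => by
    rw [h, zero_mul] at h7
    exact Subgroup.index_ne_zero_of_finite h7.symm
  rw [h6] at h7
  have h10 : (MulAction.stabilizer (L ≃ₐ[ℚ] L) φ).relIndex (stab (hs A j φ)) = 1 := by omega
  exact le_antisymm (Subgroup.relIndex_eq_one.1 h10) (stabilizer_le j A φ)

section slopes

variable (Y : RedAV p ν) (hY : Big Y.X j) (i : Y.X.I) (φ : (Y.X.factor i).E →+* L)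

include hY

theorem norm_pow_eq (σ : L ≃ₐ[ℚ] L) :
    ‖ν.symm (j (σ (φ (Y.π i))))‖ ^ (2 * (Nat.card (Dec p ν j) : ℤ)) =
      ‖(p : PadicAlgCl p)‖ ^ ((Y.a : ℤ) * ((Nat.card (Dec p ν j) : ℤ) +
        av (Dec p ν j) (sg (St j (⟨i, φ⟩ : Wt Y.X L))) σ)) := by
  have h1 := val_conj Pool.Agent.W366.TA.val (Y.X.factor i) (hY _) Y.a (Y.π i) (Y.frob i) φ σ
  rw [h1, tf_eq_av]
  rfl

theorem unit_iff (σ : L ≃ₐ[ℚ] L) : ‖ν.symm ((j.comp (σ • φ)) (Y.π i))‖ = 1 ↔
    av (Dec p ν j) (sg (St j (⟨i, φ⟩ : Wt Y.X L))) σ = -nD (Dec p ν j) := by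
  have h1 := norm_pow_eq j Y hY i φ σ
  have hcard : Nat.card (Dec p ν j) ≠ 0 := Nat.card_pos.ne'
  have ha : (Y.a : ℤ) ≠ 0 := by exact_mod_cast Y.pos.ne'
  change ‖ν.symm (j (σ (φ (Y.π i))))‖ = 1 ↔ _
  rw [nD_eq]
  constructor
  · intro h
    rw [h, one_zpow] at h1
    have h2 : ‖(p : PadicAlgCl p)‖ ^ (0 : ℤ) = ‖(p : PadicAlgCl p)‖ ^ ((Y.a : ℤ) *
        ((Nat.card (Dec p ν j) : ℤ) +
          av (Dec p ν j) (sg (St j (⟨i, φ⟩ : Wt Y.X L))) σ)) := by
      rw [zpow_zero]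
      exact h1
    have h3 := zpow_inj h2
    rcases mul_eq_zero.1 h3.symm with h4 | h4
    · exact absurd h4 ha
    · omega
  · intro h
    rw [h, add_neg_cancel, mul_zero, zpow_zero, zpow_mul, zpow_natCast] at h1
    have h2 := (pow_eq_one_iff_of_nonneg (by positivity) hcard).1 h1
    rw [zpow_ofNat] at h2
    exact (pow_eq_one_iff_of_nonneg (norm_nonneg _) two_ne_zero).1 h2

theorem top_iff (σ : L ≃ₐ[ℚ] L) :
    ‖ν.symm ((j.comp (σ • φ)) (Y.π i))‖ = ‖(p : PadicAlgCl p) ^ Y.a‖ ↔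
    av (Dec p ν j) (sg (St j (⟨i, φ⟩ : Wt Y.X L))) σ = nD (Dec p ν j) := by
  have h1 := norm_pow_eq j Y hY i φ σ
  have hcard : Nat.card (Dec p ν j) ≠ 0 := Nat.card_pos.ne'
  have ha : (Y.a : ℤ) ≠ 0 := by exact_mod_cast Y.pos.ne'
  change ‖ν.symm (j (σ (φ (Y.π i))))‖ = _ ↔ _
  rw [nD_eq, norm_pow]
  have e1 : (‖(p : PadicAlgCl p)‖ ^ Y.a) ^ (2 * (Nat.card (Dec p ν j) : ℤ)) =
      ‖(p : PadicAlgCl p)‖ ^ ((Y.a : ℤ) * (2 * (Nat.card (Dec p ν j) : ℤ))) := by
    rw [← zpow_natCast, ← zpow_mul]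
  constructor
  · intro h
    rw [h, e1] at h1
    have h2 := mul_left_cancel₀ ha (zpow_inj h1)
    omega
  · intro h
    have e2 : (2 * (Nat.card (Dec p ν j) : ℤ)) = ((2 * Nat.card (Dec p ν j) : ℕ) : ℤ) := by
      push_cast; ring
    have e3 : (Nat.card (Dec p ν j) : ℤ) + (Nat.card (Dec p ν j) : ℤ) =
      2 * (Nat.card (Dec p ν j) : ℤ) := by ring
    rw [h, e3, ← e1, e2, zpow_natCast, zpow_natCast] at h1
    exact (pow_left_inj₀ (norm_nonneg _) (by positivity) (by omega)).1 h1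

end slopes

include j in
/-- The stabilizer of an embedding of a Galois extension. -/
theorem normal_of_galois (A : CMPair) (φ : A.E →+* L) (h : IsGalois ℚ A.E) :
    (MulAction.stabilizer (L ≃ₐ[ℚ] L) φ).Normal := by
  have h1 : ∀ (φ' : A.E →+* L) (x : A.E), ∃ y, φ' x = φ y := by
    intro φ' x
    let _ : Algebra A.E L := φ.toAlgebra
    have : IsScalarTower ℚ A.E L := IsScalarTower.of_algebraMap_eq' (Subsingleton.elim _ _)
    let φa : A.E →ₐ[ℚ] L := RingHom.equivRatAlgHom A.E L φ'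
    refine ⟨φa.restrictNormal A.E x, ?_⟩
    have h2 := AlgHom.restrictNormal_commutes φa A.E x
    exact h2.symm
  have h2 : MulAction.stabilizer (L ≃ₐ[ℚ] L) φ ≤
      (MulAction.stabilizer (L ≃ₐ[ℚ] L) φ).normalCore := by
    intro σ hσ
    rw [mem_core_iff j]
    intro φ'
    ext x
    obtain ⟨y, hy⟩ := h1 φ' x
    change σ (φ' x) = φ' x
    rw [hy]
    exact RingHom.congr_fun (MulAction.mem_stabilizer_iff.1 hσ) y
  have h3 : MulAction.stabilizer (L ≃ₐ[ℚ] L) φ =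
      (MulAction.stabilizer (L ≃ₐ[ℚ] L) φ).normalCore :=
    le_antisymm h2 (Subgroup.normalCore_le _)
  rw [h3]
  infer_instance

/-- The functions that belong to the weights, and a function with average zero. -/
def TO (Y : RedAV p ν) (φ0 : (kp p).E →+* L) (f : (L ≃ₐ[ℚ] L) → ℤ) : Prop :=
  ∃ o : Option (Wt Y.X L), f = sg (hsO j Y.X φ0 o)

/-- The functions are admissible. -/
theorem adm (Y : RedAV p ν) (hY : Big Y.X j) (hkp : BigA (kp p) j) (φ0 : (kp p).E →+* L)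
    (h : SmallFactorsP Y) : Adm (cc L) (Dec p ν j) (TO j Y φ0) := by
  classical
  have hdim := h.degree
  have hhalf : ∀ w : Wt Y.X L, IsHalf (St j w) := fun w => isHalf_St (X := Y.X) j w
  have hsix : ∀ o : Option (Wt Y.X L), (rst (sg (hsO j Y.X φ0 o))).index = 6 →
      ∃ w : Wt Y.X L, sg (hsO j Y.X φ0 o) = sg (St j w) ∧
        finrank ℚ (Y.X.factor w.1).E = 6 ∧
        rst (sg (St j w)) = MulAction.stabilizer (L ≃ₐ[ℚ] L) w.2 := by
    intro o h
    rcases o with _ | w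
    · exfalso
      rw [rst_sg] at h
      have h1 := index_hs_le j (kp p) hkp φ0
      rw [finrank_kp] at h1
      have h2 : (stab (hs (kp p) j φ0)).index = 6 := h
      omega
    · refine ⟨w, rfl, ?_⟩
      rw [rst_sg] at h ⊢
      have h1 := index_hs_le j (Y.X.factor w.1) (hY w.1) w.2
      have h2 := hdim w.1
      have h3 : (stab (hs (Y.X.factor w.1) j w.2)).index = 6 := h
      exact ⟨by omega, stab_eq_of_six j (Y.X.factor w.1) (hY w.1) h2 w.2 h3⟩
  have hfin : ∀ i, Finite ((Y.X.factor i).E →+* ℂ) := fun i => inferInstance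
  have hpos := nD_pos (Dec p ν j)
  have hsc : ∀ w : Wt Y.X L, ∀ x, av (Dec p ν j) (sg (St j w)) (cc L * x) =
      -av (Dec p ν j) (sg (St j w)) x := fun w x =>
    av_c (Dec p ν j) (cc L) (fun g => cc_comm j g) (isSign_sg (hhalf w)) x
  refine ⟨?_, ?_⟩
  · rintro f ⟨o, rfl⟩
    refine ⟨isSign_sg (isHalf_hsO j Y.X φ0 o), ?_⟩
    rw [rst_sg]
    exact index_hsO_le j hkp Y.X hY φ0 (by norm_num) hdim o
  · rintro f f' ⟨o, rfl⟩ ⟨o', rfl⟩ hi hi' hcore hnn
    obtain ⟨⟨i, φ⟩, e1, h6, hst⟩ := hsix _ hi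
    obtain ⟨⟨k, φ'⟩, e2, h6', hst'⟩ := hsix _ hi'
    rw [e1, e2] at hcore
    rw [e1] at hnn
    rw [e1, e2]
    rw [hst, hst'] at hcore
    rw [hst] at hnn
    have hclos := closure_eq_of_core j (Y.X.factor i) (Y.X.factor k) (hY i) (hY k) φ φ' hcore
    rcases h.closure i k h6 h6' hclos with h1 | h1 | h1 | h1 | ⟨h1, h1', hmix⟩
    · exact absurd (normal_of_galois j (Y.X.factor i) φ h1) hnn
    · left
      intro x
      have h2 := tf_zero Pool.Agent.W366.TA.val hY i h1 φ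
      rw [tf_eq_av] at h2
      exact congrFun h2 x
    · right; left
      intro x
      have h2 := tf_zero Pool.Agent.W366.TA.val hY k h1 φ'
      rw [tf_eq_av] at h2
      exact congrFun h2 x
    · right; right; left
      obtain ⟨φ1, h2⟩ := tf_iso Pool.Agent.W366.TA.val hY i k h1 φ'
      obtain ⟨τ, rfl⟩ := (setting j (Y.X.factor i)).trans φ φ1
      rw [tf_eq_av, tf_eq_av] at h2
      refine ⟨1, τ, Or.inl rfl, fun x => ?_⟩
      have h3 := congrFun h2 x
      rw [one_mul]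
      refine Eq.trans (show av (Dec p ν j) (sg (St j (⟨k, φ'⟩ : Wt Y.X L))) x =
        av (Dec p ν j) (sg (hs (Y.X.factor i) j (τ • φ))) x from h3.symm) ?_
      rw [← Pool.Agent.W417.TA.tr_hs', ← av_shift]
      rfl
    · right; right; right
      have hNO : ∀ (i : Y.X.I) (φ : (Y.X.factor i).E →+* L), ¬ IsOrdinary Y i →
          NO (Dec p ν j) (sg (St j (⟨i, φ⟩ : Wt Y.X L))) := by
        intro i φ h1
        unfold IsOrdinary at h1
        push Not at h1
        obtain ⟨ψ, h2, h3⟩ := h1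
        obtain ⟨φ', rfl⟩ := hY i ψ
        obtain ⟨σ, rfl⟩ := (setting j (Y.X.factor i)).trans φ φ'
        exact ⟨σ, fun h => h3 ((top_iff j Y hY i φ σ).2 h),
          fun h => h2 ((unit_iff j Y hY i φ σ).2 h)⟩
      refine ⟨hNO i φ h1, hNO k φ' h1', fun hx hU => ?_⟩
      obtain ⟨x0, hx0⟩ := hx
      have hneg : ∀ (w : Wt Y.X L) x, av (Dec p ν j) (sg (St j w)) x = -nD (Dec p ν j) →
          av (Dec p ν j) (sg (St j w)) (cc L * x) = nD (Dec p ν j) := by
        intro w x h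
        rw [hsc, h, neg_neg]
      have hone : pRank Y i = 1 := by
        refine Nat.card_eq_one_iff_unique.2 ⟨⟨?_⟩, ⟨⟨j.comp ((cc L * x0) • φ), ?_⟩⟩⟩
        · rintro ⟨ψ1, h1⟩ ⟨ψ2, h2⟩
          obtain ⟨φ1, rfl⟩ := hY i ψ1
          obtain ⟨φ2, rfl⟩ := hY i ψ2
          obtain ⟨σ1, rfl⟩ := (setting j (Y.X.factor i)).trans φ φ1
          obtain ⟨σ2, rfl⟩ := (setting j (Y.X.factor i)).trans φ φ2
          have h3 := hneg _ _ ((unit_iff j Y hY i φ σ1).1 h1)
          have h4 := hneg _ _ ((unit_iff j Y hY i φ σ2).1 h2)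
          have h5 := hU _ _ h3 h4
          rw [hst] at h5
          have h7 : (cc L * σ1)⁻¹ * (cc L * σ2) = σ1⁻¹ * σ2 := by group
          rw [h7] at h5
          have h8 := MulAction.mem_stabilizer_iff.1 h5
          rw [mul_smul, inv_smul_eq_iff] at h8
          refine Subtype.ext ?_
          change j.comp (σ1 • φ) = j.comp (σ2 • φ)
          rw [h8]
        · rw [unit_iff j Y hY i φ, hsc, hx0]
      have hle := hmix hone
      intro x y hx hy
      have hsub : Subsingleton {ψ : (Y.X.factor k).E →+* ℂ // ‖ν.symm (ψ (Y.π k))‖ = 1} :=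
        Finite.card_le_one_iff_subsingleton.1 hle
      have h1 : ‖ν.symm ((j.comp ((cc L * x) • φ')) (Y.π k))‖ = 1 := by
        rw [unit_iff j Y hY k φ', hsc, hx]
      have h2 : ‖ν.symm ((j.comp ((cc L * y) • φ')) (Y.π k))‖ = 1 := by
        rw [unit_iff j Y hY k φ', hsc, hy]
      have h3 : j.comp ((cc L * x) • φ') = j.comp ((cc L * y) • φ') :=
        congrArg Subtype.val (Subsingleton.elim (α := {ψ : (Y.X.factor k).E →+* ℂ //
          ‖ν.symm (ψ (Y.π k))‖ = 1}) ⟨_, h1⟩ ⟨_, h2⟩)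
      have h4 : (cc L * x) • φ' = (cc L * y) • φ' := by
        ext z
        exact j.injective (RingHom.congr_fun h3 z)
      rw [hst', MulAction.mem_stabilizer_iff]
      rw [mul_smul, mul_smul] at h4
      rw [mul_smul, inv_smul_eq_iff]
      exact (MulAction.injective (cc L) h4).symm

/-- **Balanced families.** -/
theorem fam [IsAlgClosed Ω] (Z : RedAV p ν) (h : SmallFactorsP Z) (hZ : Big Z.X j)
    (hkp : BigA (kp p) j) : Fam (AlgMS {4, 6} p ν j jO) (tw p ν j Z.X) := by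
  classical
  intro κ _ o hsum heven
  obtain ⟨ψ⟩ : Nonempty ((kp p).E →+* ℂ) := inferInstance
  obtain ⟨φ0, -⟩ := hkp ψ
  have hT := adm j Z hZ hkp φ0 h
  have e0 : ∀ k, ext0 (tw p ν j Z.X) (o k) = av (Dec p ν j) (sg (hsO j Z.X φ0 (o k))) := by
    intro k
    rw [← tf_hsO, tf_eq_av]
  have hgen : GenD (QT (A0 p ν Ω) j jO) (RT p ν j)
      (dcnt fun k => av (Dec p ν j) (sg (hsO j Z.X φ0 (o k)))) := by
    have h1 := rl_avgP (fun g => cc_comm j g) cc_cc hT (hyp1T j jO (Ω := Ω) (ν := ν)) κ (fun _ => 1)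
      (fun k => sg (hsO j Z.X φ0 (o k))) (fun k => ⟨o k, rfl⟩) (fun σ => by
      rw [← hsum σ]
      exact Finset.sum_congr rfl fun k _ => by rw [e0, one_mul])
    have h3 : ∑ k, (1 : ℤ) • DD j jO p ν (Ω := Ω) (sg (hsO j Z.X φ0 (o k))) =
        QuotientAddGroup.mk' (NT j jO (A0 p ν Ω))
          (dcnt fun k => av (Dec p ν j) (sg (hsO j Z.X φ0 (o k)))) := by
      rw [dcnt_eq_sum, map_sum]
      exact Finset.sum_congr rfl fun k _ => one_smul _ _
    rw [h3] at h1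
    exact (QuotientAddGroup.eq_zero_iff _).1 h1
  have hcan : ∀ g ∈ RT p ν j, PairCancel (L ≃ₐ[ℚ] L) (QT (A0 p ν Ω) j jO) g := by
    rintro g ⟨f, hf, rfl⟩
    rw [← tf_sign j hf.1]
    exact cancelS (A0 p ν Ω) j jO _ (isHalf_of_sign hf.1)
  have hSm : QT (A0 p ν Ω) j jO κ (fun k => av (Dec p ν j) (sg (hsO j Z.X φ0 (o k)))) :=
    @of_genD _ _ (RT p ν j) (closedS (A0 p ν Ω) j jO) hcan κ _
      (fun k => av (Dec p ν j) (sg (hsO j Z.X φ0 (o k)))) (fun k => ⟨_, hT.sm _ ⟨o k, rfl⟩, rfl⟩)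
      (by rw [Nat.card_eq_fintype_card]; exact heven) hgen
  have h5 : (fun k => ext0 (tw p ν j Z.X) (o k)) =
      fun k => av (Dec p ν j) (sg (hsO j Z.X φ0 (o k))) := funext e0
  rw [h5]
  exact @hSm

omit [IsCMField L] [IsGalois ℚ L] in
/-- **The Tate classes on abelian varieties with small factors.** -/
theorem main [IsAlgClosed Ω] {Y : RedAV p ν} (hY : IsGoodAVP Y) (s m : ℕ) (hs : 0 < s)
    (f : (TM Ω Y) [⋀^Fin (2 * m)]→ₗ[Ω] Ω) (hf : IsTateClass Ω Y s m f) :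
    AlgS Ω {4, 6} Y (Fin (2 * m)) f := by
  rcases hY with hY | ⟨Z, hZ, hY⟩
  · exact Pool.Agent.Y137.SF.fiveS Ω Y hY s m hs f hf
  · exact alg_of_fam {4, 6} Z Ω (fun L _ _ _ _ j jO hZj hkp => fam j jO Z hZ hZj hkp) Y hY s m hs f hf

end

end Pool.Agent.R937.PG
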