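import Pool.Agent.R937.PZ.Geo2

/-!
# Schemes over finite fields generated by abelian varieties with small simple factors
-/

set_option autoImplicit false

namespace Pool.Agent.R937.PG

open Pool.Agent.W495.TA Pool.Agent.W495.FM Pool.Agent.Y137.GN

variable {p : ℕ} [Fact p.Prime] {ν : PadicAlgCl p ≃+* ℂ} {Ω : Type} [Field Ω] [IsAlgClosed Ω]
  [CharZero Ω]

theorem tateHolds_goodP {Y : RedAV p ν} {C : Cycles Ω Y} (hY : IsGoodAVP Y) (hC : IsChowS C) :
    TateHolds C :=
  fun j f hf => hC.algebraicS j f (main hY 1 j one_pos f hf) hf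

variable {V : Type} {T : Homology Ω V}

theorem tb_goodP (hT : IsHomology T) {X : V} (hX : Generated T (IsGoodAbelianP p ν T) X) :
    TB T X := by
  refine tb_generated hT (fun X hX => ?_) hX
  obtain ⟨Y, C, M, g, hY, hC, hM, hX⟩ := hX
  exact tb_abelian hT hC.isChow (tateHolds_goodP hY hC) hM hX

theorem isoAbove_goodP (hT : IsHomology T) (hW : HasWeights T) :
    IsoAbove T (IsGoodAbelianP p ν T) := fun _ _ _ _ h hX hZ i hi =>
  iso_opened hT hW h (onto_of_dim hT hZ hi) ((tb_goodP hT hX).iso hT i)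

theorem onto_spread_goodP (hT : IsHomology T) (hW : HasWeights T) {X : V}
    (hX : Spread T (fun X => Generated T (IsGoodAbelianP p ν T) X ∨ ∀ i, IsOnto T X i) X) (i : ℤ) :
    IsOnto T X i := by
  refine onto_spread hT hW (fun X h i => ?_) hX i
  rcases h with h | h
  · exact ((tb_goodP hT h).iso hT i).1
  · exact h i

end Pool.Agent.R937.PG
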