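import Pool.Agent.R937.PZ.Cl

/-!
# Averages of non-ordinary functions with the same label on a subgroup of index three
-/

set_option autoImplicit false
set_option linter.unusedSectionVars false
set_option linter.unusedVariables false

namespace Pool.Agent.R937.PZ

open Pool.Agent.W495.TA (IsSign)
open Pool.Agent.Y137.SF (rst mem_rst)
open Pool.Agent.R937.HZ
open Pool.Agent.R937.CS (av nD nD_pos av_left av_c)
open Pool.Agent.R937.TZ

noncomputable section

variable {G : Type} [Group G] [Fintype G] {c : G} {E : Subgroup G}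

/-- The function is not ordinary. -/
def NO (E : Subgroup G) (f : G → ℤ) : Prop := ∃ x, av E f x ≠ nD E ∧ av E f x ≠ -nD E

/-- Three different cosets of a subgroup of index three are all cosets. -/
theorem three_cosets {B : Subgroup G} (hB : B.index = 3) (v : Fin 3 → G)
    (hv : ∀ i k, i ≠ k → (v i)⁻¹ * v k ∉ B) (x : G) : ∃ i, (v i)⁻¹ * x ∈ B := by
  classical
  let w : Fin 3 → G ⧸ B := fun i => ((v i : G) : G ⧸ B)
  have hw : Function.Injective w := by
    intro i k h
    by_contra h1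
    exact hv i k h1 (QuotientGroup.eq.1 h)
  have hwb : Function.Bijective w := by
    refine hw.bijective_of_nat_card_le ?_
    rw [Nat.card_eq_fintype_card (α := Fin 3), Fintype.card_fin, ← Subgroup.index_eq_card, hB]
  obtain ⟨i, hi⟩ := hwb.2 (x : G ⧸ B)
  exact ⟨i, QuotientGroup.eq.1 hi⟩

theorem exists_reps {B : Subgroup G} (hB : B.index = 3) :
    ∃ v : Fin 3 → G, ∀ i k, i ≠ k → (v i)⁻¹ * v k ∉ B := by
  classical
  have h3 : Nat.card (G ⧸ B) = 3 := by rw [← Subgroup.index_eq_card, hB]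
  let φ : Fin 3 ≃ G ⧸ B := (Finite.equivFinOfCardEq h3).symm
  refine ⟨fun i => (φ i).out, fun i k hik h => hik ?_⟩
  have h1 := QuotientGroup.eq.2 h
  rw [QuotientGroup.out_eq', QuotientGroup.out_eq'] at h1
  exact φ.injective h1

/-- A combinatorial lemma. -/
theorem comb3 (a a' : Fin 3 → ℤ) (N : ℤ)
    (h : ∀ i, (a i = 0 ∧ a' i = 0) ∨ (a i * a i = N * N ∧ a' i = a i) ∨
      (a i * a i = N * N ∧ a' i = -a i)) (hz : ∃ i, a i * a i ≠ N * N) :
    (∀ i, a' i = a i) ∨ (∀ i, a' i = -a i) ∨ ∑ i, a i * a' i = 0 := by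
  have hsum : ∑ i, a i * a' i = a 0 * a' 0 + a 1 * a' 1 + a 2 * a' 2 := Fin.sum_univ_three _
  rw [hsum]
  rcases h 0 with ⟨h0, h0'⟩ | ⟨h0, h0'⟩ | ⟨h0, h0'⟩ <;>
    rcases h 1 with ⟨h1, h1'⟩ | ⟨h1, h1'⟩ | ⟨h1, h1'⟩ <;>
    rcases h 2 with ⟨h2, h2'⟩ | ⟨h2, h2'⟩ | ⟨h2, h2'⟩ <;>
    first
    | (left; intro i; fin_cases i <;> simp_all; done)
    | (right; left; intro i; fin_cases i <;> simp_all; done)
    | (exfalso; obtain ⟨i, hi⟩ := hz; fin_cases i <;> contradiction)
    | (right; right; rw [h0', h1', h2']; simp only [h0, h1, h2, mul_neg, mul_zero]; ring1)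

section reps

variable {B : Subgroup G}

/-- Sums over the cosets. -/
theorem sum_reps (v : Fin 3 → G) (hv : ∀ i k, i ≠ k → (v i)⁻¹ * v k ∉ B)
    (hc : ∀ x, ∃ i, (v i)⁻¹ * x ∈ B) (p : G → ℤ) (hp : ∀ x, ∀ b ∈ B, p (x * b) = p x) :
    ∃ n : ℤ, ∑ x, p x = n * ∑ i, p (v i) := by
  classical
  refine ⟨∑ x : G, if x ∈ B then 1 else 0, ?_⟩
  have huniq : ∀ x i k, (v i)⁻¹ * x ∈ B → (v k)⁻¹ * x ∈ B → i = k := by
    intro x i k hi hk
    by_contra h
    apply hv i k h
    have h1 : (v i)⁻¹ * v k = (v i)⁻¹ * x * ((v k)⁻¹ * x)⁻¹ := by group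
    rw [h1]
    exact B.mul_mem hi (B.inv_mem hk)
  have h1 : ∀ x, p x = ∑ i, if (v i)⁻¹ * x ∈ B then p (v i) else 0 := by
    intro x
    obtain ⟨i, hi⟩ := hc x
    rw [Finset.sum_eq_single i]
    · rw [if_pos hi]
      have h2 := hp (v i) _ hi
      rw [mul_inv_cancel_left] at h2
      exact h2
    · intro k _ hk
      rw [if_neg fun h => hk (huniq x k i h hi)]
    · intro h
      exact absurd (Finset.mem_univ _) h
  rw [Finset.sum_congr rfl fun x _ => h1 x, Finset.sum_comm, Finset.mul_sum]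
  refine Finset.sum_congr rfl fun i _ => ?_
  rw [← Equiv.sum_comp (Equiv.mulLeft (v i)) fun x => if (v i)⁻¹ * x ∈ B then p (v i) else 0,
    Finset.sum_mul]
  refine Finset.sum_congr rfl fun x _ => ?_
  rw [Equiv.coe_mulLeft, inv_mul_cancel_left]
  by_cases h : x ∈ B
  · rw [if_pos h, if_pos h, one_mul]
  · rw [if_neg h, if_neg h, zero_mul]

end reps

variable (hcomm : ∀ g, c * g = g * c) (hc2 : c * c = 1)

/-- The values of the averages. -/
theorem av_reps {B : Subgroup G} {n : ℕ} (e : Fin n → G) (he : ∀ i, e i ∈ E) (x : G)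
    (hcov : ∀ d ∈ E, ∃ i, (e i * x)⁻¹ * (d * x) ∈ B)
    (hdis : ∀ i k, i ≠ k → (e i * x)⁻¹ * (e k * x) ∉ B) {f : G → ℤ} (hf : IsSign c f)
    (hVB : B ≤ VV c hcomm hc2 (rst f))
    (hun : ∀ d ∈ E, x⁻¹ * d * x ∈ B → f 1 * f (x⁻¹ * d * x) = 1) :
    n * av E f x = nD E * ∑ i, f (e i * x) := by
  classical
  have huniq : ∀ d i k, (e i * x)⁻¹ * (d * x) ∈ B → (e k * x)⁻¹ * (d * x) ∈ B → i = k := by
    intro d i k hi hk
    by_contra h
    apply hdis i k h
    have h1 : (e i * x)⁻¹ * (e k * x) = (e i * x)⁻¹ * (d * x) * ((e k * x)⁻¹ * (d * x))⁻¹ := by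
      group
    rw [h1]
    exact B.mul_mem hi (B.inv_mem hk)
  set n0 : ℤ := ∑ d : G, if d ∈ E ∧ x⁻¹ * d * x ∈ B then 1 else 0 with hn0
  have h1 : ∀ i, ∑ d : G, (if d ∈ E ∧ (e i * x)⁻¹ * (d * x) ∈ B then (1 : ℤ) else 0) = n0 := by
    intro i
    rw [← Equiv.sum_comp (Equiv.mulLeft (e i))]
    refine Finset.sum_congr rfl fun d _ => ?_
    rw [Equiv.coe_mulLeft, E.mul_mem_cancel_left (he i)]
    have h2 : (e i * x)⁻¹ * (e i * d * x) = x⁻¹ * d * x := by group
    rw [h2]
  have h2 : ∀ (F : Fin n → ℤ), ∑ d : G, ∑ i,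
      (if d ∈ E ∧ (e i * x)⁻¹ * (d * x) ∈ B then F i else 0) = n0 * ∑ i, F i := by
    intro F
    rw [Finset.sum_comm, Finset.mul_sum]
    refine Finset.sum_congr rfl fun i _ => ?_
    rw [← h1 i, Finset.sum_mul]
    refine Finset.sum_congr rfl fun d _ => ?_
    split_ifs
    · rw [one_mul]
    · rw [zero_mul]
  have h3 : ∀ (F : Fin n → ℤ) (g : G → ℤ), (∀ d ∈ E, ∀ i, (e i * x)⁻¹ * (d * x) ∈ B → g d = F i) →
      ∑ d : G, (if d ∈ E then g d else 0) = n0 * ∑ i, F i := by
    intro F g hg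
    rw [← h2]
    refine Finset.sum_congr rfl fun d _ => ?_
    by_cases hd : d ∈ E
    · obtain ⟨i, hi⟩ := hcov d hd
      rw [if_pos hd, Finset.sum_eq_single i]
      · rw [if_pos ⟨hd, hi⟩, hg d hd i hi]
      · intro k _ hk
        rw [if_neg fun h => hk (huniq d k i h.2 hi)]
      · intro h
        exact absurd (Finset.mem_univ _) h
    · rw [if_neg hd]
      symm
      exact Finset.sum_eq_zero fun i _ => if_neg fun h => hd h.1
  have h4 : av E f x = n0 * ∑ i, f (e i * x) := by
    unfold av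
    refine h3 _ (fun d => f (d * x)) fun d hd i hi => ?_
    have h5 := semi hcomm hc2 hf (hVB hi) (e i * x)
    rw [mul_inv_cancel_left] at h5
    have h6 : (e i * x)⁻¹ * (d * x) = x⁻¹ * ((e i)⁻¹ * d) * x := by group
    rw [h5, h6, hun _ (E.mul_mem (E.inv_mem (he i)) hd) (by rw [← h6]; exact hi), one_mul]
  have h5 : nD E = n0 * n := by
    unfold nD
    have h6 := h3 (fun _ => 1) (fun _ => 1) fun d hd i hi => rfl
    rw [h6, Finset.sum_const, Finset.card_univ, Fintype.card_fin, nsmul_one]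
  rw [h4, h5]
  ring

/-- The case of a twist. -/
theorem av_twist {B : Subgroup G} {x d : G} (hd : d ∈ E) (hx : x⁻¹ * d * x ∈ B) {f : G → ℤ}
    (hf : IsSign c f) (hVB : B ≤ VV c hcomm hc2 (rst f)) (h : f 1 * f (x⁻¹ * d * x) = -1) :
    av E f x = 0 := by
  have h1 := av_semi (E := E) hcomm hc2 hf (hVB hx) x
  have h2 : x * (x⁻¹ * d * x) = d * x := by group
  rw [h2, h, av_left E f hd] at h1
  omega

/-- The orbits. -/
theorem orb_cases (E B : Subgroup G) (x : G) : (∀ d ∈ E, x⁻¹ * d * x ∈ B) ∨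
    (∃ e ∈ E, x⁻¹ * e * x ∉ B ∧ ∀ d ∈ E, x⁻¹ * d * x ∈ B ∨ (e * x)⁻¹ * (d * x) ∈ B) ∨
    ∃ e ∈ E, ∃ e' ∈ E, x⁻¹ * e * x ∉ B ∧ x⁻¹ * e' * x ∉ B ∧ (e * x)⁻¹ * (e' * x) ∉ B := by
  by_cases h1 : ∀ d ∈ E, x⁻¹ * d * x ∈ B
  · exact Or.inl h1
  · push Not at h1
    obtain ⟨e, he, h2⟩ := h1
    right
    by_cases h3 : ∀ d ∈ E, x⁻¹ * d * x ∈ B ∨ (e * x)⁻¹ * (d * x) ∈ B
    · exact Or.inl ⟨e, he, h2, h3⟩
    · push Not at h3
      obtain ⟨e', he', h4, h5⟩ := h3
      exact Or.inr ⟨e, he, e', he', h2, h4, h5⟩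

section val

variable {B : Subgroup G} {f : G → ℤ} (hf : IsSign c f) (hVB : B ≤ VV c hcomm hc2 (rst f)) {x : G}

include hf

theorem val_one (h : ∀ d ∈ E, x⁻¹ * d * x ∈ B) (hVB : B ≤ VV c hcomm hc2 (rst f))
    (hun : ∀ d ∈ E, x⁻¹ * d * x ∈ B → f 1 * f (x⁻¹ * d * x) = 1) :
    av E f x = nD E * f x := by
  have h1 := av_reps (E := E) hcomm hc2 ![1] (by
    intro i
    fin_cases i
    exact E.one_mem) x (fun d hd => ⟨0, by
      change (1 * x)⁻¹ * (d * x) ∈ B
      have h2 : (1 * x)⁻¹ * (d * x) = x⁻¹ * d * x := by group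
      rw [h2]
      exact h d hd⟩) (by
    intro i k hik
    exact absurd (Subsingleton.elim i k) hik) hf hVB hun
  rw [Fin.sum_univ_one] at h1
  change ((1 : ℕ) : ℤ) * av E f x = nD E * f (1 * x) at h1
  rw [one_mul, Nat.cast_one, one_mul] at h1
  exact h1

theorem val_two {e : G} (he : e ∈ E) (hne : x⁻¹ * e * x ∉ B)
    (h : ∀ d ∈ E, x⁻¹ * d * x ∈ B ∨ (e * x)⁻¹ * (d * x) ∈ B)
    (hVB : B ≤ VV c hcomm hc2 (rst f))
    (hun : ∀ d ∈ E, x⁻¹ * d * x ∈ B → f 1 * f (x⁻¹ * d * x) = 1) :
    2 * av E f x = nD E * (f x + f (e * x)) := by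
  have e1 : (1 * x)⁻¹ * (e * x) = x⁻¹ * e * x := by group
  have e2 : (e * x)⁻¹ * (1 * x) = (x⁻¹ * e * x)⁻¹ := by group
  have h1 := av_reps (E := E) hcomm hc2 ![1, e] (by
    intro i
    fin_cases i
    · exact E.one_mem
    · exact he) x (fun d hd => by
      rcases h d hd with h2 | h2
      · refine ⟨0, ?_⟩
        change (1 * x)⁻¹ * (d * x) ∈ B
        have h3 : (1 * x)⁻¹ * (d * x) = x⁻¹ * d * x := by group
        rw [h3]
        exact h2
      · exact ⟨1, h2⟩) (by
    intro i k hik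
    fin_cases i <;> fin_cases k <;> first | exact absurd rfl hik | skip
    · change (1 * x)⁻¹ * (e * x) ∉ B
      rw [e1]
      exact hne
    · change (e * x)⁻¹ * (1 * x) ∉ B
      rw [e2]
      exact fun h' => hne ((B.inv_mem_iff).1 h')) hf hVB hun
  rw [Fin.sum_univ_two] at h1
  change ((2 : ℕ) : ℤ) * av E f x = nD E * (f (1 * x) + f (e * x)) at h1
  rw [one_mul] at h1
  exact_mod_cast h1

theorem val_three (hB : B.index = 3) {e e' : G} (he : e ∈ E) (he' : e' ∈ E)
    (h1 : x⁻¹ * e * x ∉ B) (h2 : x⁻¹ * e' * x ∉ B) (h3 : (e * x)⁻¹ * (e' * x) ∉ B)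
    (hVB : B ≤ VV c hcomm hc2 (rst f))
    (hun : ∀ d ∈ E, x⁻¹ * d * x ∈ B → f 1 * f (x⁻¹ * d * x) = 1) :
    3 * av E f x = nD E * (f x + f (e * x) + f (e' * x)) := by
  have e1 : (1 * x)⁻¹ * (e * x) = x⁻¹ * e * x := by group
  have e2 : (e * x)⁻¹ * (1 * x) = (x⁻¹ * e * x)⁻¹ := by group
  have e3 : (1 * x)⁻¹ * (e' * x) = x⁻¹ * e' * x := by group
  have e4 : (e' * x)⁻¹ * (1 * x) = (x⁻¹ * e' * x)⁻¹ := by group
  have e5 : (e' * x)⁻¹ * (e * x) = ((e * x)⁻¹ * (e' * x))⁻¹ := by group
  have hd : ∀ i k : Fin 3, i ≠ k → (![1, e, e'] i * x)⁻¹ * (![1, e, e'] k * x) ∉ B := by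
    intro i k hik
    fin_cases i <;> fin_cases k <;> first | exact absurd rfl hik | skip
    · change (1 * x)⁻¹ * (e * x) ∉ B
      rw [e1]
      exact h1
    · change (1 * x)⁻¹ * (e' * x) ∉ B
      rw [e3]
      exact h2
    · change (e * x)⁻¹ * (1 * x) ∉ B
      rw [e2]
      exact fun h' => h1 ((B.inv_mem_iff).1 h')
    · exact h3
    · change (e' * x)⁻¹ * (1 * x) ∉ B
      rw [e4]
      exact fun h' => h2 ((B.inv_mem_iff).1 h')
    · change (e' * x)⁻¹ * (e * x) ∉ B
      rw [e5]
      exact fun h' => h3 ((B.inv_mem_iff).1 h')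
  have h4 := av_reps (E := E) hcomm hc2 ![1, e, e'] (by
    intro i
    fin_cases i
    · exact E.one_mem
    · exact he
    · exact he') x (fun d _ => three_cosets hB _ hd (d * x)) hd hf hVB hun
  rw [Fin.sum_univ_three] at h4
  change ((3 : ℕ) : ℤ) * av E f x = nD E * (f (1 * x) + f (e * x) + f (e' * x)) at h4
  rw [one_mul] at h4
  exact_mod_cast h4

end val

/-- **Two averages of non-ordinary functions with the same label on a subgroup of index three are
equal up to the sign or orthogonal.** -/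
theorem orth_of_label {B : Subgroup G} (hB : B.index = 3) {f f' : G → ℤ} (hf : IsSign c f)
    (hf' : IsSign c f') (hVB : B ≤ VV c hcomm hc2 (rst f)) (hVB' : B ≤ VV c hcomm hc2 (rst f'))
    (hl : lab B f' = lab B f) (hno : NO E f) (hno' : NO E f') :
    (∀ x, av E f' x = av E f x) ∨ (∀ x, av E f' x = -av E f x) ∨
      ∑ x, av E f x * av E f' x = 0 := by
  classical
  have hN := nD_pos E
  have hlab : ∀ b ∈ B, f' 1 * f' b = f 1 * f b := fun b hb => congrFun hl ⟨b, hb⟩
  have hsg : ∀ b ∈ B, f 1 * f b = 1 ∨ f 1 * f b = -1 := by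
    intro b hb
    rcases hf.sign 1 with h | h <;> rcases hf.sign b with h' | h' <;> rw [h, h'] <;> norm_num
  have hr : ∀ x, ∀ b ∈ B, av E f (x * b) = f 1 * f b * av E f x := fun x b hb =>
    av_semi hcomm hc2 hf (hVB hb) x
  have hr' : ∀ x, ∀ b ∈ B, av E f' (x * b) = f 1 * f b * av E f' x := fun x b hb => by
    rw [av_semi hcomm hc2 hf' (hVB' hb) x, hlab b hb]
  -- from representatives to all elements
  have ext : ∀ (v : Fin 3 → G), (∀ i k, i ≠ k → (v i)⁻¹ * v k ∉ B) →
      (∃ i, av E f (v i) * av E f (v i) ≠ nD E * nD E) ∧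
      (∃ i, av E f' (v i) * av E f' (v i) ≠ nD E * nD E) := by
    intro v hv
    have hc := three_cosets hB v hv
    refine ⟨?_, ?_⟩
    · by_contra hcon
      push Not at hcon
      obtain ⟨x, hx1, hx2⟩ := hno
      obtain ⟨i, hi⟩ := hc x
      have h1 := hr (v i) _ hi
      rw [mul_inv_cancel_left] at h1
      have h2 := hcon i
      have h3 : av E f x * av E f x = nD E * nD E := by
        rw [h1, ← h2]
        rcases hsg _ hi with h | h <;> rw [h] <;> ring
      rcases mul_self_eq_mul_self_iff.1 h3 with h | h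
      · exact hx1 h
      · exact hx2 h
    · by_contra hcon
      push Not at hcon
      obtain ⟨x, hx1, hx2⟩ := hno'
      obtain ⟨i, hi⟩ := hc x
      have h1 := hr' (v i) _ hi
      rw [mul_inv_cancel_left] at h1
      have h2 := hcon i
      have h3 : av E f' x * av E f' x = nD E * nD E := by
        rw [h1, ← h2]
        rcases hsg _ hi with h | h <;> rw [h] <;> ring
      rcases mul_self_eq_mul_self_iff.1 h3 with h | h
      · exact hx1 h
      · exact hx2 h
  have fin : ∀ (v : Fin 3 → G), (∀ i k, i ≠ k → (v i)⁻¹ * v k ∉ B) →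
      ((∀ i, av E f' (v i) = av E f (v i)) ∨ (∀ i, av E f' (v i) = -av E f (v i)) ∨
        ∑ i, av E f (v i) * av E f' (v i) = 0) →
      (∀ x, av E f' x = av E f x) ∨ (∀ x, av E f' x = -av E f x) ∨
        ∑ x, av E f x * av E f' x = 0 := by
    intro v hv h
    have hc := three_cosets hB v hv
    rcases h with h | h | h
    · left
      intro x
      obtain ⟨i, hi⟩ := hc x
      have h1 := hr (v i) _ hi
      have h2 := hr' (v i) _ hi
      rw [mul_inv_cancel_left] at h1 h2
      rw [h1, h2, h]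
    · right; left
      intro x
      obtain ⟨i, hi⟩ := hc x
      have h1 := hr (v i) _ hi
      have h2 := hr' (v i) _ hi
      rw [mul_inv_cancel_left] at h1 h2
      rw [h1, h2, h]
      ring
    · right; right
      obtain ⟨n, hn⟩ := sum_reps v hv hc (fun x => av E f x * av E f' x) (fun x b hb => by
        beta_reduce
        rw [hr x b hb, hr' x b hb]
        rcases hsg b hb with h' | h' <;> rw [h'] <;> ring)
      rw [hn, h, mul_zero]
  -- twists
  have tw : ∀ x, (av E f x = 0 ∧ av E f' x = 0) ∨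
      ((∀ d ∈ E, x⁻¹ * d * x ∈ B → f 1 * f (x⁻¹ * d * x) = 1) ∧
        ∀ d ∈ E, x⁻¹ * d * x ∈ B → f' 1 * f' (x⁻¹ * d * x) = 1) := by
    intro x
    by_cases h : ∀ d ∈ E, x⁻¹ * d * x ∈ B → f 1 * f (x⁻¹ * d * x) = 1
    · exact Or.inr ⟨h, fun d hd hx => by rw [hlab _ hx, h d hd hx]⟩
    · push Not at h
      obtain ⟨d, hd, hx, h1⟩ := h
      have h2 := (hsg _ hx).resolve_left h1
      exact Or.inl ⟨av_twist hcomm hc2 hd hx hf hVB h2,
        av_twist hcomm hc2 hd hx hf' hVB' (by rw [hlab _ hx, h2])⟩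
  have hs1 : ∀ x, f x = 1 ∨ f x = -1 := hf.sign
  have hs2 : ∀ x, f' x = 1 ∨ f' x = -1 := hf'.sign
  by_cases c3 : ∃ x, ¬ (av E f x = 0 ∧ av E f' x = 0) ∧ ∃ e ∈ E, ∃ e' ∈ E, x⁻¹ * e * x ∉ B ∧
      x⁻¹ * e' * x ∉ B ∧ (e * x)⁻¹ * (e' * x) ∉ B
  · -- a transitive orbit
    obtain ⟨x, hx, e, he, e', he', h1, h2, h3⟩ := c3
    obtain ⟨u, u'⟩ := (tw x).resolve_left hx
    have hv : ∀ i k : Fin 3, i ≠ k → (![x, e * x, e' * x] i)⁻¹ * ![x, e * x, e' * x] k ∉ B := by
      intro i k hik
      fin_cases i <;> fin_cases k <;> first | exact absurd rfl hik | skip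
      · change x⁻¹ * (e * x) ∉ B
        rw [← mul_assoc]
        exact h1
      · change x⁻¹ * (e' * x) ∉ B
        rw [← mul_assoc]
        exact h2
      · change (e * x)⁻¹ * x ∉ B
        have e2 : (e * x)⁻¹ * x = (x⁻¹ * e * x)⁻¹ := by group
        rw [e2]
        exact fun h' => h1 ((B.inv_mem_iff).1 h')
      · exact h3
      · change (e' * x)⁻¹ * x ∉ B
        have e2 : (e' * x)⁻¹ * x = (x⁻¹ * e' * x)⁻¹ := by group
        rw [e2]
        exact fun h' => h2 ((B.inv_mem_iff).1 h')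
      · change (e' * x)⁻¹ * (e * x) ∉ B
        have e2 : (e' * x)⁻¹ * (e * x) = ((e * x)⁻¹ * (e' * x))⁻¹ := by group
        rw [e2]
        exact fun h' => h3 ((B.inv_mem_iff).1 h')
    refine fin _ hv ?_
    have h4 := val_three (E := E) hcomm hc2 hf hB he he' h1 h2 h3 hVB u
    have h5 := val_three (E := E) hcomm hc2 hf' hB he he' h1 h2 h3 hVB' u'
    obtain ⟨⟨i, hi⟩, ⟨i', hi'⟩⟩ := ext _ hv
    have ha : ∀ i : Fin 3, av E f (![x, e * x, e' * x] i) = av E f x := by
      intro i
      fin_cases i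
      · rfl
      · exact av_left E f he x
      · exact av_left E f he' x
    have ha' : ∀ i : Fin 3, av E f' (![x, e * x, e' * x] i) = av E f' x := by
      intro i
      fin_cases i
      · rfl
      · exact av_left E f' he x
      · exact av_left E f' he' x
    rw [ha] at hi
    rw [ha'] at hi'
    have h6 : 3 * av E f x = nD E ∨ 3 * av E f x = -nD E := by
      rcases hs1 x with a1 | a1 <;> rcases hs1 (e * x) with a2 | a2 <;>
        rcases hs1 (e' * x) with a3 | a3 <;> rw [a1, a2, a3] at h4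
      · exact absurd (by rw [show av E f x = nD E by linarith]) hi
      all_goals first
        | (left; linarith)
        | (right; linarith)
        | exact absurd (by rw [show av E f x = -nD E by linarith]; ring) hi
    have h7 : 3 * av E f' x = nD E ∨ 3 * av E f' x = -nD E := by
      rcases hs2 x with a1 | a1 <;> rcases hs2 (e * x) with a2 | a2 <;>
        rcases hs2 (e' * x) with a3 | a3 <;> rw [a1, a2, a3] at h5
      · exact absurd (by rw [show av E f' x = nD E by linarith]) hi'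
      all_goals first
        | (left; linarith)
        | (right; linarith)
        | exact absurd (by rw [show av E f' x = -nD E by linarith]; ring) hi'
    rcases h6 with h6 | h6 <;> rcases h7 with h7 | h7
    · left
      intro i
      rw [ha, ha']
      linarith
    · right; left
      intro i
      rw [ha, ha']
      linarith
    · right; left
      intro i
      rw [ha, ha']
      linarith
    · left
      intro i
      rw [ha, ha']
      linarith
  by_cases c2 : ∃ x, ¬ (av E f x = 0 ∧ av E f' x = 0) ∧ ∃ e ∈ E, x⁻¹ * e * x ∉ B ∧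
      ∀ d ∈ E, x⁻¹ * d * x ∈ B ∨ (e * x)⁻¹ * (d * x) ∈ B
  · -- an orbit with two elements
    obtain ⟨x, hx, e, he, h1, h2⟩ := c2
    obtain ⟨u, u'⟩ := (tw x).resolve_left hx
    have h4 := val_two (E := E) hcomm hc2 hf he h1 h2 hVB u
    have h5 := val_two (E := E) hcomm hc2 hf' he h1 h2 hVB' u'
    -- the third coset
    obtain ⟨z, hz1, hz2⟩ : ∃ z, x⁻¹ * z ∉ B ∧ (e * x)⁻¹ * z ∉ B := by
      by_contra hcon
      push Not at hcon
      obtain ⟨v, hv⟩ := exists_reps hB
      have hx1 : ∀ i k, i ≠ k → x⁻¹ * v i ∈ B → x⁻¹ * v k ∈ B → False := by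
        intro i k hik a1 a2
        apply hv i k hik
        have a3 : (v i)⁻¹ * v k = (x⁻¹ * v i)⁻¹ * (x⁻¹ * v k) := by group
        rw [a3]
        exact B.mul_mem (B.inv_mem a1) a2
      have hx2 : ∀ i k, i ≠ k → (e * x)⁻¹ * v i ∈ B → (e * x)⁻¹ * v k ∈ B → False := by
        intro i k hik a1 a2
        apply hv i k hik
        have a3 : (v i)⁻¹ * v k = ((e * x)⁻¹ * v i)⁻¹ * ((e * x)⁻¹ * v k) := by group
        rw [a3]
        exact B.mul_mem (B.inv_mem a1) a2
      by_cases b0 : x⁻¹ * v 0 ∈ B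
      · exact hx2 1 2 (by decide) (hcon _ fun h => hx1 0 1 (by decide) b0 h)
          (hcon _ fun h => hx1 0 2 (by decide) b0 h)
      · by_cases b1 : x⁻¹ * v 1 ∈ B
        · exact hx2 0 2 (by decide) (hcon _ b0) (hcon _ fun h => hx1 1 2 (by decide) b1 h)
        · exact hx2 0 1 (by decide) (hcon _ b0) (hcon _ b1)
    have hv : ∀ i k : Fin 3, i ≠ k → (![x, e * x, z] i)⁻¹ * ![x, e * x, z] k ∉ B := by
      intro i k hik
      fin_cases i <;> fin_cases k <;> first | exact absurd rfl hik | skip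
      · change x⁻¹ * (e * x) ∉ B
        rw [← mul_assoc]
        exact h1
      · exact hz1
      · change (e * x)⁻¹ * x ∉ B
        have e2 : (e * x)⁻¹ * x = (x⁻¹ * e * x)⁻¹ := by group
        rw [e2]
        exact fun h' => h1 ((B.inv_mem_iff).1 h')
      · exact hz2
      · change z⁻¹ * x ∉ B
        have e2 : z⁻¹ * x = (x⁻¹ * z)⁻¹ := by group
        rw [e2]
        exact fun h' => hz1 ((B.inv_mem_iff).1 h')
      · change z⁻¹ * (e * x) ∉ B
        have e2 : z⁻¹ * (e * x) = ((e * x)⁻¹ * z)⁻¹ := by group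
        rw [e2]
        exact fun h' => hz2 ((B.inv_mem_iff).1 h')
    have hzE : ∀ d ∈ E, z⁻¹ * d * z ∈ B := by
      intro d hd
      obtain ⟨i, hi⟩ := three_cosets hB _ hv (d * z)
      fin_cases i
      · exfalso
        change x⁻¹ * (d * z) ∈ B at hi
        rcases h2 d⁻¹ (E.inv_mem hd) with a1 | a1
        · apply hz1
          have a2 : x⁻¹ * z = x⁻¹ * d⁻¹ * x * (x⁻¹ * (d * z)) := by group
          rw [a2]
          exact B.mul_mem a1 hi
        · apply hz2
          have a2 : (e * x)⁻¹ * z = (e * x)⁻¹ * (d⁻¹ * x) * (x⁻¹ * (d * z)) := by group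
          rw [a2]
          exact B.mul_mem a1 hi
      · exfalso
        change (e * x)⁻¹ * (d * z) ∈ B at hi
        rcases h2 (d⁻¹ * e) (E.mul_mem (E.inv_mem hd) he) with a1 | a1
        · apply hz1
          have a2 : x⁻¹ * z = x⁻¹ * (d⁻¹ * e) * x * ((e * x)⁻¹ * (d * z)) := by group
          rw [a2]
          exact B.mul_mem a1 hi
        · apply hz2
          have a2 : (e * x)⁻¹ * z = (e * x)⁻¹ * (d⁻¹ * e * x) * ((e * x)⁻¹ * (d * z)) := by group
          rw [a2]
          exact B.mul_mem a1 hi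
      · change z⁻¹ * (d * z) ∈ B at hi
        rwa [← mul_assoc] at hi
    refine fin _ hv ?_
    obtain ⟨⟨i, hi⟩, ⟨i', hi'⟩⟩ := ext _ hv
    have hxe : av E f (e * x) = av E f x := av_left E f he x
    have hxe' : av E f' (e * x) = av E f' x := av_left E f' he x
    have h6 : av E f x = 0 ∨ av E f x = nD E ∨ av E f x = -nD E := by
      rcases hs1 x with a1 | a1 <;> rcases hs1 (e * x) with a2 | a2 <;> rw [a1, a2] at h4
      · right; left; linarith
      · left; linarith
      · left; linarith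
      · right; right; linarith
    have h7 : av E f' x = 0 ∨ av E f' x = nD E ∨ av E f' x = -nD E := by
      rcases hs2 x with a1 | a1 <;> rcases hs2 (e * x) with a2 | a2 <;> rw [a1, a2] at h5
      · right; left; linarith
      · left; linarith
      · left; linarith
      · right; right; linarith
    have hall : ∀ (g : G → ℤ), g (e * x) = g x → (g x = nD E ∨ g x = -nD E) →
        (g z = nD E ∨ g z = -nD E) → ∀ i : Fin 3,
          g (![x, e * x, z] i) * g (![x, e * x, z] i) = nD E * nD E := by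
      intro g hg1 hg2 hg3 i
      fin_cases i
      · change g x * g x = _
        rcases hg2 with h | h <;> rw [h] <;> ring
      · change g (e * x) * g (e * x) = _
        rw [hg1]
        rcases hg2 with h | h <;> rw [h] <;> ring
      · change g z * g z = _
        rcases hg3 with h | h <;> rw [h] <;> ring
    rcases tw z with ⟨z1, z2⟩ | ⟨uz, uz'⟩
    · -- the third coset is twisted
      rcases h6 with h6 | h6
      · right; right
        rw [Fin.sum_univ_three]
        change av E f x * av E f' x + av E f (e * x) * av E f' (e * x) + av E f z * av E f' z = 0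
        rw [hxe, h6, z1]
        ring
      · rcases h7 with h7 | h7
        · right; right
          rw [Fin.sum_univ_three]
          change av E f x * av E f' x + av E f (e * x) * av E f' (e * x) + av E f z * av E f' z = 0
          rw [hxe', h7, z1]
          ring
        · have h8 : av E f' x = av E f x ∨ av E f' x = -av E f x := by
            rcases h6 with h6 | h6 <;> rcases h7 with h7 | h7 <;> rw [h6, h7] <;> simp
          rcases h8 with h8 | h8
          · left
            intro i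
            fin_cases i
            · exact h8
            · change av E f' (e * x) = av E f (e * x)
              rw [hxe, hxe', h8]
            · change av E f' z = av E f z
              rw [z1, z2]
          · right; left
            intro i
            fin_cases i
            · exact h8
            · change av E f' (e * x) = -av E f (e * x)
              rw [hxe, hxe', h8]
            · change av E f' z = -av E f z
              rw [z1, z2, neg_zero]
    · have z1 := val_one (E := E) hcomm hc2 hf hzE hVB uz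
      have z2 := val_one (E := E) hcomm hc2 hf' hzE hVB' uz'
      have z3 : av E f z = nD E ∨ av E f z = -nD E := by
        rcases hs1 z with a1 | a1 <;> rw [z1, a1]
        · left; ring
        · right; ring
      have z4 : av E f' z = nD E ∨ av E f' z = -nD E := by
        rcases hs2 z with a1 | a1 <;> rw [z2, a1]
        · left; ring
        · right; ring
      have h8 : av E f x = 0 := by
        rcases h6 with h6 | h6
        · exact h6
        · exact absurd (hall (av E f) hxe h6 z3 i) hi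
      have h9 : av E f' x = 0 := by
        rcases h7 with h7 | h7
        · exact h7
        · exact absurd (hall (av E f') hxe' h7 z4 i') hi'
      have h10 : av E f' z = av E f z ∨ av E f' z = -av E f z := by
        rcases z3 with h | h <;> rcases z4 with h' | h' <;> rw [h, h'] <;> simp
      rcases h10 with h10 | h10
      · left
        intro i
        fin_cases i
        · change av E f' x = av E f x
          rw [h8, h9]
        · change av E f' (e * x) = av E f (e * x)
          rw [hxe, hxe', h8, h9]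
        · exact h10
      · right; left
        intro i
        fin_cases i
        · change av E f' x = -av E f x
          rw [h8, h9, neg_zero]
        · change av E f' (e * x) = -av E f (e * x)
          rw [hxe, hxe', h8, h9, neg_zero]
        · exact h10
  -- all orbits are trivial
  obtain ⟨v, hv⟩ := exists_reps hB
  refine fin v hv ?_
  obtain ⟨⟨i0, hi0⟩, -⟩ := ext v hv
  refine comb3 (fun i => av E f (v i)) (fun i => av E f' (v i)) (nD E) (fun i => ?_) ⟨i0, hi0⟩
  by_cases h0 : av E f (v i) = 0 ∧ av E f' (v i) = 0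
  · exact Or.inl h0
  · right
    obtain ⟨u, u'⟩ := (tw (v i)).resolve_left h0
    rcases orb_cases E B (v i) with h1 | h1 | h1
    · have z1 := val_one (E := E) hcomm hc2 hf h1 hVB u
      have z2 := val_one (E := E) hcomm hc2 hf' h1 hVB' u'
      rcases hs1 (v i) with a1 | a1 <;> rcases hs2 (v i) with a2 | a2 <;> rw [z1, z2, a1, a2]
      · left; exact ⟨by ring, rfl⟩
      · right; exact ⟨by ring, by ring⟩
      · right; exact ⟨by ring, by ring⟩
      · left; exact ⟨by ring, rfl⟩
    · exact absurd ⟨v i, h0, h1⟩ c2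
    · exact absurd ⟨v i, h0, h1⟩ c3

end

end Pool.Agent.R937.PZ
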