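import Pool.Agent.R937.TZ.S3B

/-!
# Averages of non-ordinary good functions on the symmetric group of degree three
-/

set_option autoImplicit false
set_option linter.unusedSectionVars false
set_option linter.unusedVariables false

namespace Pool.Agent.R937.PZ

open Pool.Agent.R937.HZ Pool.Agent.R937.TZ

/-- The sign that belongs to a parity. -/
def ee (b : Bool) : ℤ := if b then -1 else 1

/-- Rotations. -/
def rot (a : Fin 3) : P3 := Equiv.addRight a

/-- The functions of the first kind. -/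
def SS (b : Bool) (q : Fin 3) (F : P3 → ℤ) : Prop :=
  ∃ p i : Fin 3, i ≠ q ∧ (F = TT b p i ∨ F = -TT b p i)

theorem SS.neg {b : Bool} {q : Fin 3} {F : P3 → ℤ} (h : SS b q F) : SS b q (-F) := by
  obtain ⟨p, i, hi, h | h⟩ := h
  · exact ⟨p, i, hi, Or.inr (by rw [h])⟩
  · exact ⟨p, i, hi, Or.inl (by rw [h, neg_neg])⟩

theorem ApS (b : Bool) (q p i : Fin 3) (σ : P3) (hi : i ≠ q) :
    Ap q (ee b) (TT b p i) σ = 2 * UU b σ * (if σ p = q then 1 else 0) := by
  revert b q p i σ
  decide

theorem ApU (b : Bool) (q : Fin 3) (σ : P3) : Ap q (ee b) (UU b) σ = 2 * UU b σ := by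
  revert b q σ
  decide

theorem ApU0 (b : Bool) (q : Fin 3) (σ : P3) : Ap q (ee b) (UU (!b)) σ = 0 := by
  revert b q σ
  decide

theorem ApW (b : Bool) (q p : Fin 3) (σ : P3) : Ap q (ee b) (TT (!b) p (q + 1)) σ =
    2 * UU (!b) σ * ((if σ p = q + 2 then 1 else 0) - (if σ p = q + 1 then 1 else 0)) := by
  revert b q p σ
  decide

theorem ApW2 (b : Bool) (q p : Fin 3) (σ : P3) : Ap q (ee b) (TT (!b) p (q + 2)) σ =
    -(2 * UU (!b) σ * ((if σ p = q + 2 then 1 else 0) - (if σ p = q + 1 then 1 else 0))) := by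
  revert b q p σ
  decide

theorem ApW0 (b : Bool) (q p : Fin 3) (σ : P3) : Ap q (ee b) (TT (!b) p q) σ = 0 := by
  revert b q p σ
  decide

theorem ApO (b : Bool) (q p : Fin 3) (σ : P3) :
    Ap q (ee b) (TT b p q) σ = Ap q (ee b) (UU b) σ ∨
      Ap q (ee b) (TT b p q) σ = -Ap q (ee b) (UU b) σ := by
  revert b q p σ
  decide

theorem Ap_neg (q : Fin 3) (e : ℤ) (F : P3 → ℤ) (σ : P3) : Ap q e (-F) σ = -Ap q e F σ := by
  unfold Ap
  rw [Pi.neg_apply, Pi.neg_apply]
  ring

theorem rotS (q p k : Fin 3) : (if rot (q - p) k = q then (1 : ℤ) else 0) =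
    if k = p then 1 else 0 := by
  revert q p k
  decide

theorem rotU (b : Bool) (a : Fin 3) : UU b (rot a) = 1 := by
  revert b a
  decide

theorem rotW (q k p : Fin 3) : (if rot (q + 1 - k) p = q + 2 then (1 : ℤ) else 0) -
    (if rot (q + 1 - k) p = q + 1 then (1 : ℤ) else 0) =
      (if p = k + 1 then 1 else 0) - (if p = k then 1 else 0) := by
  revert q k p
  decide

theorem cases3 (q i : Fin 3) : i = q ∨ i = q + 1 ∨ i = q + 2 := by
  revert q i
  decide

theorem ne1 (q : Fin 3) : q + 1 ≠ q := by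
  revert q
  decide

theorem ne2 (q : Fin 3) : q + 2 ≠ q := by
  revert q
  decide

variable {M : Type} [AddCommGroup M]

section

variable (D : (P3 → ℤ) → M) (b : Bool) (q : Fin 3)

/-- The decomposition of a good function. -/
def Dec (F : P3 → ℤ) (s : Fin 3 → ℤ) (t : ℤ) (r : Fin 3 → ℤ) : Prop :=
  D F = ∑ p, s p • D (TT b p (q + 1)) + t • D (UU b) + ∑ p, r p • D (TT (!b) p (q + 1)) ∧
  (∀ σ, Ap q (ee b) F σ = ∑ p, s p * (2 * UU b σ * (if σ p = q then 1 else 0)) +
    t * (2 * UU b σ) + ∑ p, r p * (2 * UU (!b) σ *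
      ((if σ p = q + 2 then 1 else 0) - (if σ p = q + 1 then 1 else 0)))) ∧
  (¬ SS b q F → s = 0) ∧ (¬ SS (!b) q F → r = 0)

variable {D b q}

theorem Dec.neg {F : P3 → ℤ} {s r : Fin 3 → ℤ} {t : ℤ} (h : Dec D b q F s t r)
    (hn : D (-F) = -D F) : Dec D b q (-F) (-s) (-t) (-r) := by
  obtain ⟨h1, h2, h3, h4⟩ := h
  refine ⟨?_, fun σ => ?_, fun h5 => ?_, fun h5 => ?_⟩
  · rw [hn, h1]
    simp only [Pi.neg_apply, neg_smul, Finset.sum_neg_distrib]
    abel
  · rw [Ap_neg, h2]
    simp only [Pi.neg_apply, neg_mul, Finset.sum_neg_distrib]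
    ring
  · rw [h3 fun h6 => h5 h6.neg, neg_zero]
  · rw [h4 fun h6 => h5 h6.neg, neg_zero]

theorem sum_single_smul (p : Fin 3) (v : Fin 3 → M) :
    ∑ k, (Pi.single p 1 : Fin 3 → ℤ) k • v k = v p := by
  rw [Finset.sum_eq_single p]
  · rw [Pi.single_eq_same, one_smul]
  · intro k _ hk
    rw [Pi.single_eq_of_ne hk, zero_smul]
  · intro h
    exact absurd (Finset.mem_univ _) h

theorem sum_single_mul (p : Fin 3) (v : Fin 3 → ℤ) :
    ∑ k, (Pi.single p 1 : Fin 3 → ℤ) k * v k = v p := by
  rw [Finset.sum_eq_single p]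
  · rw [Pi.single_eq_same, one_mul]
  · intro k _ hk
    rw [Pi.single_eq_of_ne hk, zero_mul]
  · intro h
    exact absurd (Finset.mem_univ _) h

variable (hneg : ∀ F, Good F → D (-F) = -D F)
  (hcol : ∀ b i, D (TT b 0 i) + D (TT b 1 i) + D (TT b 2 i) = D (UU b))
  (hc : ∀ F F', Good F → Good F' → (∀ σ, Ap q (ee b) F σ = Ap q (ee b) F' σ) → D F = D F')
  (hz : ∀ F, Good F → (∀ σ, Ap q (ee b) F σ = 0) → D F = 0)

include hneg hc hz in
theorem exists_dec {F : P3 → ℤ} (hF : Good F)
    (hP : (∃ b, F = UU b ∨ F = -UU b) ∨ ∃ σ, Ap q (ee b) F σ ≠ Ap q (ee b) (UU b) σ ∧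
      Ap q (ee b) F σ ≠ -Ap q (ee b) (UU b) σ) : ∃ s t r, Dec D b q F s t r := by
  classical
  have hzero : ∀ F, Good F → (∀ σ, Ap q (ee b) F σ = 0) → ∃ s t r, Dec D b q F s t r := by
    intro F hF h0
    refine ⟨0, 0, 0, ?_, fun σ => ?_, fun _ => rfl, fun _ => rfl⟩
    · rw [hz F hF h0]
      simp
    · rw [h0 σ]
      simp
  have hU : ∀ b', ∃ s t r, Dec D b q (UU b') s t r := by
    intro b'
    by_cases hb : b' = b
    · subst hb
      refine ⟨0, 1, 0, ?_, fun σ => ?_, fun _ => rfl, fun _ => rfl⟩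
      · simp
      · rw [ApU]
        simp
    · have hb' : b' = !b := by
        cases b <;> cases b' <;> simp_all
      rw [hb']
      exact hzero _ (good_UU _) (ApU0 b q)
  have hT : ∀ b' p i, (b' = b → i ≠ q) → ∃ s t r, Dec D b q (TT b' p i) s t r := by
    intro b' p i hi
    by_cases hb : b' = b
    · subst hb
      have hi' := hi rfl
      refine ⟨Pi.single p 1, 0, 0, ?_, fun σ => ?_, fun h => absurd ⟨p, i, hi', Or.inl rfl⟩ h,
        fun _ => rfl⟩
      · rw [sum_single_smul p fun p => D (TT b' p (q + 1)),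
          hc (TT b' p i) (TT b' p (q + 1)) (good_TT _ _ _) (good_TT _ _ _) fun σ => by
            rw [ApS b' q p i σ hi', ApS b' q p (q + 1) σ (ne1 q)]]
        simp
      · rw [ApS b' q p i σ hi',
          sum_single_mul p fun p => 2 * UU b' σ * (if σ p = q then 1 else 0)]
        simp
    · have hb' : b' = !b := by
        cases b <;> cases b' <;> simp_all
      rw [hb']
      rcases cases3 q i with h | h | h
      · rw [h]
        exact hzero _ (good_TT _ _ _) (ApW0 b q p)
      · rw [h]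
        refine ⟨0, 0, Pi.single p 1, ?_, fun σ => ?_, fun _ => rfl,
          fun h => absurd ⟨p, q + 1, ne1 q, Or.inl rfl⟩ h⟩
        · rw [sum_single_smul p fun p => D (TT (!b) p (q + 1))]
          simp
        · rw [ApW, sum_single_mul p fun p => 2 * UU (!b) σ *
            ((if σ p = q + 2 then 1 else 0) - (if σ p = q + 1 then 1 else 0))]
          simp
      · rw [h]
        refine ⟨0, 0, -Pi.single p 1, ?_, fun σ => ?_, fun _ => rfl,
          fun h => absurd ⟨p, q + 2, ne2 q, Or.inl rfl⟩ h⟩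
        · have h1 : D (TT (!b) p (q + 2)) = -D (TT (!b) p (q + 1)) := by
            rw [← hneg _ (good_TT _ _ _)]
            refine hc _ _ (good_TT _ _ _) (good_TT _ _ _).neg fun σ => ?_
            rw [Ap_neg, ApW2, ApW]
          rw [h1]
          have h2 := sum_single_smul p fun p => D (TT (!b) p (q + 1))
          simp only [Pi.neg_apply, neg_smul, Finset.sum_neg_distrib]
          rw [h2]
          simp
        · have h2 := sum_single_mul p fun p => 2 * UU (!b) σ *
            ((if σ p = q + 2 then 1 else 0) - (if σ p = q + 1 then 1 else 0))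
          simp only [Pi.neg_apply, neg_mul, Finset.sum_neg_distrib]
          rw [ApW2, h2]
          simp
  have hnegd : ∀ F, Good F → (∃ s t r, Dec D b q F s t r) → ∃ s t r, Dec D b q (-F) s t r := by
    rintro F hF ⟨s, t, r, h⟩
    exact ⟨-s, -t, -r, h.neg (hneg F hF)⟩
  have hno : ∀ p i, (F = TT b p i ∨ F = -TT b p i) → i ≠ q := by
    rintro p i h rfl
    rcases hP with ⟨b', h1⟩ | ⟨σ, h1, h2⟩
    · have h3 : ∀ (b b' : Bool) (p i : Fin 3), ¬ (∀ σ, TT b p i σ = UU b' σ) ∧
          ¬ (∀ σ, TT b p i σ = -UU b' σ) := by decide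
      have h4 := h3 b b' p i
      rcases h with h | h <;> rcases h1 with h1 | h1 <;> rw [h1] at h
      · exact h4.1 fun σ => congrFun h.symm σ
      · exact h4.2 fun σ => congrFun h.symm σ
      · exact h4.2 fun σ => by
          have := congrFun h σ
          rw [Pi.neg_apply] at this
          omega
      · exact h4.1 fun σ => by
          have := congrFun h σ
          rw [Pi.neg_apply, Pi.neg_apply] at this
          omega
    · rcases h with h | h
      · rw [h] at h1 h2
        rcases ApO b i p σ with h5 | h5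
        · exact h1 h5
        · exact h2 h5
      · rw [h, Ap_neg] at h1 h2
        rcases ApO b i p σ with h5 | h5
        · exact h2 (by rw [h5])
        · exact h1 (by rw [h5, neg_neg])
  rcases good_cases hF with ⟨b', h | h⟩ | ⟨b', p, i, h | h⟩
  · rw [h]
    exact hU b'
  · rw [h]
    exact hnegd _ (good_UU _) (hU b')
  · rw [h]
    refine hT b' p i fun h' => hno p i (Or.inl (by rw [h, h']))
  · rw [h]
    refine hnegd _ (good_TT _ _ _) (hT b' p i fun h' => hno p i (Or.inr (by rw [h, h'])))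

include hneg hcol hc hz in
/-- The case of a subgroup of order two. -/
theorem ker_Ap {ι : Type} [Fintype ι] (m : ι → ℤ) (F : ι → P3 → ℤ) (hF : ∀ i, Good (F i))
    (hP : ∀ i, (∃ b, F i = UU b ∨ F i = -UU b) ∨ ∃ σ,
      Ap q (ee b) (F i) σ ≠ Ap q (ee b) (UU b) σ ∧ Ap q (ee b) (F i) σ ≠ -Ap q (ee b) (UU b) σ)
    (hx : (∀ i, ¬ SS b q (F i)) ∨ ∀ i, ¬ SS (!b) q (F i))
    (hr : ∀ σ, ∑ i, m i * Ap q (ee b) (F i) σ = 0) : ∑ i, m i • D (F i) = 0 := by
  classical
  choose s t r h using fun i => exists_dec (D := D) hneg hc hz (hF i) (hP i)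
  set S : Fin 3 → ℤ := fun p => ∑ i, m i * s i p with hS
  set T : ℤ := ∑ i, m i * t i with hT
  set R : Fin 3 → ℤ := fun p => ∑ i, m i * r i p with hR
  have hD : ∑ i, m i • D (F i) = ∑ p, S p • D (TT b p (q + 1)) + T • D (UU b) +
      ∑ p, R p • D (TT (!b) p (q + 1)) := by
    have h1 : ∀ i, m i • D (F i) = ∑ p, (m i * s i p) • D (TT b p (q + 1)) +
        (m i * t i) • D (UU b) + ∑ p, (m i * r i p) • D (TT (!b) p (q + 1)) := by
      intro i
      rw [(h i).1, smul_add, smul_add, Finset.smul_sum, Finset.smul_sum]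
      simp only [mul_smul]
    rw [Finset.sum_congr rfl fun i _ => h1 i, Finset.sum_add_distrib, Finset.sum_add_distrib,
      Finset.sum_comm, ← Finset.sum_smul, Finset.sum_comm (f := fun i p =>
        (m i * r i p) • D (TT (!b) p (q + 1)))]
    congr 1
    · congr 1
      exact Finset.sum_congr rfl fun p _ => by rw [← Finset.sum_smul]
    · exact Finset.sum_congr rfl fun p _ => by rw [← Finset.sum_smul]
  have hrel : ∀ σ, ∑ p, S p * (2 * UU b σ * (if σ p = q then 1 else 0)) + T * (2 * UU b σ) +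
      ∑ p, R p * (2 * UU (!b) σ *
        ((if σ p = q + 2 then 1 else 0) - (if σ p = q + 1 then 1 else 0))) = 0 := by
    intro σ
    refine Eq.trans ?_ (hr σ)
    have h1 : ∀ i, m i * Ap q (ee b) (F i) σ =
        ∑ p, (m i * s i p) * (2 * UU b σ * (if σ p = q then 1 else 0)) +
        (m i * t i) * (2 * UU b σ) + ∑ p, (m i * r i p) * (2 * UU (!b) σ *
          ((if σ p = q + 2 then 1 else 0) - (if σ p = q + 1 then 1 else 0))) := by
      intro i
      rw [(h i).2.1 σ, mul_add, mul_add, Finset.mul_sum, Finset.mul_sum]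
      simp only [mul_assoc]
    rw [Finset.sum_congr rfl fun i _ => h1 i, Finset.sum_add_distrib, Finset.sum_add_distrib,
      Finset.sum_comm, ← Finset.sum_mul, Finset.sum_comm (f := fun i p =>
        (m i * r i p) * (2 * UU (!b) σ *
          ((if σ p = q + 2 then 1 else 0) - (if σ p = q + 1 then 1 else 0))))]
    congr 1
    · congr 1
      exact Finset.sum_congr rfl fun p _ => Finset.sum_mul _ _ _
    · exact Finset.sum_congr rfl fun p _ => Finset.sum_mul _ _ _
  rw [hD]
  rcases hx with hx | hx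
  · -- no functions of the first kind
    have hS0 : S = 0 := by
      funext p
      exact Finset.sum_eq_zero fun i _ => by rw [(h i).2.2.1 (hx i), Pi.zero_apply, mul_zero]
    have key : ∀ k : Fin 3, R (k + 1) - R k + T = 0 := by
      intro k
      have h1 := hrel (rot (q + 1 - k))
      rw [hS0] at h1
      simp only [Pi.zero_apply, zero_mul, Finset.sum_const_zero, zero_add, rotU, mul_one] at h1
      simp only [rotW] at h1
      have h2 : ∑ p, R p * (2 * ((if p = k + 1 then (1 : ℤ) else 0) - (if p = k then 1 else 0))) =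
          2 * (R (k + 1) - R k) := by
        have h3 : ∀ p, R p * (2 * ((if p = k + 1 then (1 : ℤ) else 0) - (if p = k then 1 else 0))) =
            2 * ((if p = k + 1 then R p else 0) - (if p = k then R p else 0)) := by
          intro p
          split_ifs <;> ring
        rw [Finset.sum_congr rfl fun p _ => h3 p, ← Finset.mul_sum, Finset.sum_sub_distrib,
          Finset.sum_ite_eq' Finset.univ, Finset.sum_ite_eq' Finset.univ,
          if_pos (Finset.mem_univ _), if_pos (Finset.mem_univ _)]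
      rw [h2] at h1
      omega
    have k0 := key 0
    have k1 := key 1
    have k2 := key 2
    have e1 : (0 : Fin 3) + 1 = 1 := rfl
    have e2 : (1 : Fin 3) + 1 = 2 := rfl
    have e3 : (2 : Fin 3) + 1 = 0 := rfl
    rw [e1] at k0
    rw [e2] at k1
    rw [e3] at k2
    have hT0 : T = 0 := by omega
    have hR1 : R 1 = R 0 := by omega
    have hR2 : R 2 = R 0 := by omega
    rw [hS0, hT0]
    simp only [Pi.zero_apply, zero_smul, Finset.sum_const_zero, zero_add]
    rw [Fin.sum_univ_three, hR1, hR2, ← smul_add, ← smul_add, hcol,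
      hz _ (good_UU _) (ApU0 b q), smul_zero]
  · have hR0 : R = 0 := by
      funext p
      exact Finset.sum_eq_zero fun i _ => by rw [(h i).2.2.2 (hx i), Pi.zero_apply, mul_zero]
    have key : ∀ p : Fin 3, S p = -T := by
      intro p
      have h1 := hrel (rot (q - p))
      rw [hR0] at h1
      simp only [Pi.zero_apply, zero_mul, Finset.sum_const_zero, add_zero, rotU, mul_one] at h1
      simp only [rotS] at h1
      have h2 : ∑ k, S k * (2 * (if k = p then (1 : ℤ) else 0)) = 2 * S p := by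
        have h3 : ∀ k, S k * (2 * (if k = p then (1 : ℤ) else 0)) =
            2 * (if k = p then S k else 0) := by
          intro k
          split_ifs <;> ring
        rw [Finset.sum_congr rfl fun k _ => h3 k, ← Finset.mul_sum,
          Finset.sum_ite_eq' Finset.univ, if_pos (Finset.mem_univ _)]
      rw [h2] at h1
      omega
    rw [hR0]
    simp only [Pi.zero_apply, zero_smul, Finset.sum_const_zero, add_zero]
    rw [Fin.sum_univ_three, key 0, key 1, key 2, ← smul_add, ← smul_add, hcol, neg_smul,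
      neg_add_cancel]

end

/-- Two basis elements. -/
theorem fin2 (D : (P3 → ℤ) → M) (aw' : (P3 → ℤ) → P3 → ℤ) {ι : Type} [Fintype ι] (m : ι → ℤ)
    (F : ι → P3 → ℤ) (hr : ∀ σ, ∑ i, m i * aw' (F i) σ = 0) (u v : M) (U V : P3 → ℤ)
    (huv : ∀ X Y : ℤ, (∀ σ, X * U σ + Y * V σ = 0) → X • u + Y • v = 0)
    (h : ∀ i, ∃ x y : ℤ, D (F i) = x • u + y • v ∧ ∀ σ, aw' (F i) σ = x * U σ + y * V σ) :
    ∑ i, m i • D (F i) = 0 := by
  choose x y h using h
  rw [← huv (∑ i, m i * x i) (∑ i, m i * y i) fun σ => ?_]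
  · rw [Finset.sum_smul, Finset.sum_smul, ← Finset.sum_add_distrib]
    exact Finset.sum_congr rfl fun i _ => by rw [(h i).1, smul_add, mul_smul, mul_smul]
  · rw [← hr σ, Finset.sum_mul, Finset.sum_mul, ← Finset.sum_add_distrib]
    exact Finset.sum_congr rfl fun i _ => by rw [(h i).2]; ring

theorem UU_indep (X Y : ℤ) (h : ∀ σ, X * UU false σ + Y * UU true σ = 0) : X = 0 ∧ Y = 0 := by
  have h1 := h 1
  have h2 := h (sw 0)
  rw [show UU false 1 = 1 from by decide, show UU true 1 = 1 from by decide] at h1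
  rw [show UU false (sw 0) = 1 from by decide, show UU true (sw 0) = -1 from by decide] at h2
  omega

theorem AA_TT (b : Bool) (p i : Fin 3) (σ : P3) : AA (TT b p i) σ = UU b σ := by
  revert b p i σ
  decide

theorem AA_UU (b : Bool) (σ : P3) : AA (UU b) σ = 3 * UU b σ := by
  revert b σ
  decide

theorem AS_TT (b b' : Bool) (p i : Fin 3) (σ : P3) :
    AS (ee b) (TT b' p i) σ = if b' = b then 2 * UU b σ else 0 := by
  revert b b' p i σ
  decide

theorem AS_UU (b b' : Bool) (σ : P3) :
    AS (ee b) (UU b') σ = if b' = b then 6 * UU b σ else 0 := by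
  revert b b' σ
  decide

theorem AA_neg (F : P3 → ℤ) (σ : P3) : AA (-F) σ = -AA F σ := by
  unfold AA
  simp only [Pi.neg_apply]
  ring

theorem AS_neg (e : ℤ) (F : P3 → ℤ) (σ : P3) : AS e (-F) σ = -AS e F σ := by
  unfold AS
  simp only [Pi.neg_apply]
  ring

/-- **The relations between the averages of non-ordinary good functions.** -/
theorem rl_goodP {w : P3 → ℤ} (hw : Wgt w) (D : (P3 → ℤ) → M)
    (hneg : ∀ F, Good F → D (-F) = -D F)
    (hcol : ∀ b i, D (TT b 0 i) + D (TT b 1 i) + D (TT b 2 i) = D (UU b))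
    (hc : ∀ F F', Good F → Good F' → (∀ σ, aw w F σ = aw w F' σ) → D F = D F')
    (hz : ∀ F, Good F → (∀ σ, aw w F σ = 0) → D F = 0)
    {ι : Type} [Fintype ι] (m : ι → ℤ) (F : ι → P3 → ℤ) (hF : ∀ i, Good (F i))
    (hP : ∀ i, (∃ b, F i = UU b ∨ F i = -UU b) ∨ ∀ b, (∃ σ, aw w (UU b) σ ≠ 0) →
      ∃ σ, aw w (F i) σ ≠ aw w (UU b) σ ∧ aw w (F i) σ ≠ -aw w (UU b) σ)
    (hx : ∀ b q, (∀ F σ, aw w F σ = Ap q (ee b) F σ) →
      (∀ i, ¬ SS b q (F i)) ∨ ∀ i, ¬ SS (!b) q (F i))
    (hr : ∀ σ, ∑ i, m i * aw w (F i) σ = 0) : ∑ i, m i • D (F i) = 0 := by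
  classical
  have hee : ∀ e : ℤ, (e = 1 ∨ e = -1) → ∃ b, e = ee b := by
    rintro e (rfl | rfl)
    · exact ⟨false, rfl⟩
    · exact ⟨true, rfl⟩
  rcases wgt_cases hw with h | ⟨q, e, he, h⟩ | h | ⟨e, he, h⟩
  · -- the trivial group
    have hFU : ∀ i, ∃ b, F i = UU b ∨ F i = -UU b := by
      intro i
      rcases hP i with h1 | h1
      · exact h1
      · exfalso
        obtain ⟨σ, h2, h3⟩ := h1 false ⟨1, by rw [h]; decide⟩
        rw [h, h] at h2 h3
        rcases (hF i).1 σ with h4 | h4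
        · exact h2 (by rw [h4]; rfl)
        · exact h3 (by rw [h4]; rfl)
    refine fin2 D (aw w) m F hr (D (UU false)) (D (UU true)) (UU false) (UU true)
      (fun X Y hXY => ?_) fun i => ?_
    · obtain ⟨rfl, rfl⟩ := UU_indep X Y hXY
      rw [zero_smul, zero_smul, add_zero]
    · obtain ⟨b, h1 | h1⟩ := hFU i
      · cases b
        · exact ⟨1, 0, by rw [h1]; module, fun σ => by rw [h, h1]; ring⟩
        · exact ⟨0, 1, by rw [h1]; module, fun σ => by rw [h, h1]; ring⟩
      · cases b
        · exact ⟨-1, 0, by rw [h1, hneg _ (good_UU _)]; module,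
            fun σ => by rw [h, h1, Pi.neg_apply]; ring⟩
        · exact ⟨0, -1, by rw [h1, hneg _ (good_UU _)]; module,
            fun σ => by rw [h, h1, Pi.neg_apply]; ring⟩
  · -- a group of order two
    obtain ⟨b, rfl⟩ := hee e he
    have hx' := hx b q h
    simp only [h] at hc hz hr hP
    refine ker_Ap hneg hcol hc hz m F hF (fun i => ?_) hx' hr
    rcases hP i with h1 | h1
    · exact Or.inl h1
    · exact Or.inr (h1 b ⟨1, by
        rw [ApU]
        have : ∀ b : Bool, (2 : ℤ) * UU b 1 ≠ 0 := by decide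
        exact this b⟩)
  · -- the group of order three
    simp only [h] at hc hz hr
    have hTT : ∀ b p i, D (TT b p i) = D (TT b 0 0) := fun b p i =>
      hc _ _ (good_TT _ _ _) (good_TT _ _ _) fun σ => by rw [AA_TT, AA_TT]
    have hUU : ∀ b, D (UU b) = (3 : ℤ) • D (TT b 0 0) := by
      intro b
      rw [← hcol b 0, hTT b 1, hTT b 2]
      module
    refine fin2 D AA m F hr (D (TT false 0 0)) (D (TT true 0 0)) (UU false) (UU true)
      (fun X Y hXY => ?_) fun i => ?_
    · obtain ⟨rfl, rfl⟩ := UU_indep X Y hXY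
      rw [zero_smul, zero_smul, add_zero]
    · rcases good_cases (hF i) with ⟨b, h1 | h1⟩ | ⟨b, p, k, h1 | h1⟩
      · cases b
        · exact ⟨3, 0, by rw [h1, hUU]; module, fun σ => by rw [h1, AA_UU]; ring⟩
        · exact ⟨0, 3, by rw [h1, hUU]; module, fun σ => by rw [h1, AA_UU]; ring⟩
      · cases b
        · exact ⟨-3, 0, by rw [h1, hneg _ (good_UU _), hUU]; module,
            fun σ => by rw [h1, AA_neg, AA_UU]; ring⟩
        · exact ⟨0, -3, by rw [h1, hneg _ (good_UU _), hUU]; module,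
            fun σ => by rw [h1, AA_neg, AA_UU]; ring⟩
      · cases b
        · exact ⟨1, 0, by rw [h1, hTT]; module, fun σ => by rw [h1, AA_TT]; ring⟩
        · exact ⟨0, 1, by rw [h1, hTT]; module, fun σ => by rw [h1, AA_TT]; ring⟩
      · cases b
        · exact ⟨-1, 0, by rw [h1, hneg _ (good_TT _ _ _), hTT]; module,
            fun σ => by rw [h1, AA_neg, AA_TT]; ring⟩
        · exact ⟨0, -1, by rw [h1, hneg _ (good_TT _ _ _), hTT]; module,
            fun σ => by rw [h1, AA_neg, AA_TT]; ring⟩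
  · -- the whole group
    obtain ⟨b, rfl⟩ := hee e he
    simp only [h] at hc hz hr
    have hTT : ∀ p i, D (TT b p i) = D (TT b 0 0) := fun p i =>
      hc _ _ (good_TT _ _ _) (good_TT _ _ _) fun σ => by rw [AS_TT, AS_TT]
    have hUU : D (UU b) = (3 : ℤ) • D (TT b 0 0) := by
      rw [← hcol b 0, hTT 1, hTT 2]
      module
    have hT0 : ∀ b' p i, b' ≠ b → D (TT b' p i) = 0 := fun b' p i hb =>
      hz _ (good_TT _ _ _) fun σ => by rw [AS_TT, if_neg hb]
    have hU0 : ∀ b', b' ≠ b → D (UU b') = 0 := fun b' hb =>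
      hz _ (good_UU _) fun σ => by rw [AS_UU, if_neg hb]
    refine fin2 D (AS (ee b)) m F hr (D (TT b 0 0)) 0 (fun σ => 2 * UU b σ) 0
      (fun X Y hXY => ?_) fun i => ?_
    · have h1 := hXY 1
      have h2 : ∀ b : Bool, UU b 1 = 1 := by decide
      rw [h2, Pi.zero_apply] at h1
      have h3 : X = 0 := by omega
      rw [h3, zero_smul, smul_zero, add_zero]
    · rcases good_cases (hF i) with ⟨b', h1 | h1⟩ | ⟨b', p, k, h1 | h1⟩
      · by_cases hb : b' = b
        · subst hb
          exact ⟨3, 0, by rw [h1, hUU]; module, fun σ => by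
            rw [h1, AS_UU, if_pos rfl, Pi.zero_apply]; ring⟩
        · exact ⟨0, 0, by rw [h1, hU0 b' hb]; module, fun σ => by
            rw [h1, AS_UU, if_neg hb]; ring⟩
      · by_cases hb : b' = b
        · subst hb
          exact ⟨-3, 0, by rw [h1, hneg _ (good_UU _), hUU]; module, fun σ => by
            rw [h1, AS_neg, AS_UU, if_pos rfl, Pi.zero_apply]; ring⟩
        · exact ⟨0, 0, by rw [h1, hneg _ (good_UU _), hU0 b' hb]; module, fun σ => by
            rw [h1, AS_neg, AS_UU, if_neg hb]; ring⟩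
      · by_cases hb : b' = b
        · subst hb
          exact ⟨1, 0, by rw [h1, hTT]; module, fun σ => by
            rw [h1, AS_TT, if_pos rfl, Pi.zero_apply]; ring⟩
        · exact ⟨0, 0, by rw [h1, hT0 b' p k hb]; module, fun σ => by
            rw [h1, AS_TT, if_neg hb]; ring⟩
      · by_cases hb : b' = b
        · subst hb
          exact ⟨-1, 0, by rw [h1, hneg _ (good_TT _ _ _), hTT]; module, fun σ => by
            rw [h1, AS_neg, AS_TT, if_pos rfl, Pi.zero_apply]; ring⟩
        · exact ⟨0, 0, by rw [h1, hneg _ (good_TT _ _ _), hT0 b' p k hb]; module, fun σ => by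
            rw [h1, AS_neg, AS_TT, if_neg hb]; ring⟩

end Pool.Agent.R937.PZ
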